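import Pool.Agent.Helper17.TV.DeepDef

set_option autoImplicit false

/-!
Two-way multihead deterministic pushdown automata which accept with nested turns of bounded rank.
-/

namespace Pool.Agent.Helper17.TX

open Pool.Agent.Helper17.SL Pool.Agent.Helper17.TV

/-- The time interval `[a, b]` is cut into `t` pieces such that in each piece either each step in
which `H` falls, or each step in which `H` rises, lies in an interval with the property `P` which
is contained in the piece. -/
def Few (H : ℕ → ℕ) (P : ℕ → ℕ → Prop) (t a b : ℕ) : Prop :=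
  ∃ τ : ℕ → ℕ, Monotone τ ∧ τ 0 = a ∧ τ t = b ∧ ∀ i < t,
    (∀ m, τ i ≤ m → m < τ (i + 1) → H (m + 1) < H m →
      ∃ c d, τ i ≤ c ∧ c ≤ m ∧ m < d ∧ d ≤ τ (i + 1) ∧ P c d) ∨
    (∀ m, τ i ≤ m → m < τ (i + 1) → H m < H (m + 1) →
      ∃ c d, τ i ≤ c ∧ c ≤ m ∧ m < d ∧ d ≤ τ (i + 1) ∧ P c d)

/-- `[a, b]` is an excursion of rank `r`: the height is the same at both ends and not smaller in
between; for `r = 0` it exceeds the height at the ends by at most `h`, for `r + 1` the interval
is cut into `t` pieces which are monotone up to excursions of rank `r`. -/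
def Exc (H : ℕ → ℕ) (h t : ℕ) : ℕ → ℕ → ℕ → Prop
  | 0, a, b => H a = H b ∧ ∀ m, a ≤ m → m ≤ b → H a ≤ H m ∧ H m ≤ H a + h
  | r + 1, a, b => H a = H b ∧ (∀ m, a ≤ m → m ≤ b → H a ≤ H m) ∧ Few H (Exc H h t r) t a b

/-- The sequence `L` refines the heights `H 0, …, H T`: it has the value `H m` at the time `σ m`
and is monotone from the time `σ m` to the time `σ (m + 1)` (for example, the symbols of a pushed
word are pushed one after the other). -/
def Refines (L H σ : ℕ → ℕ) (T : ℕ) : Prop :=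
  Monotone σ ∧ σ 0 = 0 ∧ (∀ m ≤ T, L (σ m) = H m) ∧ ∀ m < T,
    (∀ i, σ m ≤ i → i < σ (m + 1) → L i ≤ L (i + 1)) ∨
      (∀ i, σ m ≤ i → i < σ (m + 1) → L (i + 1) ≤ L i)

/-- The automaton accepts the word `w`, and up to the first time with a state of `F` the height of
the stack, refined if necessary, has at most `t` pieces which are monotone up to excursions of
rank `r`. -/
def AcceptsNested {α Q Γ : Type} {k : ℕ} (δ : PDTrans α Q Γ k) (q₀ : Q) (F : Set Q)
    (r h t : ℕ) (w : List α) : Prop :=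
  ∃ T : ℕ, ((pdStep δ w)^[T] (q₀, fun _ => 0, [])).1 ∈ F ∧
    (∀ m < T, ((pdStep δ w)^[m] (q₀, fun _ => 0, [])).1 ∉ F) ∧
    ∃ L σ : ℕ → ℕ, Refines L (height δ q₀ w) σ T ∧ Few L (Exc L h t r) t 0 (σ T)

end Pool.Agent.Helper17.TX
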