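import Pool.Agent.Helper17.TV.LB
import Pool.Agent.Helper17.TV.Buf
import Pool.Agent.Helper17.TX.Df

set_option autoImplicit false

/-!
Nested turns: machines which skip excursions.
-/

namespace Pool.Agent.Helper17.TX

open Pool.Agent.Helper17.SL Pool.Agent.Helper17.TU

variable {S Γ : Type}

/-- The next control, given the popped symbol. -/
def nxt (a : S → TAct S Γ) (s : S) (y : Option Γ) : S :=
  match a s with
  | .stay s' => s'
  | .push s' _ => s'
  | .pop k => k y

/-- The machine `a` which skips the excursions whose end is known by `e` (`e s' = some s''`: the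
computation which starts in `s'` after the push is in `s''` before the pushed symbol is popped). -/
def skp (a : S → TAct S Γ) (e : S → Option S) (s : S) : TAct S Γ :=
  match a s with
  | .push s' y =>
    match e s' with
    | some s'' => .stay (nxt a s'' (some y))
    | none => .push s' y
  | x => x

/-- The machine `a` with a flag; if `st` is true then the flag is set, and the machine stops, when
`a` pops with the empty stack. -/
def dact (st : Bool) (a : S → TAct S Γ) (s : Bool × S) : TAct (Bool × S) Γ :=
  if s.1 = true then .stay s
  else match a s.2 with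
  | .stay s' => .stay (false, s')
  | .push s' y => .push (false, s') y
  | .pop k => .pop (fun z => if (st && z.isNone) = true then (true, s.2) else (false, k z))

/-- The end of an excursion, found by the timed machine. -/
def eT (a : S → TAct S Γ) (P₀ N : ℕ) (s : S) : Option S :=
  if (trun (tact (dact true a) P₀) ((none, (false, s)), []) N).1.2.1 = true then
    some (trun (tact (dact true a) P₀) ((none, (false, s)), []) N).1.2.2
  else none

/-- One step of the simulation with a stack of at most `W` symbols; flags: stopped, successful. -/
def bst (a : S → TAct S Γ) (W : ℕ) (q : Bool × Bool × S × Pend Γ W) :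
    Bool × Bool × S × Pend Γ W :=
  if q.1 = true then q
  else match a q.2.2.1 with
  | .stay s' => (false, false, s', q.2.2.2)
  | .push s' y =>
    if h : (y :: q.2.2.2.1).length ≤ W then (false, false, s', ⟨y :: q.2.2.2.1, h⟩)
    else (true, false, q.2.2.1, q.2.2.2)
  | .pop k =>
    match q.2.2.2 with
    | ⟨[], _⟩ => (true, true, q.2.2.1, ⟨[], Nat.zero_le _⟩)
    | ⟨y :: ys, h⟩ => (false, false, k (some y), ⟨ys, by
      simp only [List.length_cons] at h
      omega⟩)

/-- The state after `K` steps of this simulation. -/
def brn (a : S → TAct S Γ) (W K : ℕ) (s : S) : Bool × Bool × S × Pend Γ W :=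
  (bst a W)^[K] (false, false, s, ⟨[], Nat.zero_le _⟩)

/-- The end of an excursion, found with a stack of at most `W` symbols. -/
def e0 (a : S → TAct S Γ) (W K : ℕ) (s : S) : Option S :=
  if (brn a W K s).2.1 = true then some (brn a W K s).2.2.1 else none

/-- The machine which skips excursions of rank `j`. -/
def lev (ua : S → TAct S Γ) (W K P₀ N : ℕ) : ℕ → S → TAct S Γ
  | 0 => skp ua (e0 ua W K)
  | j + 1 => skp (lev ua W K P₀ N j) (eT (lev ua W K P₀ N j) P₀ N)

/-- The machine pops in the control `s`. -/
def IsPop (a : S → TAct S Γ) (s : S) : Prop := (a s).kind = some false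

/-- No pop with the empty stack before the time `n`. -/
def NoPE (a : S → TAct S Γ) (s : S) (n : ℕ) : Prop :=
  ∀ i < n, ¬ ((urun a (s, []) i).2 = [] ∧ IsPop a (urun a (s, []) i).1)

/-- The first pop with the empty stack is at the time `T`. -/
def Compl (a : S → TAct S Γ) (s : S) (T : ℕ) : Prop :=
  NoPE a s T ∧ (urun a (s, []) T).2 = [] ∧ IsPop a (urun a (s, []) T).1

/-- What `e` knows is right. -/
def SndE (a : S → TAct S Γ) (e : S → Option S) : Prop :=
  ∀ s s'', e s = some s'' → ∃ T, Compl a s T ∧ (urun a (s, []) T).1 = s''

/-- The machine `a` makes the steps of `ua` or skips excursions. -/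
def SkipM (ua a : S → TAct S Γ) : Prop :=
  ∀ s, a s = ua s ∨ ∃ s' y T, ua s = .push s' y ∧ Compl ua s' T ∧
    a s = .stay (nxt ua (urun ua (s', []) T).1 (some y))

/-- The length of the stack. -/
def len (ua : S → TAct S Γ) (s : S) (i : ℕ) : ℕ := (urun ua (s, []) i).2.length

/-- The machine `a` skips all excursions of rank `j`. -/
def SkC (ua a : S → TAct S Γ) (h t j : ℕ) : Prop :=
  ∀ s s' y T, ua s = .push s' y → Compl ua s' T → Exc (len ua s') h t j 0 T →
    ∃ s₁, a s = .stay s₁

end Pool.Agent.Helper17.TX
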