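import Pool.Agent.Helper17.TX.Ref
import Pool.Agent.Helper17.TX.Sem

set_option autoImplicit false

/-!
Nested turns: a marker at the bottom of the stack, so that the machine `uact` never pops with the
empty stack.
-/

namespace Pool.Agent.Helper17.TX

open Pool.Agent.Helper17.SL Pool.Agent.Helper17.TU Pool.Agent.Helper17.TV

variable {α Q Γ : Type} {k : ℕ}

/-- The automaton which first writes the marker `none`, and then works as `δ` above it. -/
def botT (δ : PDTrans α Q Γ k) (q₀ : Q) : PDTrans α (Option Q) (Option Γ) k :=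
  fun q v X =>
  match q with
  | none => (some q₀, fun _ => 1, [none])
  | some q => (some (δ q v X.join).1, (δ q v X.join).2.1,
      (δ q v X.join).2.2.map some ++ (if X.join.isNone = true then [none] else []))

/-- The accepting states. -/
def botF (F : Q → Bool) (q : Option Q) : Bool := q.elim false F

/-- Piece NT-10. -/
theorem bot_len (δ : PDTrans α Q Γ k) (q₀ : Q) {R : ℕ}
    (hR : ∀ q v X, (δ q v X).2.2.length ≤ R) (q : Option Q) (v : Fin k → Bool × Option α)
    (X : Option (Option Γ)) : (botT δ q₀ q v X).2.2.length ≤ R + 1 := by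
  cases q with
  | none => simp [botT]
  | some q =>
    have h := hR q v X.join
    simp only [botT, List.length_append, List.length_map]
    split_ifs
    · simpa using h
    · simp only [List.length_nil]
      omega

private theorem ntN10_step (δ : PDTrans α Q Γ k) (q₀ : Q) (w : List α) (q : Q)
    (pos : Fin k → ℕ) (st : List Γ) :
    pdStep (botT δ q₀) w (some q, pos, st.map some ++ [none]) =
      (some (pdStep δ w (q, pos, st)).1, (pdStep δ w (q, pos, st)).2.1,
        (pdStep δ w (q, pos, st)).2.2.map some ++ [none]) := by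
  cases st with
  | nil => simp [pdStep, botT]
  | cons x st => simp [pdStep, botT]

/-- Piece NT-10. The marker stays at the bottom. -/
theorem bot_run (δ : PDTrans α Q Γ k) (q₀ : Q) (w : List α) (m : ℕ) :
    prun (botT δ q₀) none w (m + 1) =
      (some (prun δ q₀ w m).1, (prun δ q₀ w m).2.1,
        (prun δ q₀ w m).2.2.map some ++ [none]) := by
  induction m with
  | zero => simp [prun, pdStep, botT]
  | succ m ih =>
    have e1 : prun (botT δ q₀) none w (m + 1 + 1) =
        pdStep (botT δ q₀) w (prun (botT δ q₀) none w (m + 1)) := by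
      unfold prun
      rw [Function.iterate_succ_apply' _ (m + 1)]
    have e2 : prun δ q₀ w (m + 1) = pdStep δ w (prun δ q₀ w m) := by
      unfold prun
      rw [Function.iterate_succ_apply']
    rw [e1, ih, e2]
    exact ntN10_step δ q₀ w _ _ _

/-- when the machine pops -/
private theorem ntN10_pop {n R : ℕ} (δ : PDTrans α Q Γ k) (F : Q → Bool) (w : List α)
    (s : UCtl Q Γ k n R) (h : (uact δ F w s).kind = some false) :
    s.2.2.1.1 = [] ∧ F s.1 ≠ true ∧ (uread δ w s).2.2 = [] ∧ s.2.2.2.isSome = true := by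
  obtain ⟨q, pos, ⟨l, hl⟩, X⟩ := s
  cases l with
  | nil =>
    by_cases hF : F q = true
    · exfalso
      simp only [uact, if_pos hF] at h
      simp [TAct.kind] at h
    · refine ⟨rfl, hF, ?_⟩
      by_contra hc
      simp only [uact, if_neg hF] at h
      rw [if_neg ?_] at h
      · simp [TAct.kind] at h
      · rintro ⟨h1, h2⟩
        exact hc ⟨List.isEmpty_iff.1 h1, h2⟩
  | cons y ys =>
    exfalso
    simp [uact, TAct.kind] at h

private theorem ntN10_block (δ : PDTrans α Q Γ k) (q₀ : Q) (F : Q → Bool) (w : List α) {n R : ℕ}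
    (hn : w.length = n) (hR : ∀ q v X, (δ q v X).2.2.length ≤ R) (m i : ℕ)
    (hF : ∀ m' < m + 1, botF F (prun (botT δ q₀) none w m').1 ≠ true)
    (h1 : usig (botT δ q₀) none w m ≤ i) (h2 : i < usig (botT δ q₀) none w (m + 1)) :
    ¬ ((urun (uact (n := n) (R := R + 1) (botT δ q₀) (botF F) w)
          (uinit (Option Γ) k n (R + 1) none, []) i).2 = [] ∧
        IsPop (uact (n := n) (R := R + 1) (botT δ q₀) (botF F) w)
          (urun (uact (n := n) (R := R + 1) (botT δ q₀) (botF F) w)
          (uinit (Option Γ) k n (R + 1) none, []) i).1) := by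
  rintro ⟨h3, h4⟩
  obtain ⟨p1, p2, p3, p4⟩ := ntN10_pop (botT δ q₀) (botF F) w _ h4
  rcases Nat.eq_or_lt_of_le h1 with h5 | h5
  · have h6 := urun_usig (R := R + 1) (botT δ q₀) none (botF F) w hn (bot_len δ q₀ hR) m
      (fun m' hm' => hF m' (by omega))
    rw [h5] at h6
    rw [h6] at h3 p3 p4
    cases m with
    | zero =>
      simp [prun] at p4
    | succ m =>
      simp only [uread] at p3
      simp only [bot_run] at h3 p3 p4
      cases hst : (prun δ q₀ w m).2.2 with
      | nil =>
        rw [hst] at p3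
        simp [botT] at p3
      | cons x st =>
        rw [hst] at h3
        simp at h3
  · exact (urun_mid (R := R + 1) (botT δ q₀) none (botF F) w hn (bot_len δ q₀ hR) m hF i h5
      h2).2.1 p1

/-- Piece NT-10. `urun_usig`, `urun_mid` (pending words are nonempty strictly between `usig m` and
`usig (m + 1)`), `bot_run`; after the first time with a state of `F` the run is constant. -/
theorem bot_nope (δ : PDTrans α Q Γ k) (q₀ : Q) (F : Q → Bool) (w : List α) {n R : ℕ}
    (hn : w.length = n) (hR : ∀ q v X, (δ q v X).2.2.length ≤ R) (N : ℕ) :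
    NoPE (uact (n := n) (R := R + 1) (botT δ q₀) (botF F) w)
      (uinit (Option Γ) k n (R + 1) none) N := by
  intro i _
  by_cases hex : ∃ m, botF F (prun (botT δ q₀) none w m).1 = true
  · obtain ⟨T, hT, hT'⟩ : ∃ T, botF F (prun (botT δ q₀) none w T).1 = true ∧
        ∀ m < T, botF F (prun (botT δ q₀) none w m).1 ≠ true := by
      classical
      exact ⟨Nat.find hex, Nat.find_spec hex, fun m hm => Nat.find_min hex hm⟩
    rcases Nat.lt_or_ge i (usig (botT δ q₀) none w T) with h1 | h1
    · obtain ⟨m, -, h3, h4, h5⟩ := trn9_find (botT δ q₀) none w 0 T i (by rw [usig]; omega) h1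
      exact ntN10_block δ q₀ F w hn hR m i (fun m' hm' => hT' m' (by omega)) h4 h5
    · have hJ1 : (urun (uact (n := n) (R := R + 1) (botT δ q₀) (botF F) w)
          (uinit (Option Γ) k n (R + 1) none, [])
          (usig (botT δ q₀) none w T)).1.2.2.1.1 = [] := by
        rw [urun_usig (botT δ q₀) none (botF F) w hn (bot_len δ q₀ hR) T hT']
      have hJ2 : botF F (urun (uact (n := n) (R := R + 1) (botT δ q₀) (botF F) w)
          (uinit (Option Γ) k n (R + 1) none, [])
          (usig (botT δ q₀) none w T)).1.1 = true := by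
        rw [urun_usig (botT δ q₀) none (botF F) w hn (bot_len δ q₀ hR) T hT']
        exact hT
      have hcst : ∀ i, urun (uact (n := n) (R := R + 1) (botT δ q₀) (botF F) w)
          (uinit (Option Γ) k n (R + 1) none, []) (usig (botT δ q₀) none w T + i) =
          urun (uact (n := n) (R := R + 1) (botT δ q₀) (botF F) w)
          (uinit (Option Γ) k n (R + 1) none, []) (usig (botT δ q₀) none w T) := by
        intro i
        induction i with
        | zero => rfl
        | succ i ih =>
          rw [← add_assoc, urun, ih, trn9_stay (botT δ q₀) (botF F) w _ hJ2 hJ1]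
          rfl
      obtain ⟨e, rfl⟩ := Nat.exists_eq_add_of_le h1
      rw [hcst]
      rintro ⟨-, h4⟩
      exact (ntN10_pop (botT δ q₀) (botF F) w _ h4).2.1 hJ2
  · obtain ⟨m, h1, h2⟩ := trn10_usig (botT δ q₀) none w i
    exact ntN10_block δ q₀ F w hn hR m i (fun m' _ h => hex ⟨m', h⟩) h1 h2

private theorem ntN10_len (δ : PDTrans α Q Γ k) (q₀ : Q) (F : Q → Bool) (w : List α) {n R : ℕ}
    (hn : w.length = n) (hR : ∀ q v X, (δ q v X).2.2.length ≤ R) (m : ℕ)
    (hF : ∀ m' < m + 1, F (prun δ q₀ w m').1 ≠ true) :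
    ∃ l : ℕ, usig δ q₀ w (m + 1) = usig δ q₀ w m + 1 + (l - 1) ∧
      ∀ i ≤ l - 1, (urun (uact (n := n) (R := R) δ F w) (uinit Γ k n R q₀, [])
        (usig δ q₀ w m + 1 + i)).2.length =
        i + (if l = 0 then (prun δ q₀ w m).2.2.length - 1 - 1
          else (prun δ q₀ w m).2.2.length - 1) := by
  classical
  have h0 := urun_usig (n := n) δ q₀ F w hn hR m (fun m' hm' => hF m' (by omega))
  obtain ⟨r, hr⟩ : ∃ r, r = δ (prun δ q₀ w m).1 (fun j => (decide ((prun δ q₀ w m).2.1 j = 0),
      w[(prun δ q₀ w m).2.1 j - 1]?)) (prun δ q₀ w m).2.2.head? := ⟨_, rfl⟩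
  have h4 : usig δ q₀ w (m + 1) = usig δ q₀ w m + 1 + (r.2.2.length - 1) := by
    rw [usig, hr]
  refine ⟨r.2.2.length, h4, ?_⟩
  intro i hi
  have h5 := trn7_phase δ q₀ F w hn hR m (hF m (by omega)) h0 r hr i hi
  rw [h5]
  change (((r.2.2.tail.reverse).take i).reverse ++ (if r.2.2 = [] then
    (prun δ q₀ w m).2.2.tail.tail else (prun δ q₀ w m).2.2.tail)).length =
    i + (if r.2.2.length = 0 then (prun δ q₀ w m).2.2.length - 1 - 1
      else (prun δ q₀ w m).2.2.length - 1)
  rw [List.length_append, List.length_reverse, List.length_take, List.length_reverse,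
    List.length_tail, Nat.min_eq_left hi]
  by_cases hne : r.2.2 = []
  · rw [if_pos hne, if_pos (by rw [hne]; rfl), List.length_tail, List.length_tail]
  · rw [if_neg hne, if_neg (by rwa [List.length_eq_zero_iff]), List.length_tail]

private theorem ntN10_botF (δ : PDTrans α Q Γ k) (q₀ : Q) (F : Q → Bool) (w : List α) (T : ℕ)
    (h : ∀ m < T, F (prun δ q₀ w m).1 ≠ true) (m : ℕ) (hm : m < T + 1) :
    botF F (prun (botT δ q₀) none w m).1 ≠ true := by
  cases m with
  | zero => simp [prun, botF]
  | succ m =>
    rw [bot_run]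
    exact h m (by omega)

/-- Piece NT-10. Let `T₀` be the time of `AcceptsNested`, `ρ m = usig (m + 1)` (for `botT δ q₀`),
`T = ρ T₀`; `len` at the time `ρ m` is `height δ q₀ w m` and `len` is monotone with unit steps on
`[ρ m, ρ (m + 1)]`; use `few_refine` and `few_const` (`len` is `0` at the times `0`, `1`). -/
theorem bot_few (δ : PDTrans α Q Γ k) (q₀ : Q) (F : Q → Bool) (w : List α) {n R : ℕ}
    (hn : w.length = n) (hR : ∀ q v X, (δ q v X).2.2.length ≤ R) {r h t : ℕ} (ht : 1 ≤ t)
    (hA : AcceptsNested δ q₀ {q | F q = true} r h t w) :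
    ∃ T, (botF F (urun (uact (n := n) (R := R + 1) (botT δ q₀) (botF F) w)
          (uinit (Option Γ) k n (R + 1) none, []) T).1.1 = true ∧
        (urun (uact (n := n) (R := R + 1) (botT δ q₀) (botF F) w)
          (uinit (Option Γ) k n (R + 1) none, []) T).1.2.2.1.1 = []) ∧
      (∀ i < T, ¬ (botF F (urun (uact (n := n) (R := R + 1) (botT δ q₀) (botF F) w)
          (uinit (Option Γ) k n (R + 1) none, []) i).1.1 = true ∧
        (urun (uact (n := n) (R := R + 1) (botT δ q₀) (botF F) w)
          (uinit (Option Γ) k n (R + 1) none, []) i).1.2.2.1.1 = [])) ∧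
      Few (len (uact (n := n) (R := R + 1) (botT δ q₀) (botF F) w)
          (uinit (Option Γ) k n (R + 1) none))
        (Exc (len (uact (n := n) (R := R + 1) (botT δ q₀) (botF F) w)
          (uinit (Option Γ) k n (R + 1) none)) h t r) t 0 T := by
  obtain ⟨T, hT, hT', L, σ, hL, hFew⟩ := hA
  have hF0 : ∀ m < T, F (prun δ q₀ w m).1 ≠ true := fun m hm h => hT' m hm h
  have hFT : F (prun δ q₀ w T).1 = true := hT
  have hF1 := ntN10_botF δ q₀ F w T hF0
  have hbl := bot_len δ q₀ hR
  have hu := fun (m : ℕ) (hm : m ≤ T + 1) => urun_usig (n := n) (R := R + 1) (botT δ q₀) none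
    (botF F) w hn hbl m (fun m' hm' => hF1 m' (by omega))
  have hlen : ∀ m ≤ T, len (uact (n := n) (R := R + 1) (botT δ q₀) (botF F) w)
      (uinit (Option Γ) k n (R + 1) none) (usig (botT δ q₀) none w (m + 1)) =
      height δ q₀ w m := by
    intro m hm
    unfold len
    rw [hu (m + 1) (by omega)]
    simp only [bot_run]
    rw [List.length_tail, List.length_append, List.length_map, List.length_singleton]
    rfl
  refine ⟨usig (botT δ q₀) none w (T + 1), ⟨?_, ?_⟩, ?_, ?_⟩
  · rw [hu (T + 1) le_rfl]
    simp only [bot_run]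
    exact hFT
  · rw [hu (T + 1) le_rfl]
  · rintro i hi ⟨h1, h2⟩
    obtain ⟨m, -, h3, h4, h5⟩ := trn9_find (botT δ q₀) none w 0 (T + 1) i (by rw [usig]; omega) hi
    rcases Nat.eq_or_lt_of_le h4 with h6 | h6
    · rw [← h6, hu m (by omega)] at h1
      exact hF1 m h3 h1
    · exact (urun_mid (botT δ q₀) none (botF F) w hn hbl m (fun m' hm' => hF1 m' (by omega)) i
        h6 h5).2.1 h2
  · have hmono := trn9_mono (botT δ q₀) none w
    have h1 := few_refine (height δ q₀ w) L
      (len (uact (n := n) (R := R + 1) (botT δ q₀) (botF F) w)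
        (uinit (Option Γ) k n (R + 1) none)) σ (fun m => usig (botT δ q₀) none w (m + 1)) T h t t r
      hL (fun a b hab => hmono (by omega)) hlen ?_ hFew ht
    · refine few_const _ _ t (usig (botT δ q₀) none w (0 + 1)) 0 _ h1 (Nat.zero_le _) ?_ ht
      intro m _ hm
      have h2 : usig (botT δ q₀) none w (0 + 1) = 1 := by
        simp [usig, prun, botT]
      have h3 : m = 0 := by omega
      subst h3
      have h4 := hlen 0 (Nat.zero_le _)
      rw [h2] at h4
      rw [h4]
      simp [len, urun, height]
    · intro m hm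
      obtain ⟨l, hl1, hl2⟩ := ntN10_len (n := n) (R := R + 1) (botT δ q₀) none (botF F) w hn hbl
        (m + 1) (fun m' hm' => hF1 m' (by omega))
      have e1 := hlen m (by omega)
      have e2 : (prun (botT δ q₀) none w (m + 1)).2.2.length = height δ q₀ w m + 1 := by
        rw [bot_run, List.length_append, List.length_map, List.length_singleton]
        rfl
      rw [e2] at hl2
      have key : ∀ i, usig (botT δ q₀) none w (m + 1) + 1 ≤ i →
          i ≤ usig (botT δ q₀) none w (m + 1 + 1) →
          len (uact (n := n) (R := R + 1) (botT δ q₀) (botF F) w)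
            (uinit (Option Γ) k n (R + 1) none) i =
          (i - (usig (botT δ q₀) none w (m + 1) + 1)) +
            (if l = 0 then height δ q₀ w m + 1 - 1 - 1 else height δ q₀ w m + 1 - 1) := by
        intro i h3 h4
        obtain ⟨e, rfl⟩ : ∃ e, i = usig (botT δ q₀) none w (m + 1) + 1 + e :=
          ⟨i - (usig (botT δ q₀) none w (m + 1) + 1), by omega⟩
        unfold len
        rw [hl2 e (by omega)]
        congr 1
        omega
      by_cases hl : l = 0
      · right
        intro i h3 h4
        have h5 : i = usig (botT δ q₀) none w (m + 1) := by omega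
        subst h5
        rw [e1, key _ le_rfl (by omega), if_pos hl]
        omega
      · left
        intro i h3 h4
        rcases Nat.eq_or_lt_of_le h3 with h5 | h5
        · subst h5
          rw [e1, key _ le_rfl (by omega), if_neg hl]
          omega
        · rw [key i h5 (by omega), key (i + 1) (by omega) (by omega), if_neg hl]
          omega

/-- Piece NT-10. Compare `deep_sound` in `TV/Deep.lean`. -/
theorem bot_sound (δ : PDTrans α Q Γ k) (q₀ : Q) (F : Q → Bool) (w : List α) {n R : ℕ}
    (hn : w.length = n) (hR : ∀ q v X, (δ q v X).2.2.length ≤ R) (j : ℕ)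
    (hj : botF F (urun (uact (n := n) (R := R + 1) (botT δ q₀) (botF F) w)
      (uinit (Option Γ) k n (R + 1) none, []) j).1.1 = true) :
    ∃ T, AcceptsIn δ q₀ {q | F q = true} T w := by
  by_contra hno
  have hF0 : ∀ m, F (prun δ q₀ w m).1 ≠ true := by
    intro m hm
    exact hno ⟨m, m, le_rfl, hm⟩
  have hF : ∀ m, botF F (prun (botT δ q₀) none w m).1 ≠ true := fun m =>
    ntN10_botF δ q₀ F w m (fun m' _ => hF0 m') m (by omega)
  obtain ⟨m, h1, h2⟩ := trn10_usig (botT δ q₀) none w j
  rcases Nat.eq_or_lt_of_le h1 with h3 | h3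
  · have h4 := urun_usig (R := R + 1) (botT δ q₀) none (botF F) w hn (bot_len δ q₀ hR) m
      (fun m' _ => hF m')
    rw [h3] at h4
    rw [h4] at hj
    exact hF m hj
  · obtain ⟨-, -, -, m', hm'⟩ := urun_mid (R := R + 1) (botT δ q₀) none (botF F) w hn
      (bot_len δ q₀ hR) m (fun m' _ => hF m') j h3 h2
    rw [hm'] at hj
    exact hF m' hj

end Pool.Agent.Helper17.TX
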