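import Pool.Agent.Helper17.TV.BNumFL
import Pool.Agent.Helper17.TV.BNumEq
import Pool.Agent.Helper17.TX.Sem

set_option autoImplicit false

/-!
Nested turns: numeric forms of the machines `skp a e` and `dact st a`.
-/

namespace Pool.Agent.Helper17.TX

open Pool.Agent.Helper17.SL Pool.Agent.Helper17.UL Pool.Agent.Helper17.TU Pool.Agent.Helper17.TV
  Pool.Agent.Helper6

/-- Time, height and direction are replaced by `0`. -/
def rz {c : ℕ} (x : Fin (c + 2) → ℕ) (i : Fin (c + 2)) : ℕ := if 3 ≤ (i : ℕ) then x i else 0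

section defs

variable {c : ℕ} (adv : (Fin (c + 2) → ℕ) → ℕ → Fin (c + 2) → ℕ)
  (psh : (Fin (c + 2) → ℕ) → ℕ) (dpop : (Fin (c + 2) → ℕ) → Prop)
  (ef : (Fin (c + 2) → ℕ) → ℕ) (ev : (Fin (c + 2) → ℕ) → Fin (c + 2) → ℕ)

open Classical in
/-- The new value for `skp a e`. -/
noncomputable def sadv (x : Fin (c + 2) → ℕ) (y : ℕ) (i : Fin (c + 2)) : ℕ :=
  if psh x ≠ 0 ∧ ef (rz (adv x 0)) = 1 then adv (rz (ev (rz (adv x 0)))) (psh x) i
  else adv x y i

open Classical in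
/-- Code of the symbol pushed by `skp a e`. -/
noncomputable def spsh (x : Fin (c + 2) → ℕ) : ℕ :=
  if psh x ≠ 0 ∧ ef (rz (adv x 0)) = 1 then 0 else psh x

open Classical in
/-- The new value for `dact st a`; the flag is the last component. -/
noncomputable def dadv (st : Bool) (x : Fin (c + 1 + 2) → ℕ) (y : ℕ) (i : Fin (c + 1 + 2)) : ℕ :=
  if x bx ≠ 0 then x i
  else if h : (i : ℕ) = c + 2 then (if st = true ∧ dpop (rs x) ∧ y = 0 then 1 else 0)
  else if st = true ∧ dpop (rs x) ∧ y = 0 then x i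
  else adv (rs x) y ⟨i, by omega⟩

/-- Code of the symbol pushed by `dact st a`. -/
def dpsh (x : Fin (c + 1 + 2) → ℕ) : ℕ := if x bx ≠ 0 then 0 else psh (rs x)

/-- Does `dact st a` pop? -/
def ddpop (x : Fin (c + 1 + 2) → ℕ) : Prop := x bx = 0 ∧ dpop (rs x)

/-- Code of a control with a flag. -/
def kD {S : Type} (kS : S → Fin (c + 2) → ℕ) (s : Bool × S) (i : Fin (c + 1 + 2)) : ℕ :=
  if h : (i : ℕ) = c + 2 then (if s.1 = true then 1 else 0) else kS s.2 ⟨i, by omega⟩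

/-- `ef`, `ev` are a numeric form of `e`. -/
structure EOK {S : Type} (e : S → Option S) (kS : S → Fin (c + 2) → ℕ)
    (ef : (Fin (c + 2) → ℕ) → ℕ) (ev : (Fin (c + 2) → ℕ) → Fin (c + 2) → ℕ) : Prop where
  no : ∀ s, e s = none → ef (kS s) ≠ 1
  yes : ∀ s s'', e s = some s'' → ef (kS s) = 1 ∧
    ∀ i : Fin (c + 2), 3 ≤ (i : ℕ) → ev (kS s) i = kS s'' i

/-- Values below `B` are mapped to values below `B`. -/
structure NumBd (B : ℕ) (adv : (Fin (c + 2) → ℕ) → ℕ → Fin (c + 2) → ℕ)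
    (psh : (Fin (c + 2) → ℕ) → ℕ) : Prop where
  a : ∀ x y, (∀ i, x i < B) → y < B → ∀ i, adv x y i < B
  p : ∀ x, (∀ i, x i < B) → psh x < B

end defs

/-- The numeric form is computable by automata. -/
structure NumFL (β : Type) {c : ℕ} (adv : List β → (Fin (c + 2) → ℕ) → ℕ → Fin (c + 2) → ℕ)
    (psh : List β → (Fin (c + 2) → ℕ) → ℕ) (dpop : List β → (Fin (c + 2) → ℕ) → Prop) :
    Prop where
  a : ∀ i, FL β (Fin (c + 2) ⊕ Unit) (fun w z => adv w (z ∘ Sum.inl) (z (Sum.inr ())) i)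
  p : FL β (Fin (c + 2)) (fun w x => psh w x)
  d : IsL β (Fin (c + 2)) (fun w x => dpop w x)

end Pool.Agent.Helper17.TX
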