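import Pool.Agent.Helper17.TX.EvV
import Pool.Agent.Helper17.TX.NumDef
import Pool.Agent.Helper17.TV.Core2

set_option autoImplicit false

/-!
Nested turns: the value of a timed machine at the time `2 ^ (κ y) * qM y ^ E` is computable by
automata from the initial value.
-/

namespace Pool.Agent.Helper17.TX

open Pool.Agent.Helper17.SL Pool.Agent.Helper17.UL Pool.Agent.Helper17.TU Pool.Agent.Helper17.TV
  Pool.Agent.Helper6

/-- Piece NT-16. Follow `TV.core2` (with `PhiT_FL`, `uniform_evalV` with the start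
`mkN 1 (eF w) 0 0 0 x x`, `phiG_kv`, `phiG_lt`, `phiG_FL` of `TV/Gen.lean`) and `TV.answerB`
(`phiB_final`, `PhiT_val`, `decI_encI`); here `phi0W w = phiG (adv w) (psh w) (dpop w) ..`
directly, and `out w x i` is the decoded component `RI.x i` of the value of the scheme. -/
theorem core3 {β : Type} {c κ K : ℕ} (hκ0 : 0 < κ) (hK : K = Fintype.card (CI c))
    {yF eF : List β → ℕ} {Good : List β → Prop} (hGE : GoodE κ K yF eF Good)
    {adv : List β → (Fin (c + 2) → ℕ) → ℕ → Fin (c + 2) → ℕ}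
    {psh : List β → (Fin (c + 2) → ℕ) → ℕ} {dpop : List β → (Fin (c + 2) → ℕ) → Prop}
    (h : NumFL β adv psh dpop) :
    ∃ out : List β → (Fin (c + 2) → ℕ) → Fin (c + 2) → ℕ,
      (∀ i, FL β (Fin (c + 2)) (fun w x => out w x i)) ∧
      (∀ w, Good w → ∀ x i, out w x i < qB κ (yF w)) ∧
      ∀ w, Good w → ∀ (S Γ : Type) [Fintype Γ] (stp : TStp S Γ)
        (kv : TV (2 ^ (κ * yF w) * qM (yF w) ^ eF w) S → Fin (c + 2) → ℕ),
        (∀ v, kv v 0 = (v.1 : ℕ)) → (∀ v, kv v 1 = (v.2.1 : ℕ)) →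
        (∀ v y, kv (vadv stp v y) = adv w (kv v) (oc y)) →
        (∀ v, psh w (kv v) = oc (vpush stp v)) →
        (∀ v, dpop w (kv v) ↔ vpop stp v = true) →
        NumBd (qB κ (yF w)) (adv w) (psh w) → (∀ v i, kv v i < qB κ (yF w)) →
        (∀ s, Uni stp (s, []) (2 ^ (κ * yF w))) →
        ∀ s i, out w (kv (tval _ 0 ((s, []) : S × List Γ))) i =
          kv (tval _ (2 ^ (κ * yF w) * qM (yF w) ^ eF w)
            (trun stp (s, []) (2 ^ (κ * yF w) * qM (yF w) ^ eF w))) i := by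
  classical
  have hK0 : 0 < K := by
    rw [hK]
    haveI : Nonempty (CI c) := ⟨CI.ph⟩
    exact Fintype.card_pos
  obtain ⟨⟨gM, fM, eM⟩, ⟨gm, fm, em⟩, ⟨gbb, fbb, ebb⟩, ⟨gd, fd, ed⟩, ⟨gq, fq, eq'⟩,
    ⟨gf, ff, ef⟩, ⟨gr, fr, er⟩, ⟨gt, ft, et⟩, ⟨gn, fn, en⟩, ⟨gB, fB, eB⟩, ⟨gP, fP, eP⟩,
    ⟨gC, fC, eC⟩, -⟩ := flg_params' hκ0 hK0 hGE
  obtain ⟨gE, fE, eE'⟩ := id hGE.eF
  -- the scheme
  let p : List β → Prm := fun w => ⟨gB w, gbb w, gM w, gm w, gt w⟩
  have hp : PrmFL β p := ⟨fB, fbb, fM, fm, ft⟩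
  let phi0W : List β → (Fin (c + 2) → ℕ) → (Fin (c + 2) → ℕ) → RI c → ℕ := fun w g x q =>
    phiG (adv w) (psh w) (dpop w) (gP w) (w.length + 1) (gC w) g x q
  have hphiFL : ∀ q : RI c, FL β (Fin (c + 2) ⊕ Fin (c + 2))
      (fun w z => phi0W w (z ∘ Sum.inl) (z ∘ Sum.inr) q) := fun q =>
    phiG_FL h.a h.p h.d fP fC q
  obtain ⟨Sc, hSc, hagree⟩ := PhiT_FL p hp gP fP phi0W hphiFL
  have ha0 : ∀ v : NI c, FL β (Fin (c + 2)) (fun w x => mkN 1 (gE w) 0 0 0 x x v) := by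
    intro v
    cases v with
    | tag => exact FL.one
    | d => exact FL.ofEmpty fE
    | i => exact FL.zero
    | l => exact FL.zero
    | s => exact FL.zero
    | g j => exact FL.proj j
    | x j => exact FL.proj j
  obtain ⟨oute, hout, heval⟩ := uniform_evalV Sc hSc fd fq ff fr fn ha0
  refine ⟨fun w x i => oute w x / min (gB w ^ (min (pos (RI.x i : RI c)) (w.length + 1)))
    (w.length + 1) % gB w, fun i => ?_, fun w hw x i => ?_, ?_⟩
  · exact (hout.div ((FL.ofEmpty fB).pow (FL.const _))).mod (FL.ofEmpty fB)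
  · show _ % gB w < _
    rw [eB w hw]
    exact Nat.mod_lt _ (by unfold qB; positivity)
  intro w hgood S Γ _ stp kv hkv0 hkv1 hadv hpsh hpop hbd hkvlt hUni s i
  have hy4 : 4 ≤ (yF w) := hGE.y4 w hgood
  have hcap : (eF w) ≤ qCap (yF w) := hGE.cap w hgood
  have hsz : ∀ s ∈ sizesE κ K (yF w) (eF w), s ≤ w.length := hGE.sz w hgood
  have hlenK := hGE.len w hgood
  obtain ⟨x1, x2, x3, x4, x5, x6, x7, x8, x9, x10, x11, x12, x13, x14⟩ :=
    prmE_exact κ K (yF w) (eF w) hκ0 hK0 hy4 hcap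
  have s1 : qr κ K (yF w) ^ qn κ K (yF w) (eF w) ≤ w.length := hsz _ (by simp [sizesE])
  have s2 : qf κ K (yF w) ^ qd κ K (yF w) ≤ w.length := hsz _ (by simp [sizesE])
  have s3 : qf κ K (yF w) ^ 2 ≤ w.length := hsz _ (by simp [sizesE])
  have s4 : qq (yF w) ^ (2 * qd κ K (yF w)) ≤ w.length := hsz _ (by simp [sizesE])
  have s5 : qB κ (yF w) + 2 ^ (κ * (yF w)) * qM (yF w) ^ ((eF w) + 1) ≤ w.length := hsz _ (by simp [sizesE])
  have s6 : 4 * qM (yF w) + 6 ≤ w.length := hsz _ (by simp [sizesE])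
  have s7 : qr κ K (yF w) ≤ w.length := hsz _ (by simp [sizesE])
  have hGM : gM w = qM (yF w) := eM w hgood
  have hGm : gm w = 4 * qM (yF w) + 6 := em w hgood
  have hGbb : gbb w = qZ (yF w) * qd κ K (yF w) := ebb w hgood
  have hGd : gd w = qd κ K (yF w) := ed w hgood
  have hGq : gq w = qq (yF w) := eq' w hgood
  have hGf : gf w = qf κ K (yF w) := ef w hgood
  have hGr : gr w = qr κ K (yF w) := er w hgood
  have hGt : gt w = qt κ K (yF w) := et w hgood
  have hGn : gn w = qn κ K (yF w) (eF w) := en w hgood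
  have hGB : gB w = qB κ (yF w) := eB w hgood
  have hGP : gP w = 2 ^ (κ * (yF w)) := eP w hgood
  have hGC : gC w = 2 ^ (κ * (yF w)) + 1 := eC w hgood
  have hGE' : gE w = (eF w) := eE' w hgood
  have hpw : p w = ⟨qB κ (yF w), qZ (yF w) * qd κ K (yF w), qM (yF w), 4 * qM (yF w) + 6, qt κ K (yF w)⟩ := by
    simp only [p, hGM, hGm, hGB, hGbb, hGt]
  have hP0 : 0 < 2 ^ (κ * (yF w)) := by positivity
  have hBlen : qB κ (yF w) ≤ w.length := (Nat.le_add_right _ _).trans s5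
  have hB2 : 2 < qB κ (yF w) := by omega
  have hbK : 2 ^ (qZ (yF w) * qd κ K (yF w)) = qB κ (yF w) ^ Fintype.card (CI c) := by
    rw [← hK]; exact x13
  have hmr : 4 * qM (yF w) + 6 ≤ qr κ K (yF w) := Nat.le_add_left _ _
  -- the function for blocks
  have hphilt : ∀ g x q, (∀ j, g j < qB κ (yF w)) → (∀ j, x j < qB κ (yF w)) →
      phi0W w g x q < qB κ (yF w) := fun g x q hg hx =>
    phiG_lt (adv := adv w) (psh := psh w) (dpop := dpop w) hbd.a hbd.p hB2 (gC w) g x hg hx q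
  have hphi0 : ∀ g x : TV (2 ^ (κ * (yF w)) * qM (yF w) ^ (eF w)) S,
      phi0W w (kv g) (kv x) = cRes kv (phiB stp (2 ^ (κ * (yF w))) g x) := by
    intro g x
    show phiG (adv w) (psh w) (dpop w) (gP w) (w.length + 1) (gC w) (kv g) (kv x) = _
    rw [hGC, hGP]
    exact phiG_kv (stp := stp) (kv := kv) hkv0 hkv1 hadv hpsh hpop (by omega) g x
  -- agreement
  have hag := hagree w (eF w) (qr κ K (yF w)) (by rw [hpw]; exact hB2) (by rw [hpw]; exact x1)
    (by rw [hpw]; exact Nat.succ_pos _) (by rw [hpw]; exact x6) (by rw [hpw]; exact hbK)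
    (fun g x q hg hx => by
      rw [hpw] at hg hx ⊢
      exact hphilt g x q hg hx)
    (by
      rw [hpw]
      show 2 ^ (2 * (qZ (yF w) * qd κ K (yF w))) ≤ w.length
      have : 2 ^ (2 * (qZ (yF w) * qd κ K (yF w))) = qq (yF w) ^ (2 * qd κ K (yF w)) := by
        unfold qq
        rw [← pow_mul]
        congr 1
        ring
      rw [this]
      exact s4)
    (by rw [hpw, hGP]; exact s5)
    (by
      rw [hpw]
      have : 4 * qM (yF w) + 4 ≤ w.length := by omega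
      exact this) s7
  have hok := PhiT_ok (p w) (gP w) (phi0W w) (D := (eF w)) (r := qr κ K (yF w))
    (by rw [hpw]; exact Nat.pos_of_ne_zero (by unfold qB; positivity))
    (by rw [hpw]; exact Nat.succ_pos _)
    (by rw [hpw]; exact hmr) (by rw [hpw]; exact x14)
  obtain ⟨c0, hc0⟩ : ∃ c0 : S × List Γ, c0 = (s, []) := ⟨_, rfl⟩
  obtain ⟨x0, hx0⟩ : ∃ x0, x0 = kv (tval _ 0 c0) := ⟨_, rfl⟩
  have hx0lt : ∀ j, x0 j < qB κ (yF w) := fun j => by rw [hx0]; exact hkvlt _ j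
  rw [← hc0, ← hx0]
  have hG : PhiG (p w) (eF w) (qr κ K (yF w)) (mkN 1 (eF w) 0 0 0 x0 x0) := by
    refine ⟨by norm_num [mkN], le_rfl, Nat.zero_le _, ?_, ?_, fun j => ?_⟩
    · simp only [mkN]; omega
    · simp only [mkN]; positivity
    · rw [hpw]
      exact ⟨hx0lt j, hx0lt j⟩
  have hdep : PhiDep (p w) (mkN 1 (eF w) 0 0 0 x0 x0) = (eF w) * (p w).Del := dep_mk1 _ _ _ _ _ _ _
  have hDel : (eF w) * (p w).Del + 1 = qn κ K (yF w) (eF w) := by rw [hpw]; rfl
  have hM2 : 2 ≤ qM (yF w) := Nat.le_add_left 2 _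
  have hEw : (eF w) ≤ w.length := by
    have h1 : (eF w) < 2 ^ (eF w) := Nat.lt_two_pow_self
    have h2 : 2 ^ (eF w) ≤ qM (yF w) ^ (eF w) := Nat.pow_le_pow_left hM2 (eF w)
    have h3 : qM (yF w) ^ (eF w) ≤ qM (yF w) ^ ((eF w) + 1) := Nat.pow_le_pow_right (by omega) (by omega)
    have h4 : qM (yF w) ^ ((eF w) + 1) ≤ 2 ^ (κ * (yF w)) * qM (yF w) ^ ((eF w) + 1) := Nat.le_mul_of_pos_left _ hP0
    omega
  have hev := heval w x0 (PhiG (p w) (eF w) (qr κ K (yF w))) (PhiDep (p w)) (qZ (yF w) * qd κ K (yF w))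
    (by rw [hGq, hGd]; exact x12)
    (by rw [hGr]; have := hag.ok hok; rwa [hpw] at this ⊢)
    (by
      rintro a ⟨h1, h2, h3, h4, h5, h6⟩ v
      rw [hpw] at h3 h5 h6
      simp only at h3 h5 h6
      have h7 : 2 ^ (qZ (yF w) * qd κ K (yF w)) ≤ w.length := by
        rw [x12]
        exact (Nat.pow_le_pow_right (by omega) (by omega)).trans s4
      cases v with
      | tag => omega
      | d => omega
      | i => omega
      | l => omega
      | s => omega
      | g j => have := (h6 j).1; omega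
      | x j => have := (h6 j).2; omega)
    (by rw [hGE']; exact hG)
    (by rw [hGE', hGn, hdep, hDel])
    (by rw [hGf]; exact x7) (by rw [hGq]; exact x9) (by rw [hGq, hGf]; exact x10)
    (by rw [hGd, hGq, hGf]; exact x8)
    (by rw [hGf, hGr]; exact Nat.le_add_right _ _)
    (by rw [hGr, hGn]; exact s1) (by rw [hGf, hGd]; exact s2) (by rw [hGf]; exact s3)
    (by rw [hGq, hGd]; exact s4)
  rw [hGE', hGn] at hev
  have hval := hag.val_eq hok (qn κ K (yF w) (eF w)) _ hG (by rw [hdep]; omega)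
  rw [hval] at hev
  -- the value of the scheme
  obtain ⟨u', hu'⟩ := phiB_final stp c0 (by rw [hc0]) (N := 2 ^ (κ * (yF w)) * qM (yF w) ^ (eF w)) hP0 x1 rfl
    (by rw [hc0]; exact hUni s)
  have hval2 := PhiT_val (c := c) kv ttm tht hkv0 hkv1 (p w) (gP w) (phi0W w) (D := (eF w))
    (r := qr κ K (yF w))
    (by rw [hpw]; exact hkvlt) (by rw [hpw]; exact hB2) (by rw [hpw]; exact x6) (by rw [hpw])
    (by rw [hpw]; exact hbK) (by rw [hpw]; exact hmr) (by rw [hpw]; exact x14)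
    (phiB stp (2 ^ (κ * (yF w)))) (fun g x _ => hphi0 g x) (eF w) le_rfl (qn κ K (yF w) (eF w)) (by omega)
    (tval _ 0 c0) (tval _ 0 c0)
  have hpM : (p w).M = qM (yF w) := by rw [hpw]
  have hpB : (p w).B = qB κ (yF w) := by rw [hpw]
  rw [hpM, hGP, hu', ← hx0, hpB] at hval2
  rw [hGP, hval2] at hev
  have hlt : ∀ q : RI c, cRes kv (Res.done (tval (2 ^ (κ * (yF w)) * qM (yF w) ^ (eF w))
      (2 ^ (κ * (yF w)) * qM (yF w) ^ (eF w)) (trun stp c0 (2 ^ (κ * (yF w)) * qM (yF w) ^ (eF w)))) u') q < qB κ (yF w) := by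
    intro q
    cases q with
    | tag => exact hB2
    | x i => exact hkvlt _ _
    | u i => exact hkvlt _ _
  have hdec := congrFun (decI_encI _ hlt) (RI.x i)
  have hps1 : min (pos (RI.x i : RI c)) (w.length + 1) = pos (RI.x i : RI c) := by
    apply min_eq_left
    have h1 : pos (RI.x i : RI c) ≤ K := by
      rw [hK]
      exact ((Fintype.equivFin _ _).isLt.le).trans card_RI_le
    omega
  have hps2 : min (qB κ (yF w) ^ pos (RI.x i : RI c)) (w.length + 1) =
      qB κ (yF w) ^ pos (RI.x i : RI c) := by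
    apply min_eq_left
    have h0 : pos (RI.x i : RI c) ≤ K := by
      rw [hK]
      exact ((Fintype.equivFin _ _).isLt.le).trans card_RI_le
    have h1 : qB κ (yF w) ^ pos (RI.x i : RI c) ≤ qB κ (yF w) ^ K :=
      Nat.pow_le_pow_right (by omega) h0
    have h7 : 2 ^ (qZ (yF w) * qd κ K (yF w)) ≤ w.length := by
      rw [x12]
      exact (Nat.pow_le_pow_right (by omega) (by omega)).trans s4
    rw [← x13] at h1
    omega
  show oute w x0 / min (gB w ^ (min (pos (RI.x i : RI c)) (w.length + 1))) (w.length + 1) %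
    gB w = _
  rw [hGB, hps1, hps2, hev]
  exact hdec

end Pool.Agent.Helper17.TX
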