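import Pool.Agent.Helper17.TX.Df

set_option autoImplicit false

/-!
Nested turns: few deep turns are few pieces which are monotone up to excursions of rank `0`.
-/

namespace Pool.Agent.Helper17.TX

open Pool.Agent.Helper17.SL Pool.Agent.Helper17.TV

/-- Piece NT-22. Each sequence has a refinement in unit steps (`σ (m + 1) = σ m + |H (m + 1) - H m|`,
induction on `T`). -/
theorem unit_refine (H : ℕ → ℕ) (T : ℕ) : ∃ L σ : ℕ → ℕ, Refines L H σ T ∧
    ∀ i < σ T, L (i + 1) ≤ L i + 1 ∧ L i ≤ L (i + 1) + 1 := by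
  induction T with
  | zero =>
    refine ⟨fun _ => H 0, fun _ => 0, ⟨fun _ _ _ => le_refl _, rfl, ?_, ?_⟩, ?_⟩
    · intro m hm
      rw [Nat.le_zero.1 hm]
    · intro m hm
      omega
    · intro i hi
      exact absurd hi (Nat.not_lt_zero i)
  | succ T ih =>
    obtain ⟨L, σ, ⟨hm, h0, hL, hs⟩, hu⟩ := ih
    have hLT := hL T le_rfl
    obtain ⟨d, hd⟩ : ∃ d, d = (H (T + 1) - H T) + (H T - H (T + 1)) := ⟨_, rfl⟩
    obtain ⟨L', hL'⟩ : ∃ L' : ℕ → ℕ, L' = fun i => if i ≤ σ T then L i else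
      (H T + min (i - σ T) (H (T + 1) - H T)) - min (i - σ T) (H T - H (T + 1)) := ⟨_, rfl⟩
    obtain ⟨σ', hσ'⟩ : ∃ σ' : ℕ → ℕ, σ' = fun m => if m ≤ T then σ m else σ T + d := ⟨_, rfl⟩
    have e1 : ∀ i, i ≤ σ T → L' i = L i := by
      intro i hi
      rw [hL']
      simp only [if_pos hi]
    have e2 : ∀ i, σ T ≤ i → L' i =
        (H T + min (i - σ T) (H (T + 1) - H T)) - min (i - σ T) (H T - H (T + 1)) := by
      intro i hi
      rcases Nat.eq_or_lt_of_le hi with h | h
      · rw [e1 i h.ge, ← h, hLT, Nat.sub_self]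
        simp
      · rw [hL']
        simp only [if_neg (not_le.2 h)]
    have e3 : ∀ m, m ≤ T → σ' m = σ m := by
      intro m hm'
      rw [hσ']
      simp only [if_pos hm']
    have e4 : σ' (T + 1) = σ T + d := by
      rw [hσ']
      simp only [if_neg (show ¬ T + 1 ≤ T by omega)]
    refine ⟨L', σ', ⟨?_, ?_, ?_, ?_⟩, ?_⟩
    · intro a b hab
      rw [hσ']
      by_cases hb : b ≤ T
      · simp only [if_pos hb, if_pos (hab.trans hb)]
        exact hm hab
      · by_cases ha : a ≤ T
        · simp only [if_neg hb, if_pos ha]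
          exact (hm ha).trans (Nat.le_add_right _ _)
        · simp only [if_neg hb, if_neg ha]
          exact le_refl _
    · rw [e3 0 (Nat.zero_le T), h0]
    · intro m hmT
      rcases Nat.lt_or_ge T m with h | h
      · have hmm : m = T + 1 := by omega
        rw [hmm, e4, e2 _ (Nat.le_add_right _ _)]
        omega
      · rw [e3 m h, e1 _ (hm h)]
        exact hL m h
    · intro m hmT
      rcases Nat.lt_or_ge m T with h | h
      · rw [e3 m h.le, e3 (m + 1) h]
        have h1 : σ (m + 1) ≤ σ T := hm h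
        rcases hs m h with h2 | h2
        · left
          intro i hi hi'
          rw [e1 i (by omega), e1 (i + 1) (by omega)]
          exact h2 i hi hi'
        · right
          intro i hi hi'
          rw [e1 i (by omega), e1 (i + 1) (by omega)]
          exact h2 i hi hi'
      · have hmm : m = T := by omega
        rw [hmm, e3 T le_rfl, e4]
        rcases Nat.le_total (H T) (H (T + 1)) with h3 | h3
        · left
          intro i hi hi'
          rw [e2 i hi, e2 (i + 1) (by omega)]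
          omega
        · right
          intro i hi hi'
          rw [e2 i hi, e2 (i + 1) (by omega)]
          omega
    · intro i hi
      rw [e4] at hi
      rcases Nat.lt_or_ge i (σ T) with h | h
      · rw [e1 i h.le, e1 (i + 1) h]
        exact hu i h
      · rw [e2 i h, e2 (i + 1) (by omega)]
        omega

private theorem nt22_first (L : ℕ → ℕ) (m z : ℕ) (hmz : m < z)
    (hu : ∀ i, m ≤ i → i < z → L i ≤ L (i + 1) + 1) (h1 : L m < L (m + 1)) (h2 : L z ≤ L m) :
    ∃ d, m < d ∧ d ≤ z ∧ L m = L d ∧ ∀ i, m ≤ i → i ≤ d → L m ≤ L i := by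
  classical
  have hex : ∃ d, m < d ∧ L d ≤ L m := ⟨z, hmz, h2⟩
  obtain ⟨hd1, hd2⟩ := Nat.find_spec hex
  have hmin : ∀ i, i < Nat.find hex → m < i → L m < L i := by
    intro i hi hmi
    by_contra hcon
    exact Nat.find_min hex hi ⟨hmi, by omega⟩
  have hdz : Nat.find hex ≤ z := Nat.find_min' hex ⟨hmz, h2⟩
  obtain ⟨d, hd⟩ : ∃ d, d = Nat.find hex := ⟨_, rfl⟩
  rw [← hd] at hd1 hd2 hmin hdz
  have hne : d ≠ m + 1 := by
    intro h
    rw [h] at hd2
    omega
  have h3 := hmin (d - 1) (by omega) (by omega)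
  have h4 := hu (d - 1) (by omega) (by omega)
  rw [show d - 1 + 1 = d by omega] at h4
  refine ⟨d, hd1, hdz, by omega, fun i hi hi' => ?_⟩
  rcases Nat.eq_or_lt_of_le hi with h | h
  · rw [h]
  · rcases Nat.eq_or_lt_of_le hi' with h5 | h5
    · rw [h5]
      omega
    · exact (hmin i h5 h).le

private theorem nt22_last (L : ℕ → ℕ) (z m : ℕ) (hzm : z ≤ m)
    (hu : ∀ i, z ≤ i → i < m → L (i + 1) ≤ L i + 1) (h1 : L (m + 1) < L m)
    (h2 : L z ≤ L (m + 1)) :
    ∃ c, z ≤ c ∧ c ≤ m ∧ L c = L (m + 1) ∧ ∀ i, c ≤ i → i ≤ m + 1 → L c ≤ L i := by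
  classical
  have hex : ∃ j, L (m - j) ≤ L (m + 1) := ⟨m - z, by rw [show m - (m - z) = z by omega]; exact h2⟩
  have hs := Nat.find_spec hex
  have hmin : ∀ i, i < Nat.find hex → L (m + 1) < L (m - i) := by
    intro i hi
    by_contra hcon
    exact Nat.find_min hex hi (by omega)
  have hdz : Nat.find hex ≤ m - z :=
    Nat.find_min' hex (by rw [show m - (m - z) = z by omega]; exact h2)
  obtain ⟨j, hj⟩ : ∃ j, j = Nat.find hex := ⟨_, rfl⟩
  rw [← hj] at hs hmin hdz
  have hj0 : j ≠ 0 := by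
    intro h
    rw [h, Nat.sub_zero] at hs
    omega
  have h3 := hmin (j - 1) (by omega)
  have h4 := hu (m - j) (by omega) (by omega)
  rw [show m - (j - 1) = m - j + 1 by omega] at h3
  have h5 : L (m - j) = L (m + 1) := by omega
  refine ⟨m - j, by omega, by omega, h5, fun i hi hi' => ?_⟩
  rcases Nat.eq_or_lt_of_le hi with h | h
  · rw [h]
  · rcases Nat.eq_or_lt_of_le hi' with h6 | h6
    · rw [h6, h5]
    · have h7 := hmin (m - i) (by omega)
      rw [show m - (m - i) = i by omega] at h7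
      omega

/-- Piece NT-22. In the first case take for `z` the last time of the minimum of `L` on `[x, y]`, in
the second case the first one. For a rising step `m < z` take `[m, d]` where `d` is the first
return to the value `L m` (it exists because of the unit steps, as `L z ≤ L m`); the values on it
are at most `L m + h` (in the first case because they are at most `L z + h`). For a falling step
`m ≥ z` take `[c, m + 1]` where `c` is the last time `≤ m` with `L c = L (m + 1)`. -/
theorem deep_split (L : ℕ → ℕ) (h t x y : ℕ) (hxy : x ≤ y)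
    (hu : ∀ i, x ≤ i → i < y → L (i + 1) ≤ L i + 1 ∧ L i ≤ L (i + 1) + 1)
    (hD : (∀ i i', x ≤ i → i ≤ i' → i' ≤ y → L i ≤ L i' + h) ∨
      (∀ i i', x ≤ i → i ≤ i' → i' ≤ y → L i' ≤ L i + h)) :
    ∃ z, x ≤ z ∧ z ≤ y ∧
      (∀ m, x ≤ m → m < z → L m < L (m + 1) →
        ∃ c d, x ≤ c ∧ c ≤ m ∧ m < d ∧ d ≤ z ∧ Exc L h t 0 c d) ∧
      (∀ m, z ≤ m → m < y → L (m + 1) < L m →
        ∃ c d, z ≤ c ∧ c ≤ m ∧ m < d ∧ d ≤ y ∧ Exc L h t 0 c d) := by
  obtain ⟨z, hz, hmin⟩ := Finset.exists_min_image (Finset.Icc x y) L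
    ⟨x, Finset.mem_Icc.2 ⟨le_rfl, hxy⟩⟩
  obtain ⟨hxz, hzy⟩ := Finset.mem_Icc.1 hz
  have hmin' : ∀ i, x ≤ i → i ≤ y → L z ≤ L i := fun i h1 h2 => hmin i (Finset.mem_Icc.2 ⟨h1, h2⟩)
  refine ⟨z, hxz, hzy, fun m hm hmz hr => ?_, fun m hm hmy hf => ?_⟩
  · obtain ⟨d, hd1, hd2, hd3, hd4⟩ := nt22_first L m z hmz
      (fun i h1 h2 => (hu i (by omega) (by omega)).2) hr (hmin' m hm (by omega))
    refine ⟨m, d, hm, le_rfl, hd1, hd2, hd3, fun i h1 h2 => ⟨hd4 i h1 h2, ?_⟩⟩
    rcases hD with hD | hD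
    · have h3 := hD i z (by omega) (by omega) hzy
      have h4 := hmin' m hm (by omega)
      omega
    · exact hD m i hm h1 (by omega)
  · obtain ⟨c, hc1, hc2, hc3, hc4⟩ := nt22_last L z m hm
      (fun i h1 h2 => (hu i (by omega) (by omega)).1) hf (hmin' (m + 1) (by omega) (by omega))
    refine ⟨c, m + 1, hc1, hc2, by omega, by omega, hc3, fun i h1 h2 => ⟨hc4 i h1 h2, ?_⟩⟩
    rcases hD with hD | hD
    · have h3 := hD i (m + 1) (by omega) h2 (by omega)
      omega
    · exact hD c i (by omega) h1 (by omega)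

private theorem nt22_mono {L : ℕ → ℕ} {a b : ℕ} (h : ∀ i, a ≤ i → i < b → L i ≤ L (i + 1)) :
    ∀ i i', a ≤ i → i ≤ i' → i' ≤ b → L i ≤ L i' := by
  intro i i' hi hii
  induction i', hii using Nat.le_induction with
  | base => exact fun _ => le_rfl
  | succ n hn ih =>
    intro hb
    exact (ih (by omega)).trans (h n (by omega) (by omega))

private theorem nt22_anti {L : ℕ → ℕ} {a b : ℕ} (h : ∀ i, a ≤ i → i < b → L (i + 1) ≤ L i) :
    ∀ i i', a ≤ i → i ≤ i' → i' ≤ b → L i' ≤ L i := by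
  intro i i' hi hii
  induction i', hii using Nat.le_induction with
  | base => exact fun _ => le_rfl
  | succ n hn ih =>
    intro hb
    exact (h n (by omega) (by omega)).trans (ih (by omega))

private def nt22_Loc (L σ : ℕ → ℕ) (a b j m n : ℕ) : Prop :=
  a ≤ m ∧ m ≤ n ∧ n ≤ b ∧ n ≤ m + 1 ∧ σ m ≤ j ∧ j ≤ σ n ∧
    ((∀ i i', σ m ≤ i → i ≤ i' → i' ≤ σ n → L i ≤ L i') ∨
      (∀ i i', σ m ≤ i → i ≤ i' → i' ≤ σ n → L i' ≤ L i))

private theorem nt22_loc {L H σ : ℕ → ℕ} {T : ℕ} (hR : Refines L H σ T) {a b : ℕ} (hab : a ≤ b)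
    (hbT : b ≤ T) {j : ℕ} (hj : σ a ≤ j) (hj' : j ≤ σ b) : ∃ m n, nt22_Loc L σ a b j m n := by
  obtain ⟨hm, h0, hL, hs⟩ := hR
  induction b, hab using Nat.le_induction with
  | base =>
    refine ⟨a, a, le_rfl, le_rfl, le_rfl, by omega, hj, hj', Or.inl fun i i' h1 h2 h3 => ?_⟩
    rw [show i = i' by omega]
  | succ b hb ih =>
    by_cases h : j ≤ σ b
    · obtain ⟨m, n, h1, h2, h3, h4⟩ := ih (by omega) h
      exact ⟨m, n, h1, h2, by omega, h4⟩
    · refine ⟨b, b + 1, hb, by omega, le_rfl, le_rfl, by omega, hj', ?_⟩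
      rcases hs b (by omega) with h1 | h1
      · exact Or.inl (nt22_mono h1)
      · exact Or.inr (nt22_anti h1)

private theorem nt22_pc {L H σ : ℕ → ℕ} {T h : ℕ} (hR : Refines L H σ T) {a b : ℕ} (hab : a ≤ b)
    (hbT : b ≤ T)
    (hD : (∀ m m', a ≤ m → m ≤ m' → m' ≤ b → H m ≤ H m' + h) ∨
      (∀ m m', a ≤ m → m ≤ m' → m' ≤ b → H m' ≤ H m + h)) :
    (∀ i i', σ a ≤ i → i ≤ i' → i' ≤ σ b → L i ≤ L i' + h) ∨
      (∀ i i', σ a ≤ i → i ≤ i' → i' ≤ σ b → L i' ≤ L i + h) := by
  have hm := hR.1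
  have hL := hR.2.2.1
  have bd : ∀ j m n, nt22_Loc L σ a b j m n →
      (L j ≤ H m ∨ L j ≤ H n) ∧ (H m ≤ L j ∨ H n ≤ L j) := by
    rintro j m n ⟨h1, h2, h3, h4, h5, h6, h7⟩
    have e1 := hL m (by omega)
    have e2 := hL n (by omega)
    rcases h7 with h7 | h7
    · have f1 := h7 _ _ le_rfl h5 h6
      have f2 := h7 _ _ h5 h6 le_rfl
      exact ⟨Or.inr (by omega), Or.inl (by omega)⟩
    · have f1 := h7 _ _ le_rfl h5 h6
      have f2 := h7 _ _ h5 h6 le_rfl
      exact ⟨Or.inl (by omega), Or.inr (by omega)⟩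
  rcases hD with hD | hD
  · left
    intro j j' hj hjj hj'
    obtain ⟨m, n, hl⟩ := nt22_loc hR hab hbT hj (hjj.trans hj')
    obtain ⟨m', n', hl'⟩ := nt22_loc hR hab hbT (hj.trans hjj) hj'
    obtain ⟨b1, -⟩ := bd _ _ _ hl
    obtain ⟨-, b2⟩ := bd _ _ _ hl'
    obtain ⟨h1, h2, h3, h4, h5, h6, h7⟩ := hl
    obtain ⟨g1, g2, g3, g4, g5, g6, g7⟩ := hl'
    rcases Nat.lt_trichotomy m m' with hc | hc | hc
    · have d1 := hD m m' h1 hc.le (by omega)
      have d2 := hD m n' h1 (by omega) g3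
      have d3 := hD n m' (by omega) (by omega) (by omega)
      have d4 := hD n n' (by omega) (by omega) g3
      omega
    · subst hc
      by_cases hn : n = m
      · subst hn
        have hjm : j = σ n := by omega
        rw [hjm, hL n (by omega)]
        have d1 := hD n n h1 le_rfl (by omega)
        have d2 := hD n n' h1 g2 g3
        omega
      · by_cases hn' : n' = m
        · subst hn'
          rw [show j = j' by omega]
          exact Nat.le_add_right _ _
        · have e : n' = n := by omega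
          subst e
          have d1 := hD m n' h1 h2 h3
          have e1 := hL m (by omega)
          have e2 := hL n' (by omega)
          rcases h7 with h7 | h7
          · exact (h7 j j' h5 hjj g6).trans (Nat.le_add_right _ _)
          · have f1 := h7 _ _ le_rfl h5 h6
            have f2 := h7 _ _ g5 g6 le_rfl
            omega
    · have := hm (show n' ≤ m by omega)
      rw [show j = j' by omega]
      exact Nat.le_add_right _ _
  · right
    intro j j' hj hjj hj'
    obtain ⟨m, n, hl⟩ := nt22_loc hR hab hbT hj (hjj.trans hj')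
    obtain ⟨m', n', hl'⟩ := nt22_loc hR hab hbT (hj.trans hjj) hj'
    obtain ⟨-, b1⟩ := bd _ _ _ hl
    obtain ⟨b2, -⟩ := bd _ _ _ hl'
    obtain ⟨h1, h2, h3, h4, h5, h6, h7⟩ := hl
    obtain ⟨g1, g2, g3, g4, g5, g6, g7⟩ := hl'
    rcases Nat.lt_trichotomy m m' with hc | hc | hc
    · have d1 := hD m m' h1 hc.le (by omega)
      have d2 := hD m n' h1 (by omega) g3
      have d3 := hD n m' (by omega) (by omega) (by omega)
      have d4 := hD n n' (by omega) (by omega) g3
      omega
    · subst hc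
      by_cases hn : n = m
      · subst hn
        have hjm : j = σ n := by omega
        rw [hjm, hL n (by omega)]
        have d1 := hD n n h1 le_rfl (by omega)
        have d2 := hD n n' h1 g2 g3
        omega
      · by_cases hn' : n' = m
        · subst hn'
          rw [show j = j' by omega]
          exact Nat.le_add_right _ _
        · have e : n' = n := by omega
          subst e
          have d1 := hD m n' h1 h2 h3
          have e1 := hL m (by omega)
          have e2 := hL n' (by omega)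
          rcases h7 with h7 | h7
          · have f1 := h7 _ _ le_rfl h5 h6
            have f2 := h7 _ _ g5 g6 le_rfl
            omega
          · exact (h7 j j' h5 hjj g6).trans (Nat.le_add_right _ _)
    · have := hm (show n' ≤ m by omega)
      rw [show j = j' by omega]
      exact Nat.le_add_right _ _

/-- Piece NT-22. Let `T` be the first time with a state of `F` (`T ≤ τ t`), `L`, `σ` from
`unit_refine`; the pieces `[σ (min (τ i) T), σ (min (τ (i + 1)) T)]` satisfy `hD` (the values of `L`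
on `[σ m, σ (m + 1)]` are between `H m` and `H (m + 1)`, and `L` is monotone there), and
`deep_split` cuts each of them into two. -/
theorem deep_nested {α Q Γ : Type} {k : ℕ} (δ : PDTrans α Q Γ k) (q₀ : Q) (F : Set Q)
    (h t : ℕ) (w : List α) (hA : AcceptsDeep δ q₀ F h t w) :
    AcceptsNested δ q₀ F 0 h (2 * t) w := by
  classical
  obtain ⟨τ, hτ0, hτm, hτF, hτ⟩ := hA
  have hex : ∃ T, ((pdStep δ w)^[T] (q₀, fun _ => 0, [])).1 ∈ F := ⟨τ t, hτF⟩
  have hT1 := Nat.find_spec hex
  have hT2 : ∀ m < Nat.find hex, ((pdStep δ w)^[m] (q₀, fun _ => 0, [])).1 ∉ F :=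
    fun m hm => Nat.find_min hex hm
  have hT3 : Nat.find hex ≤ τ t := Nat.find_min' hex hτF
  obtain ⟨T, hT⟩ : ∃ T, T = Nat.find hex := ⟨_, rfl⟩
  rw [← hT] at hT1 hT2 hT3
  obtain ⟨L, σ, hR, hu⟩ := unit_refine (height δ q₀ w) T
  refine ⟨T, hT1, hT2, L, σ, hR, ?_⟩
  have hσm := hR.1
  have hσ0 := hR.2.1
  obtain ⟨ρ, hρ⟩ : ∃ ρ : ℕ → ℕ, ρ = fun i => σ (min (τ i) T) := ⟨_, rfl⟩
  have hρm : ∀ i, ρ i ≤ ρ (i + 1) := by
    intro i
    rw [hρ]
    exact hσm (min_le_min_right T (hτm (Nat.le_succ i)))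
  have hρT : ∀ i, ρ i ≤ σ T := by
    intro i
    rw [hρ]
    exact hσm (min_le_right _ _)
  have hz : ∀ i, ∃ z, ρ i ≤ z ∧ z ≤ ρ (i + 1) ∧ (i < t →
      (∀ m, ρ i ≤ m → m < z → L m < L (m + 1) →
        ∃ c d, ρ i ≤ c ∧ c ≤ m ∧ m < d ∧ d ≤ z ∧ Exc L h (2 * t) 0 c d) ∧
      (∀ m, z ≤ m → m < ρ (i + 1) → L (m + 1) < L m →
        ∃ c d, z ≤ c ∧ c ≤ m ∧ m < d ∧ d ≤ ρ (i + 1) ∧ Exc L h (2 * t) 0 c d)) := by
    intro i
    by_cases hi : i < t
    · have hab : min (τ i) T ≤ min (τ (i + 1)) T := min_le_min_right T (hτm (Nat.le_succ i))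
      have hD : (∀ m m', min (τ i) T ≤ m → m ≤ m' → m' ≤ min (τ (i + 1)) T →
            height δ q₀ w m ≤ height δ q₀ w m' + h) ∨
          (∀ m m', min (τ i) T ≤ m → m ≤ m' → m' ≤ min (τ (i + 1)) T →
            height δ q₀ w m' ≤ height δ q₀ w m + h) := by
        rcases hτ i hi with h1 | h1
        · left
          intro m m' hm hmm hm'
          by_cases hc : τ i ≤ T
          · exact h1 m m' (by omega) hmm (by omega)
          · rw [show m = m' by omega]
            exact Nat.le_add_right _ _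
        · right
          intro m m' hm hmm hm'
          by_cases hc : τ i ≤ T
          · exact h1 m m' (by omega) hmm (by omega)
          · rw [show m = m' by omega]
            exact Nat.le_add_right _ _
      have hP := nt22_pc hR hab (min_le_right _ _) hD
      have hP' : (∀ i' i'', ρ i ≤ i' → i' ≤ i'' → i'' ≤ ρ (i + 1) → L i' ≤ L i'' + h) ∨
          (∀ i' i'', ρ i ≤ i' → i' ≤ i'' → i'' ≤ ρ (i + 1) → L i'' ≤ L i' + h) := by
        rw [hρ]
        exact hP
      obtain ⟨z, h1, h2, h3, h4⟩ := deep_split L h (2 * t) (ρ i) (ρ (i + 1)) (hρm i)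
        (fun j hj hj' => hu j (lt_of_lt_of_le hj' (hρT _))) hP'
      exact ⟨z, h1, h2, fun _ => ⟨h3, h4⟩⟩
    · exact ⟨ρ i, le_rfl, hρm i, fun hc => absurd hc hi⟩
  choose z hz1 hz2 hz3 using hz
  refine ⟨fun n => if n % 2 = 0 then ρ (n / 2) else z (n / 2), ?_, ?_, ?_, ?_⟩
  · refine monotone_nat_of_le_succ fun n => ?_
    rcases Nat.mod_two_eq_zero_or_one n with hn | hn
    · have h1 : (n + 1) % 2 = 1 := by omega
      have h2 : (n + 1) / 2 = n / 2 := by omega
      simp only [hn, h1, h2, if_true, if_false, one_ne_zero]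
      exact hz1 _
    · have h1 : (n + 1) % 2 = 0 := by omega
      have h2 : (n + 1) / 2 = n / 2 + 1 := by omega
      simp only [hn, h1, h2, if_true, if_false, one_ne_zero]
      exact hz2 _
  · simp only [Nat.zero_mod, if_true, Nat.zero_div]
    rw [hρ]
    simp only [hτ0, Nat.zero_min]
    exact hσ0
  · have h1 : 2 * t % 2 = 0 := by omega
    have h2 : 2 * t / 2 = t := by omega
    simp only [h1, h2, if_true]
    rw [hρ]
    simp only [min_eq_right hT3]
  · intro n hn
    rcases Nat.mod_two_eq_zero_or_one n with hn2 | hn2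
    · right
      have h1 : (n + 1) % 2 = 1 := by omega
      have h2 : (n + 1) / 2 = n / 2 := by omega
      simp only [hn2, h1, h2, if_true, if_false, one_ne_zero]
      exact (hz3 (n / 2) (by omega)).1
    · left
      have h1 : (n + 1) % 2 = 0 := by omega
      have h2 : (n + 1) / 2 = n / 2 + 1 := by omega
      simp only [hn2, h1, h2, if_true, if_false, one_ne_zero]
      exact (hz3 (n / 2) (by omega)).2

end Pool.Agent.Helper17.TX
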