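import Pool.Agent.Helper17.TX.Sem

set_option autoImplicit false

/-!
Nested turns: excursions of bounded height.
-/

namespace Pool.Agent.Helper17.TX

open Pool.Agent.Helper17.SL Pool.Agent.Helper17.TU

variable {S Γ : Type} (a : S → TAct S Γ) (W K : ℕ)

private theorem nt4_step (s : S) (n : ℕ) : brn a W (n + 1) s = bst a W (brn a W n s) :=
  Function.iterate_succ_apply' _ _ _

private theorem nt4_stop (q : Bool × Bool × S × Pend Γ W) (h : q.1 = true) : bst a W q = q := by
  unfold bst
  rw [if_pos h]

private theorem nt4_nope {s : S} {n : ℕ} (h : NoPE a s n)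
    (h' : ¬ ((urun a (s, []) n).2 = [] ∧ IsPop a (urun a (s, []) n).1)) : NoPE a s (n + 1) := by
  intro i hi
  rcases Nat.lt_succ_iff_lt_or_eq.1 hi with h1 | h1
  · exact h i h1
  · rw [h1]
    exact h'

private theorem nt4_inv (s : S) (n : ℕ) :
    ((brn a W n s).1 = false ∧ (brn a W n s).2.1 = false ∧
      (brn a W n s).2.2.1 = (urun a (s, []) n).1 ∧
      (brn a W n s).2.2.2.1 = (urun a (s, []) n).2 ∧ NoPE a s n) ∨
    ((brn a W n s).1 = true ∧ (brn a W n s).2.1 = false) ∨
    ((brn a W n s).1 = true ∧ (brn a W n s).2.1 = true ∧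
      ∃ T, Compl a s T ∧ (brn a W n s).2.2.1 = (urun a (s, []) T).1) := by
  induction n with
  | zero =>
    left
    refine ⟨rfl, rfl, rfl, rfl, ?_⟩
    intro i hi
    omega
  | succ n ih =>
    rw [nt4_step]
    rcases ih with ⟨h1, h2, h3, h4, h5⟩ | h | h
    · have hrun : urun a (s, []) (n + 1) =
          (a (urun a (s, []) n).1).app (urun a (s, []) n).2 := rfl
      generalize brn a W n s = q at h1 h2 h3 h4 ⊢
      obtain ⟨f, g, s1, l, hl⟩ := q
      simp only at h1 h2 h3 h4
      subst h1 h2
      unfold bst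
      rw [if_neg (by simp)]
      rw [← h3, ← h4] at hrun
      cases hu : a s1 with
      | stay s' =>
        left
        rw [hrun, hu]
        refine ⟨rfl, rfl, rfl, rfl, nt4_nope a h5 ?_⟩
        rintro ⟨-, h7⟩
        rw [← h3] at h7
        unfold IsPop at h7
        rw [hu] at h7
        cases h7
      | push s' y =>
        simp only
        split_ifs with hlen
        · left
          rw [hrun, hu]
          refine ⟨rfl, rfl, rfl, rfl, nt4_nope a h5 ?_⟩
          rintro ⟨-, h7⟩
          rw [← h3] at h7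
          unfold IsPop at h7
          rw [hu] at h7
          cases h7
        · right
          left
          exact ⟨rfl, rfl⟩
      | pop k =>
        rcases l with _ | ⟨y, ys⟩
        · right
          right
          refine ⟨rfl, rfl, n, ⟨h5, h4.symm, ?_⟩, h3⟩
          unfold IsPop
          rw [← h3, hu]
          rfl
        · left
          rw [hrun, hu]
          refine ⟨rfl, rfl, rfl, rfl, nt4_nope a h5 ?_⟩
          rintro ⟨h7, -⟩
          rw [← h4] at h7
          cases h7
    · rw [nt4_stop a W _ h.1]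
      exact Or.inr (Or.inl h)
    · rw [nt4_stop a W _ h.1]
      exact Or.inr (Or.inr h)

/-- Piece NT-4. The simulation follows the run `urun a (s, [])` until it stops. -/
theorem e0_sound : SndE a (e0 a W K) := by
  intro s s'' h
  unfold e0 at h
  split_ifs at h with h1
  rw [Option.some.injEq] at h
  rcases nt4_inv a W s K with h2 | h2 | h2
  · rw [h2.2.1] at h1
    cases h1
  · rw [h2.2] at h1
    cases h1
  · obtain ⟨-, -, T, hT, h3⟩ := h2
    exact ⟨T, hT, by rw [← h3, h]⟩

private theorem nt4_run {s : S} {T : ℕ} (hc : Compl a s T) (hW : ∀ i ≤ T, len a s i ≤ W) (n : ℕ)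
    (hn : n ≤ T) : (brn a W n s).1 = false ∧ (brn a W n s).2.1 = false ∧
      (brn a W n s).2.2.1 = (urun a (s, []) n).1 ∧
      (brn a W n s).2.2.2.1 = (urun a (s, []) n).2 := by
  induction n with
  | zero => exact ⟨rfl, rfl, rfl, rfl⟩
  | succ n ih =>
    obtain ⟨h1, h2, h3, h4⟩ := ih (by omega)
    have hlen := hW (n + 1) hn
    have hno := hc.1 n (by omega)
    rw [nt4_step]
    have hrun : urun a (s, []) (n + 1) =
        (a (urun a (s, []) n).1).app (urun a (s, []) n).2 := rfl
    unfold len at hlen
    generalize brn a W n s = q at h1 h2 h3 h4 ⊢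
    obtain ⟨f, g, s1, l, hl⟩ := q
    simp only at h1 h2 h3 h4
    subst h1 h2
    unfold bst
    rw [if_neg (by simp)]
    rw [← h3, ← h4] at hrun hno
    rw [hrun] at hlen ⊢
    cases hu : a s1 with
    | stay s' => exact ⟨rfl, rfl, rfl, rfl⟩
    | push s' y =>
      rw [hu] at hlen
      have hlen' : (y :: l).length ≤ W := hlen
      simp only
      rw [dif_pos hlen']
      exact ⟨rfl, rfl, rfl, rfl⟩
    | pop k =>
      rcases l with _ | ⟨y, ys⟩
      · exfalso
        apply hno
        refine ⟨rfl, ?_⟩
        unfold IsPop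
        rw [hu]
        rfl
      · exact ⟨rfl, rfl, rfl, rfl⟩

private theorem nt4_end {s : S} {T : ℕ} (hc : Compl a s T) (hW : ∀ i ≤ T, len a s i ≤ W) (m : ℕ) :
    (brn a W (T + 1 + m) s).1 = true ∧ (brn a W (T + 1 + m) s).2.1 = true ∧
      (brn a W (T + 1 + m) s).2.2.1 = (urun a (s, []) T).1 := by
  induction m with
  | zero =>
    obtain ⟨h1, h2, h3, h4⟩ := nt4_run a W hc hW T le_rfl
    obtain ⟨-, h5, h6⟩ := hc
    rw [add_zero, nt4_step]
    generalize brn a W T s = q at h1 h2 h3 h4 ⊢
    obtain ⟨f, g, s1, l, hl⟩ := q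
    simp only at h1 h2 h3 h4
    subst h1 h2
    rw [h5] at h4
    subst h4
    rw [← h3] at h6 ⊢
    unfold bst
    rw [if_neg (by simp)]
    unfold IsPop at h6
    cases hu : a s1 with
    | stay s' =>
      rw [hu] at h6
      cases h6
    | push s' y =>
      rw [hu] at h6
      cases h6
    | pop k => exact ⟨rfl, rfl, rfl⟩
  | succ m ih =>
    have h1 : T + 1 + (m + 1) = T + 1 + m + 1 := by omega
    rw [h1, nt4_step, nt4_stop a W _ ih.1]
    exact ih

private theorem nt4_det (c0 : S × List Γ) (i i' : ℕ) (he : urun a c0 i = urun a c0 i') (n : ℕ) :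
    urun a c0 (i + n) = urun a c0 (i' + n) := by
  induction n with
  | zero => exact he
  | succ n ih => rw [← Nat.add_assoc, ← Nat.add_assoc, urun, urun, ih]

/-- Piece NT-4. The configurations at the times `0, …, T` are different (otherwise the run would
be periodic and never pop with the empty stack), so `T + 1 ≤ K`. -/
theorem e0_complete [Fintype S] [Fintype (Pend Γ W)] {s : S} {T : ℕ} (hc : Compl a s T)
    (hW : ∀ i ≤ T, len a s i ≤ W) (hK : Fintype.card S * Fintype.card (Pend Γ W) ≤ K) :
    e0 a W K s = some (urun a (s, []) T).1 := by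
  have hTK : T + 1 ≤ K := by
    refine le_trans ?_ hK
    by_contra hcon
    rw [not_le] at hcon
    have hcard : Fintype.card (S × Pend Γ W) < Fintype.card (Fin (T + 1)) := by
      rw [Fintype.card_fin, Fintype.card_prod]
      exact hcon
    obtain ⟨x, y, hxy, he⟩ := Fintype.exists_ne_map_eq_of_card_lt
      (fun i : Fin (T + 1) => (((urun a (s, []) i).1,
        ⟨(urun a (s, []) i).2, hW i (Nat.lt_succ_iff.1 i.2)⟩) : S × Pend Γ W)) hcard
    have key : ∀ i i' : ℕ, i < i' → i' ≤ T → urun a (s, []) i = urun a (s, []) i' → False := by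
      intro i i' hii hi' heq
      have h1 := nt4_det a (s, []) i i' heq (T - i')
      rw [Nat.add_sub_cancel' hi'] at h1
      apply hc.1 (i + (T - i')) (by omega)
      rw [h1]
      exact ⟨hc.2.1, hc.2.2⟩
    have he' : urun a (s, []) x = urun a (s, []) y := by
      rw [Prod.mk.injEq, Subtype.mk.injEq] at he
      exact Prod.ext he.1 he.2
    have hx := x.isLt
    have hy := y.isLt
    have hne : (x : ℕ) ≠ y := fun h => hxy (Fin.ext h)
    rcases Nat.lt_or_ge (x : ℕ) y with h | h
    · exact key x y h (by omega) he'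
    · exact key y x (by omega) (by omega) he'.symm
  obtain ⟨m, rfl⟩ : ∃ m, K = T + 1 + m := ⟨K - (T + 1), by omega⟩
  obtain ⟨-, h2, h3⟩ := nt4_end a W hc hW m
  unfold e0
  rw [if_pos h2, h3]

end Pool.Agent.Helper17.TX
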