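import Pool.Agent.Helper17.TX.NumDef

set_option autoImplicit false

/-!
Nested turns: numeric form of the search for excursions of bounded height.
-/

namespace Pool.Agent.Helper17.TX

open Pool.Agent.Helper17.SL Pool.Agent.Helper17.UL Pool.Agent.Helper17.TU Pool.Agent.Helper17.TV
  Pool.Agent.Helper6

section defs

variable {c : ℕ} (adv : (Fin (c + 2) → ℕ) → ℕ → Fin (c + 2) → ℕ)
  (psh : (Fin (c + 2) → ℕ) → ℕ) (dpop : (Fin (c + 2) → ℕ) → Prop) (Θ G Wc : ℕ)

/-- Code of the stack `b` after a push. -/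
def ecod (x : Fin (c + 2) → ℕ) (b : ℕ) : ℕ := min (psh x + min ((G + 1) * b) Wc) Wc

open Classical in
/-- Numeric form of `bst`; the last three components are the flags (stopped, successful) and the
code of the stack. -/
noncomputable def nst (q : Fin (c + 2) ⊕ Fin 3 → ℕ) : Fin (c + 2) ⊕ Fin 3 → ℕ :=
  if q (Sum.inr 0) ≠ 0 then q
  else if psh (fun i => q (Sum.inl i)) ≠ 0 then
    (if Θ ≤ ecod psh G Wc (fun i => q (Sum.inl i)) (q (Sum.inr 2)) then
      Sum.elim (fun i => q (Sum.inl i)) ![1, 0, q (Sum.inr 2)]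
    else Sum.elim (rz (adv (fun i => q (Sum.inl i)) 0))
      ![0, 0, ecod psh G Wc (fun i => q (Sum.inl i)) (q (Sum.inr 2))])
  else if dpop (fun i => q (Sum.inl i)) then
    (if q (Sum.inr 2) = 0 then Sum.elim (fun i => q (Sum.inl i)) ![1, 1, 0]
    else Sum.elim (rz (adv (fun i => q (Sum.inl i)) (q (Sum.inr 2) % (G + 1))))
      ![0, 0, q (Sum.inr 2) / (G + 1)])
  else Sum.elim (rz (adv (fun i => q (Sum.inl i)) 0)) ![0, 0, q (Sum.inr 2)]

/-- The state after `K` steps. -/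
noncomputable def nrn (K : ℕ) (x : Fin (c + 2) → ℕ) : Fin (c + 2) ⊕ Fin 3 → ℕ :=
  (nst adv psh dpop Θ G Wc)^[K] (Sum.elim x ![0, 0, 0])

/-- The flag. -/
noncomputable def ef0 (K : ℕ) (x : Fin (c + 2) → ℕ) : ℕ :=
  nrn adv psh dpop Θ G Wc K x (Sum.inr 1)

/-- The control found. -/
noncomputable def ev0 (K : ℕ) (x : Fin (c + 2) → ℕ) (i : Fin (c + 2)) : ℕ :=
  nrn adv psh dpop Θ G Wc K x (Sum.inl i)

end defs

section ntN

variable {S Γ : Type} [Fintype Γ] {c W : ℕ} {a : S → TAct S Γ} {kS : S → Fin (c + 2) → ℕ}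
  {adv : (Fin (c + 2) → ℕ) → ℕ → Fin (c + 2) → ℕ} {psh : (Fin (c + 2) → ℕ) → ℕ}
  {dpop : (Fin (c + 2) → ℕ) → Prop}

/-- Code of a state of the simulation. -/
private noncomputable def ntN_kq (kS : S → Fin (c + 2) → ℕ) (q : Bool × Bool × S × Pend Γ W) :
    Fin (c + 2) ⊕ Fin 3 → ℕ :=
  Sum.elim (kS q.2.2.1) ![if q.1 = true then 1 else 0, if q.2.1 = true then 1 else 0,
    bufc q.2.2.2.1]

private theorem ntN_full (l : List Γ) (z : Γ) :
    (Fintype.card Γ + 1) ^ W ≤ bufc (z :: l) ↔ ¬ (z :: l).length ≤ W := by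
  constructor
  · intro h1 h2
    have h3 := bufc_lt (z :: l)
    have h4 : (Fintype.card Γ + 1) ^ (z :: l).length ≤ (Fintype.card Γ + 1) ^ W :=
      Nat.pow_le_pow_right (Nat.succ_pos _) h2
    omega
  · intro h1
    have h2 := le_bufc l z
    have h3 : (Fintype.card Γ + 1) ^ W ≤ (Fintype.card Γ + 1) ^ l.length :=
      Nat.pow_le_pow_right (Nat.succ_pos _) (by
        simp only [List.length_cons] at h1
        omega)
    omega

private theorem ntN_cons (l : List Γ) (z : Γ) :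
    bufc (z :: l) / (Fintype.card Γ + 1) = bufc l ∧
    bufc (z :: l) % (Fintype.card Γ + 1) = oc (some z) ∧ bufc (z :: l) ≠ 0 := by
  have h1 := oc_lt (some z)
  have h2 : bufc (z :: l) = oc (some z) + (Fintype.card Γ + 1) * bufc l := rfl
  have h3 : oc (some z) = fc z + 1 := rfl
  refine ⟨?_, ?_, ?_⟩
  · rw [h2, Nat.add_mul_div_left _ _ (Nat.succ_pos _), Nat.div_eq_of_lt h1, zero_add]
  · rw [h2, Nat.add_mul_mod_self_left, Nat.mod_eq_of_lt h1]
  · omega

private theorem ntN_cod (Wc : ℕ) (hW : (Fintype.card Γ + 1) ^ (W + 1) ≤ Wc) (x : Fin (c + 2) → ℕ)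
    (l : List Γ) (hl : l.length ≤ W) (z : Γ) (hz : psh x = oc (some z)) :
    ecod psh (Fintype.card Γ) Wc x (bufc l) = bufc (z :: l) := by
  unfold ecod
  rw [hz]
  have h1 := bufc_lt (z :: l)
  have h2 : (Fintype.card Γ + 1) ^ (z :: l).length ≤ (Fintype.card Γ + 1) ^ (W + 1) :=
    Nat.pow_le_pow_right (Nat.succ_pos _) (by
      simp only [List.length_cons]
      omega)
  have h3 : bufc (z :: l) = oc (some z) + (Fintype.card Γ + 1) * bufc l := rfl
  rw [min_eq_left (a := (Fintype.card Γ + 1) * bufc l) (by omega), ← h3]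
  omega

private theorem ntN_rz (h : NumOK a kS adv psh dpop) (x : Fin (c + 2) → ℕ) (s' : S)
    (hx : ∀ i : Fin (c + 2), 3 ≤ (i : ℕ) → x i = kS s' i) : rz x = kS s' := by
  funext i
  unfold rz
  by_cases hi : 3 ≤ (i : ℕ)
  · rw [if_pos hi, hx i hi]
  · rw [if_neg hi, h.k0 _ i (by omega)]

private theorem ntN_step (h : NumOK a kS adv psh dpop) (Wc : ℕ)
    (hW : (Fintype.card Γ + 1) ^ (W + 1) ≤ Wc) (q : Bool × Bool × S × Pend Γ W) :
    ntN_kq kS (bst a W q) =
      nst adv psh dpop ((Fintype.card Γ + 1) ^ W) (Fintype.card Γ) Wc (ntN_kq kS q) := by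
  obtain ⟨f, g, s, l, hl⟩ := q
  cases f with
  | true =>
    have h1 : bst a W (true, g, s, ⟨l, hl⟩) = (true, g, s, ⟨l, hl⟩) := by
      unfold bst
      rw [if_pos rfl]
    rw [h1]
    unfold nst
    rw [if_pos]
    change (if (true : Bool) = true then 1 else 0) ≠ 0
    simp
  | false =>
    have hf : ¬ (ntN_kq kS ((false, g, s, ⟨l, hl⟩) : Bool × Bool × S × Pend Γ W)
        (Sum.inr 0) ≠ 0) := by
      change ¬ ((if (false : Bool) = true then 1 else 0) ≠ 0)
      simp
    have hin : (fun i => ntN_kq kS ((false, g, s, ⟨l, hl⟩) : Bool × Bool × S × Pend Γ W)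
        (Sum.inl i)) = kS s := rfl
    have h2 : ntN_kq kS ((false, g, s, ⟨l, hl⟩) : Bool × Bool × S × Pend Γ W)
        (Sum.inr 2) = bufc l := rfl
    unfold nst
    rw [if_neg hf, hin, h2]
    cases hu : a s with
    | stay s' =>
      obtain ⟨g1, g2, g3⟩ := h.stay _ _ hu
      have hb : bst a W (false, g, s, ⟨l, hl⟩) = (false, false, s', ⟨l, hl⟩) := by
        unfold bst
        simp only [hu]
        rfl
      have h3 : rz (adv (kS s) 0) = kS s' := ntN_rz h _ _ (g3 none)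
      rw [hb, if_neg (not_not.2 g1), if_neg g2, h3]
      rfl
    | push s' z =>
      obtain ⟨g1, g2, g3⟩ := h.push _ _ _ hu
      have g1' : psh (kS s) ≠ 0 := by
        rw [g1]
        exact Nat.succ_ne_zero _
      have h3 : rz (adv (kS s) 0) = kS s' := ntN_rz h _ _ (g3 none)
      rw [if_pos g1', ntN_cod Wc hW _ l hl z g1, h3]
      by_cases hfit : (z :: l).length ≤ W
      · have hb : bst a W (false, g, s, ⟨l, hl⟩) = (false, false, s', ⟨z :: l, hfit⟩) := by
          unfold bst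
          simp only [hu]
          rw [dif_pos hfit]
          rfl
        rw [hb, if_neg fun hh => (ntN_full l z).1 hh hfit]
        rfl
      · have hb : bst a W (false, g, s, ⟨l, hl⟩) = (true, false, s, ⟨l, hl⟩) := by
          unfold bst
          simp only [hu]
          rw [dif_neg hfit]
          rfl
        rw [hb, if_pos ((ntN_full l z).2 hfit)]
        rfl
    | pop f =>
      obtain ⟨g1, g2, g3⟩ := h.pop _ _ hu
      rw [if_neg (not_not.2 g1), if_pos g2]
      cases l with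
      | nil =>
        have hb : bst a W (false, g, s, ⟨[], hl⟩) = (true, true, s, ⟨[], Nat.zero_le _⟩) := by
          unfold bst
          simp only [hu]
          rfl
        have h4 : bufc ([] : List Γ) = 0 := rfl
        rw [hb, if_pos h4]
        rfl
      | cons z ys =>
        obtain ⟨q1, q2, q3⟩ := ntN_cons ys z
        have hys : ys.length ≤ W := by
          simp only [List.length_cons] at hl
          omega
        have hb : bst a W (false, g, s, ⟨z :: ys, hl⟩) =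
            (false, false, f (some z), ⟨ys, hys⟩) := by
          unfold bst
          simp only [hu]
          rfl
        have h3 : rz (adv (kS s) (oc (some z))) = kS (f (some z)) := ntN_rz h _ _ (g3 (some z))
        rw [hb, if_neg q3, q1, q2, h3]
        rfl

private theorem ntN_run (h : NumOK a kS adv psh dpop) (K Wc : ℕ)
    (hW : (Fintype.card Γ + 1) ^ (W + 1) ≤ Wc) (s : S) :
    nrn adv psh dpop ((Fintype.card Γ + 1) ^ W) (Fintype.card Γ) Wc K (kS s) =
      ntN_kq kS (brn a W K s) := by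
  have h1 : Function.Semiconj (ntN_kq (W := W) kS) (bst a W)
      (nst adv psh dpop ((Fintype.card Γ + 1) ^ W) (Fintype.card Γ) Wc) :=
    fun q => ntN_step h Wc hW q
  have h2 := (h1.iterate_right K).eq (false, false, s, ⟨[], Nat.zero_le _⟩)
  unfold nrn brn
  rw [h2]
  rfl

end ntN

/-- Piece NT-13. Show `nst (kq q) = kq (bst a W q)` for the code
`kq q = Sum.elim (kS q.2.2.1) ![if q.1 then 1 else 0, if q.2.1 then 1 else 0, bufc q.2.2.2.1]`;
see `dt6_cod`, `dt6_full`, `dt6_cons` in `TV/BNumEq.lean` for the codes of the stack (private,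
copy them). -/
theorem eOK0 {S Γ : Type} [Fintype Γ] {c : ℕ} {a : S → TAct S Γ}
    {kS : S → Fin (c + 2) → ℕ} {adv : (Fin (c + 2) → ℕ) → ℕ → Fin (c + 2) → ℕ}
    {psh : (Fin (c + 2) → ℕ) → ℕ} {dpop : (Fin (c + 2) → ℕ) → Prop}
    (h : NumOK a kS adv psh dpop) (W K Wc : ℕ)
    (hW : (Fintype.card Γ + 1) ^ (W + 1) ≤ Wc) :
    EOK (e0 a W K) kS (ef0 adv psh dpop ((Fintype.card Γ + 1) ^ W) (Fintype.card Γ) Wc K)
      (ev0 adv psh dpop ((Fintype.card Γ + 1) ^ W) (Fintype.card Γ) Wc K) := by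
  constructor
  · intro s hs
    unfold ef0
    rw [ntN_run h K Wc hW s]
    change (if (brn a W K s).2.1 = true then 1 else 0) ≠ 1
    unfold e0 at hs
    by_cases h1 : (brn a W K s).2.1 = true
    · rw [if_pos h1] at hs
      cases hs
    · rw [if_neg h1]
      exact zero_ne_one
  · intro s s'' hs
    unfold e0 at hs
    by_cases h1 : (brn a W K s).2.1 = true
    · rw [if_pos h1] at hs
      have h2 : (brn a W K s).2.2.1 = s'' := Option.some.inj hs
      refine ⟨?_, fun i _ => ?_⟩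
      · unfold ef0
        rw [ntN_run h K Wc hW s]
        change (if (brn a W K s).2.1 = true then 1 else 0) = 1
        rw [if_pos h1]
      · unfold ev0
        rw [ntN_run h K Wc hW s, ← h2]
        rfl
    · rw [if_neg h1] at hs
      cases hs

private theorem ntN_rz_lt {c B : ℕ} (hB : 0 < B) (x : Fin (c + 2) → ℕ) (hx : ∀ i, x i < B)
    (i : Fin (c + 2)) : rz x i < B := by
  unfold rz
  split_ifs
  · exact hx i
  · exact hB

private theorem ntN_nst_lt {c B : ℕ} {adv : (Fin (c + 2) → ℕ) → ℕ → Fin (c + 2) → ℕ}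
    {psh : (Fin (c + 2) → ℕ) → ℕ} {dpop : (Fin (c + 2) → ℕ) → Prop} (h : NumBd B adv psh)
    (Θ G Wc : ℕ) (hG : G < B) (q : Fin (c + 2) ⊕ Fin 3 → ℕ) (hq : ∀ i, q (Sum.inl i) < B)
    (i : Fin (c + 2)) : nst adv psh dpop Θ G Wc q (Sum.inl i) < B := by
  have hB : 0 < B := by omega
  have h0 : ∀ i, rz (adv (fun i => q (Sum.inl i)) 0) i < B :=
    ntN_rz_lt hB _ (h.a _ _ hq hB)
  have h1 : ∀ i, rz (adv (fun i => q (Sum.inl i)) (q (Sum.inr 2) % (G + 1))) i < B :=
    ntN_rz_lt hB _ (h.a _ _ hq (by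
      have h2 : q (Sum.inr 2) % (G + 1) < G + 1 := Nat.mod_lt _ (Nat.succ_pos G)
      omega))
  unfold nst
  split_ifs
  · exact hq i
  · exact hq i
  · exact h0 i
  · exact hq i
  · exact h1 i
  · exact h0 i

/-- Piece NT-13. -/
theorem ev0_lt {c B : ℕ} {adv : (Fin (c + 2) → ℕ) → ℕ → Fin (c + 2) → ℕ}
    {psh : (Fin (c + 2) → ℕ) → ℕ} {dpop : (Fin (c + 2) → ℕ) → Prop} (h : NumBd B adv psh)
    (Θ G Wc K : ℕ) (hG : G < B) (x : Fin (c + 2) → ℕ) (hx : ∀ i, x i < B) (i : Fin (c + 2)) :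
    ev0 adv psh dpop Θ G Wc K x i < B := by
  have key : ∀ K, ∀ i, nrn adv psh dpop Θ G Wc K x (Sum.inl i) < B := by
    intro K
    induction K with
    | zero => exact hx
    | succ K ih =>
      intro i
      unfold nrn
      rw [Function.iterate_succ_apply']
      exact ntN_nst_lt h Θ G Wc hG _ ih i
  exact key K i

section fl

variable {β : Type} {c : ℕ} {adv : List β → (Fin (c + 2) → ℕ) → ℕ → Fin (c + 2) → ℕ}
  {psh : List β → (Fin (c + 2) → ℕ) → ℕ} {dpop : List β → (Fin (c + 2) → ℕ) → Prop}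
  {Θ K : List β → ℕ}

theorem nt14_cod (h : NumFL β adv psh dpop) (G : ℕ) :
    FL β (Fin (c + 2) ⊕ Fin 3) (fun w q =>
      ecod (psh w) G (w.length + 1) (fun i => q (Sum.inl i)) (q (Sum.inr 2))) := by
  refine FL.congr (FL.add (FL.inl (U := Fin 3) h.p)
    (FL.mul (FL.const (G + 1)) (FL.proj (Sum.inr 2)))) ?_
  intro w x _
  unfold ecod
  rw [min_mul_cap]

theorem nt14_adv (h : NumFL β adv psh dpop) {y : List β → (Fin (c + 2) ⊕ Fin 3 → ℕ) → ℕ}
    (hy : FL β (Fin (c + 2) ⊕ Fin 3) y) (i : Fin (c + 2)) :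
    FL β (Fin (c + 2) ⊕ Fin 3) (fun w q =>
      rz (adv w (fun j => q (Sum.inl j)) (y w q)) i) := by
  by_cases hi : 3 ≤ (i : ℕ)
  · refine FL.congr (FL.comp (h.a i) (g := fun s w q => match s with
      | Sum.inl j => q (Sum.inl j)
      | Sum.inr _ => y w q) ?_) ?_
    · rintro (j | j)
      · exact FL.proj _
      · exact hy
    · intro w q _
      exact if_pos hi
  · refine FL.congr FL.zero ?_
    intro w q _
    exact if_neg hi

theorem nt14_step (h : NumFL β adv psh dpop) (hΘ : FL β Empty (fun w _ => Θ w)) (G : ℕ)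
    (v : Fin (c + 2) ⊕ Fin 3) :
    FL β (Fin (c + 2) ⊕ Fin 3) (fun w q =>
      nst (adv w) (psh w) (dpop w) (Θ w) G (w.length + 1) q v) := by
  classical
  have hp : ∀ u : Fin (c + 2) ⊕ Fin 3, FL β (Fin (c + 2) ⊕ Fin 3) (fun _ q => q u) :=
    fun u => FL.proj u
  have hco := nt14_cod h G
  have c1 : IsL β (Fin (c + 2) ⊕ Fin 3) (fun _ q => q (Sum.inr 0) ≠ 0) :=
    IsL.not (IsL.isZero _)
  have c2 : IsL β (Fin (c + 2) ⊕ Fin 3) (fun w q => psh w (fun i => q (Sum.inl i)) ≠ 0) :=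
    IsL.not (isL_eq (FL.inl (U := Fin 3) h.p) FL.zero)
  have c3 : IsL β (Fin (c + 2) ⊕ Fin 3) (fun w q =>
      Θ w ≤ ecod (psh w) G (w.length + 1) (fun i => q (Sum.inl i)) (q (Sum.inr 2))) :=
    isL_le (FL.ofEmpty hΘ) hco
  have c4 : IsL β (Fin (c + 2) ⊕ Fin 3) (fun w q => dpop w (fun i => q (Sum.inl i))) :=
    isL_comp h.d (g := fun i _ q => q (Sum.inl i)) (fun _ => FL.proj _)
  have c5 : IsL β (Fin (c + 2) ⊕ Fin 3) (fun _ q => q (Sum.inr 2) = 0) := IsL.isZero _
  rcases v with i | j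
  · refine FL.congr (FL.ite c1 (hp (Sum.inl i)) (FL.ite c2
      (FL.ite c3 (hp (Sum.inl i)) (nt14_adv h FL.zero i))
      (FL.ite c4 (FL.ite c5 (hp (Sum.inl i))
        (nt14_adv h (dt7_mod (hp (Sum.inr 2)) G) i)) (nt14_adv h FL.zero i)))) ?_
    intro w q _
    unfold nst
    split_ifs <;> rfl
  · fin_cases j
    · refine FL.congr (FL.ite c1 (hp (Sum.inr 0)) (FL.ite c2
        (FL.ite c3 FL.one FL.zero)
        (FL.ite c4 (FL.ite c5 FL.one FL.zero) FL.zero))) ?_
      intro w q _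
      unfold nst
      split_ifs <;> rfl
    · refine FL.congr (FL.ite c1 (hp (Sum.inr 1)) (FL.ite c2
        (FL.ite c3 FL.zero FL.zero)
        (FL.ite c4 (FL.ite c5 FL.one FL.zero) FL.zero))) ?_
      intro w q _
      unfold nst
      split_ifs <;> rfl
    · refine FL.congr (FL.ite c1 (hp (Sum.inr 2)) (FL.ite c2
        (FL.ite c3 (hp (Sum.inr 2)) hco)
        (FL.ite c4 (FL.ite c5 FL.zero (dt7_div (hp (Sum.inr 2)) G)) (hp (Sum.inr 2))))) ?_
      intro w q _
      unfold nst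
      split_ifs <;> rfl

/-- Piece NT-14. `FL.iter` (see its use in `walk_FL`, `Helper32/UL/Walk.lean`, and `phiG_FL` in
`TV/Gen.lean`), `dt7_div`, `dt7_mod`, `FL.comp` (compare `TV/BNumFL.lean`). -/
theorem nrn_FL (h : NumFL β adv psh dpop) (hΘ : FL β Empty (fun w _ => Θ w))
    (hK : FL β Empty (fun w _ => K w)) (G : ℕ) (v : Fin (c + 2) ⊕ Fin 3) :
    FL β (Fin (c + 2)) (fun w x =>
      nrn (adv w) (psh w) (dpop w) (Θ w) G (w.length + 1) (K w) x v) := by
  have h1 := FL.iter (U := Fin (c + 2) ⊕ Fin 3) (V := Fin (c + 2))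
    (F := fun u w z => nst (adv w) (psh w) (dpop w) (Θ w) G (w.length + 1)
      (fun v => z (Sum.inl v)) u)
    (fun u => FL.inl (U := Fin (c + 2)) (nt14_step h hΘ G u))
    (init := fun u _ x => match u with
      | Sum.inl i => x i
      | Sum.inr _ => 0)
    (by
      rintro (i | i)
      · exact FL.proj _
      · exact FL.zero)
    (c := fun w _ => K w) (FL.ofEmpty hK) v
  refine FL.congr h1 ?_
  intro w x _
  have e : (Sum.elim x ![0, 0, 0] : Fin (c + 2) ⊕ Fin 3 → ℕ) =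
      (fun u : Fin (c + 2) ⊕ Fin 3 => (match u with
        | Sum.inl i => x i
        | Sum.inr _ => 0 : ℕ)) := by
    funext u
    rcases u with i | j
    · rfl
    · fin_cases j <;> rfl
  unfold nrn
  rw [e]
  rfl

end fl

end Pool.Agent.Helper17.TX
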