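import Pool.Agent.Helper17.TX.Theta
import Pool.Agent.Helper17.TX.E0

set_option autoImplicit false

/-!
Nested turns: excursions with few turns, found by the timed machine.
-/

namespace Pool.Agent.Helper17.TX

open Pool.Agent.Helper17.SL Pool.Agent.Helper17.TU Pool.Agent.Helper17.TV

variable {S Γ : Type} {ua a : S → TAct S Γ}

private theorem nt7_step_nopop (a : S → TAct S Γ) (s1 : S) (l : List Γ)
    (h : ¬ (l = [] ∧ IsPop a s1)) :
    (dact true a (false, s1)).app l = ((false, ((a s1).app l).1), ((a s1).app l).2) := by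
  unfold dact
  rw [if_neg (by simp)]
  show (match a s1 with
    | .stay s' => TAct.stay (false, s')
    | .push s' y => TAct.push (false, s') y
    | .pop k => TAct.pop (fun z =>
        if (true && z.isNone) = true then (true, s1) else (false, k z))).app l = _
  unfold IsPop at h
  cases hk : a s1 with
  | stay s' => rfl
  | push s' y => rfl
  | pop k =>
    cases l with
    | nil =>
      exfalso
      apply h
      refine ⟨rfl, ?_⟩
      rw [hk]
      rfl
    | cons z zs => rfl

private theorem nt7_run1 (a : S → TAct S Γ) (s : S) (n : ℕ) (h : NoPE a s n) :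
    urun (dact true a) ((false, s), []) n =
      ((false, (urun a (s, []) n).1), (urun a (s, []) n).2) := by
  induction n with
  | zero => rfl
  | succ n ih =>
    rw [urun, urun, ih (fun i hi => h i (by omega))]
    exact nt7_step_nopop a _ _ (h n (Nat.lt_succ_self n))

private theorem nt7_step_pop (a : S → TAct S Γ) (s1 : S) (h : IsPop a s1) :
    (dact true a (false, s1)).app [] = ((true, s1), []) := by
  unfold dact
  rw [if_neg (by simp)]
  show (match a s1 with
    | .stay s' => TAct.stay (false, s')
    | .push s' y => TAct.push (false, s') y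
    | .pop k => TAct.pop (fun z =>
        if (true && z.isNone) = true then (true, s1) else (false, k z))).app [] = _
  unfold IsPop at h
  cases hk : a s1 with
  | stay s' =>
    rw [hk] at h
    exact absurd h (by simp [TAct.kind])
  | push s' y =>
    rw [hk] at h
    exact absurd h (by simp [TAct.kind])
  | pop k => rfl

private theorem nt7_run2 (a : S → TAct S Γ) (s : S) {J : ℕ} (hc : Compl a s J) (i : ℕ) :
    urun (dact true a) ((false, s), []) (J + 1 + i) = ((true, (urun a (s, []) J).1), []) := by
  induction i with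
  | zero =>
    rw [add_zero, urun, nt7_run1 a s J hc.1]
    show (dact true a (false, (urun a (s, []) J).1)).app (urun a (s, []) J).2 = _
    rw [hc.2.1]
    exact nt7_step_pop a _ hc.2.2
  | succ i ih =>
    rw [← add_assoc, urun, ih]
    show (dact true a (true, (urun a (s, []) J).1)).app [] = _
    unfold dact
    rw [if_pos rfl]
    rfl

private theorem nt7_flag (a : S → TAct S Γ) (s : S) (n : ℕ)
    (h : (urun (dact true a) ((false, s), []) n).1.1 = true) :
    ∃ T, Compl a s T ∧ (urun a (s, []) T).1 = (urun (dact true a) ((false, s), []) n).1.2 := by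
  classical
  by_cases hex : ∃ i, i < n ∧ (urun a (s, []) i).2 = [] ∧ IsPop a (urun a (s, []) i).1
  · obtain ⟨h1, h2, h3⟩ := Nat.find_spec hex
    have hmin := fun m (hm : m < Nat.find hex) => Nat.find_min hex hm
    generalize Nat.find hex = J at h1 h2 h3 hmin
    have hc : Compl a s J := by
      refine ⟨fun i hi hp => hmin i hi ⟨by omega, hp⟩, h2, h3⟩
    obtain ⟨i, rfl⟩ := Nat.exists_eq_add_of_le (show J + 1 ≤ n by omega)
    refine ⟨J, hc, ?_⟩
    rw [nt7_run2 a s hc]
  · have hno : NoPE a s n := fun i hi hp => hex ⟨i, hi, hp⟩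
    rw [nt7_run1 a s n hno] at h
    exact absurd h (by simp)

private theorem nt7_kind (a : S → TAct S Γ) (s : S) :
    (dact true a (false, s)).kind = (a s).kind := by
  unfold dact
  rw [if_neg (by simp)]
  cases a s <;> rfl

/-- Piece NT-7. By `tact_run` the state of the timed machine is a state of the run of
`dact true a` from `(false, s)`; before the flag is set this is the run of `a`, and it is set at
the first pop with the empty stack. -/
theorem eT_sound (a : S → TAct S Γ) (P₀ N : ℕ) : SndE a (eT a P₀ N) := by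
  intro s s'' h
  unfold eT at h
  split_ifs at h with h1
  rw [Option.some.injEq] at h
  rw [tact_run] at h h1
  simp only at h h1
  obtain ⟨T, h2, h3⟩ := nt7_flag a s _ h1
  exact ⟨T, h2, h3.trans h⟩

/-- Piece NT-7. `exists_fol` (if `x < T < y` then `len T = 0`), `fol_pieces` with `Exc … (j + 1)`,
then `length_bound2` and `sched_blocks` for the machine `dact true a`, the property
`fun s => s.1 = true`, the time `J + 1` and `t + 1 ≤ 2 * t` pieces (compare `deep_complete` in
`TV/Deep.lean`); after the time `J + 1` the run of `dact true a` is constant. -/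
theorem eT_complete [Fintype S] {s : S} {T h t j P₀ N : ℕ} (hS : SkipM ua a)
    (hC : SkC ua a h t j) (hc : Compl ua s T) (hE : Exc (len ua s) h t (j + 1) 0 T) (ht : 1 ≤ t)
    (hP₀ : 0 < P₀) (hP : 2 * t * ((2 * t * Fintype.card (Bool × S) + 2) *
      Fintype.card (Bool × S)) ≤ P₀) (hN : 2 * t * P₀ ≤ N) :
    eT a P₀ N s = some (urun ua (s, []) T).1 := by
  have hl0 : len ua s T = 0 := by
    unfold len
    rw [hc.2.1]
    rfl
  obtain ⟨J, θ, hF⟩ := exists_fol hS s T (by
    intro x y hx hy _
    exact ⟨T, hx, hy, by rw [hl0]; exact Nat.zero_le _⟩)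
  obtain ⟨σ, hσm, hσ0, hσt, hσ⟩ := fol_pieces hS hF hc.1 hC hE.2.2
  have hθ : ∀ i ≤ J, ∀ m < i, θ m < θ i := by
    intro i
    induction i with
    | zero =>
      intro _ m hm
      omega
    | succ i ih =>
      intro hi m hm
      have h1 := hF.lt i (by omega)
      rcases Nat.lt_or_ge m i with h2 | h2
      · exact (ih (by omega) m h2).trans h1
      · have h3 : m = i := by omega
        rw [h3]
        exact h1
  have hJ : urun a (s, []) J = urun ua (s, []) T := by
    rw [hF.run J le_rfl, hF.e]
  have hcJ : Compl a s J := by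
    refine ⟨?_, ?_, ?_⟩
    · rintro i hi ⟨h1, h2⟩
      rw [hF.run i hi.le] at h1 h2
      have h3 := hθ J le_rfl i hi
      rw [hF.e] at h3
      rcases hF.st i hi with ⟨h4, -⟩ | ⟨⟨s₁, h4⟩, -⟩
      · refine hc.1 _ h3 ⟨h1, ?_⟩
        unfold IsPop at h2 ⊢
        rw [h4] at h2
        exact h2
      · unfold IsPop at h2
        rw [h4] at h2
        exact absurd h2 (by simp [TAct.kind])
    · rw [hJ]
      exact hc.2.1
    · rw [hJ]
      have h1 := hc.2.2
      unfold IsPop at h1 ⊢
      rcases hS (urun ua (s, []) T).1 with h2 | ⟨s₁, y, T₁, h2, -, -⟩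
      · rw [h2]
        exact h1
      · rw [h2] at h1
        exact absurd h1 (by simp [TAct.kind])
  have hno : ∀ i ≤ J, NoPE a s i := fun i hi m hm => hcJ.1 m (by omega)
  have hσJ : ∀ i ≤ t, σ i ≤ J := fun i hi => by
    rw [← hσt]
    exact hσm hi
  obtain ⟨ρ, hρ1, hρ2⟩ : ∃ ρ : ℕ → ℕ, (∀ i ≤ t, ρ i = σ i) ∧ ∀ i, t < i → ρ i = J + 1 :=
    ⟨fun i => if i ≤ t then σ i else J + 1, fun i hi => if_pos hi,
      fun i hi => if_neg (not_le.2 hi)⟩
  have hρm : Monotone ρ := by
    intro x y hxy
    rcases le_or_gt y t with h1 | h1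
    · rw [hρ1 x (hxy.trans h1), hρ1 y h1]
      exact hσm hxy
    · rw [hρ2 y h1]
      rcases le_or_gt x t with h2 | h2
      · rw [hρ1 x h2]
        exact (hσJ x h2).trans (Nat.le_succ J)
      · rw [hρ2 x h2]
  have hρ0 : ρ 0 = 0 := by
    rw [hρ1 0 (Nat.zero_le _), hσ0]
  have hρt : ρ (2 * t) = J + 1 := hρ2 _ (by omega)
  have hpc : ∀ i < 2 * t, (∀ j, ρ i ≤ j → j < ρ (i + 1) →
        (dact true a (urun (dact true a) ((false, s), []) j).1).kind ≠ some false) ∨
      (∀ j, ρ i ≤ j → j < ρ (i + 1) →
        (dact true a (urun (dact true a) ((false, s), []) j).1).kind ≠ some true) := by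
    intro i _
    rcases Nat.lt_trichotomy i t with hi | hi | hi
    · rw [hρ1 i hi.le, hρ1 (i + 1) hi]
      have h4 := hσJ (i + 1) hi
      rcases hσ i hi with h1 | h1
      · left
        intro m h2 h3
        rw [nt7_run1 a s m (hno m (by omega)), nt7_kind]
        exact h1 m h2 h3
      · right
        intro m h2 h3
        rw [nt7_run1 a s m (hno m (by omega)), nt7_kind]
        exact h1 m h2 h3
    · right
      intro m h2 h3
      rw [hi, hρ1 t le_rfl, hσt] at h2
      rw [hi, hρ2 (t + 1) (by omega)] at h3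
      have h4 : m = J := by omega
      rw [h4, nt7_run1 a s J hcJ.1, nt7_kind, hcJ.2.2]
      simp
    · left
      intro m h2 h3
      rw [hρ2 i hi] at h2
      rw [hρ2 (i + 1) (by omega)] at h3
      omega
  have hlen : J + 1 ≤ 2 * t * ((2 * t * Fintype.card (Bool × S) + 2) *
      Fintype.card (Bool × S)) := by
    refine length_bound2 (dact true a) (false, s) (fun q => q.1 = true) (J + 1) (2 * t) ?_ ?_ ρ
      hρ0 hρm hρt hpc
    · exact congrArg (fun q : (Bool × S) × List Γ => q.1.1) (nt7_run2 a s hcJ 0)
    · intro i hi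
      rw [nt7_run1 a s i (hno i (by omega))]
      simp
  have hJP : J + 1 ≤ P₀ := hlen.trans hP
  have hsch := sched_blocks hP₀
    (fun j => (dact true a (urun (dact true a) ((false, s), []) j).1).kind) ρ (2 * t) hρ0 hρm
    (fun i hi => by
      have h1 : ρ i ≤ ρ (2 * t) := hρm hi
      omega)
    hpc (2 * t) le_rfl N hN
  unfold eT
  rw [tact_run]
  simp only at hsch ⊢
  rw [hρt] at hsch
  obtain ⟨i, hi⟩ := Nat.exists_eq_add_of_le hsch
  rw [hi, nt7_run2 a s hcJ, hJ]
  simp

private theorem nt8_pop (h : SkipM ua a) {s s' : S} (hs : ua s = .stay s') : a s = .stay s' := by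
  rcases h s with h1 | ⟨s1, y, T, h1, -, -⟩
  · rw [h1, hs]
  · rw [hs] at h1
    exact absurd h1 (by simp)

private theorem nt8_kind (a : S → TAct S Γ) (s : S) :
    (dact false a (false, s)).kind = (a s).kind := by
  unfold dact
  rw [if_neg (by simp)]
  cases a s <;> rfl

private theorem nt8_run (a : S → TAct S Γ) (s : S) (j : ℕ) :
    urun (dact false a) ((false, s), []) j =
      ((false, (urun a (s, []) j).1), (urun a (s, []) j).2) := by
  induction j with
  | zero => rfl
  | succ j ih =>
    rw [urun, urun, ih]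
    generalize urun a (s, []) j = c
    obtain ⟨s1, l⟩ := c
    show (dact false a (false, s1)).app l = ((false, ((a s1).app l).1), ((a s1).app l).2)
    unfold dact
    rw [if_neg (by simp)]
    show (match a s1 with
      | .stay s' => TAct.stay (false, s')
      | .push s' y => TAct.push (false, s') y
      | .pop k => TAct.pop (fun z =>
          if (false && z.isNone) = true then (true, s1) else (false, k z))).app l = _
    cases a s1 with
    | stay s' => rfl
    | push s' y => rfl
    | pop k => cases l <;> rfl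

/-- Piece NT-8. -/
theorem skC_skp [Fintype S] {h t j P₀ N : ℕ} (hS : SkipM ua a)
    (hC : SkC ua a h t j) (ht : 1 ≤ t) (hP₀ : 0 < P₀)
    (hP : 2 * t * ((2 * t * Fintype.card (Bool × S) + 2) * Fintype.card (Bool × S)) ≤ P₀)
    (hN : 2 * t * P₀ ≤ N) : SkC ua (skp a (eT a P₀ N)) h t (j + 1) := by
  intro s s' y T hp hc hE
  rcases hS s with h1 | ⟨s1, y1, T1, -, -, h3⟩
  · have h2 := eT_complete hS hC hc hE ht hP₀ hP hN
    refine ⟨nxt a (urun ua (s', []) T).1 (some y), ?_⟩
    unfold skp
    rw [h1, hp]
    show (match eT a P₀ N s' with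
      | some s'' => TAct.stay (nxt a s'' (some y))
      | none => TAct.push s' y) = _
    rw [h2]
  · refine ⟨nxt ua (urun ua (s1, []) T1).1 (some y1), ?_⟩
    unfold skp
    rw [h3]

/-- Piece NT-8. -/
theorem lev_skipM (ua : S → TAct S Γ) (W K P₀ N j : ℕ) : SkipM ua (lev ua W K P₀ N j) := by
  induction j with
  | zero => exact skipM_skp (skipM_refl ua) (e0_sound ua W K)
  | succ j ih => exact skipM_skp ih (eT_sound _ P₀ N)

/-- Piece NT-8. -/
theorem lev_skC [Fintype S] {W : ℕ} [Fintype (Pend Γ W)] (ua : S → TAct S Γ) {K h t P₀ N : ℕ}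
    (hW : h ≤ W) (hK : Fintype.card S * Fintype.card (Pend Γ W) ≤ K) (ht : 1 ≤ t) (hP₀ : 0 < P₀)
    (hP : 2 * t * ((2 * t * Fintype.card (Bool × S) + 2) * Fintype.card (Bool × S)) ≤ P₀)
    (hN : 2 * t * P₀ ≤ N) (j : ℕ) : SkC ua (lev ua W K P₀ N j) h t j := by
  induction j with
  | zero =>
    intro s s' y T hp hc hE
    have h1 : ∀ i ≤ T, len ua s' i ≤ W := by
      intro i hi
      have h2 := (hE.2 i (Nat.zero_le _) hi).2
      have h3 : len ua s' 0 = 0 := rfl
      omega
    have h2 := e0_complete ua W K hc h1 hK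
    refine ⟨nxt ua (urun ua (s', []) T).1 (some y), ?_⟩
    show skp ua (e0 ua W K) s = _
    unfold skp
    rw [hp]
    show (match e0 ua W K s' with
      | some s'' => TAct.stay (nxt ua s'' (some y))
      | none => TAct.push s' y) = _
    rw [h2]
  | succ j ih => exact skC_skp (lev_skipM ua W K P₀ N j) ih ht hP₀ hP hN

/-- Piece NT-8. Acceptance: `exists_fol` (the run of `ua` is constant from `T` on), `fol_pieces`,
`length_bound2`, `sched_blocks`, `tact_run` for `dact false a` (its flag is never set). -/
theorem final_complete [Fintype S] {s : S} {T h t j P₀ N : ℕ} (hS : SkipM ua a)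
    (hC : SkC ua a h t j) (Hs : S → Prop) (hT : Hs (urun ua (s, []) T).1)
    (hT' : ∀ i < T, ¬ Hs (urun ua (s, []) i).1) (hst : ∀ s, Hs s → ua s = .stay s)
    (hno : NoPE ua s T) (hE : Few (len ua s) (Exc (len ua s) h t j) t 0 T) (ht : 1 ≤ t)
    (hP₀ : 0 < P₀) (hP : 2 * t * ((2 * t * Fintype.card (Bool × S) + 2) *
      Fintype.card (Bool × S)) ≤ P₀) (hN : 2 * t * P₀ ≤ N) :
    Hs (trun (tact (dact false a) P₀) ((none, (false, s)), []) N).1.2.2 := by
  have hcT : ∀ i, urun ua (s, []) (T + i) = urun ua (s, []) T := by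
    intro i
    induction i with
    | zero => rfl
    | succ i ih =>
      rw [← add_assoc, urun, ih, hst _ hT]
      rfl
  obtain ⟨J, θ, hF⟩ := exists_fol hS s T (by
    intro x y hx hy hl
    refine ⟨T, hx, hy, ?_⟩
    obtain ⟨i, rfl⟩ := Nat.exists_eq_add_of_le hy.le
    have h1 : len ua s (T + i) = len ua s T := by
      unfold len
      rw [hcT]
    omega)
  obtain ⟨σ, hσm, hσ0, hσt, hσ⟩ := fol_pieces hS hF hno hC hE
  have hθ : ∀ i ≤ J, ∀ m < i, θ m < θ i := by
    intro i
    induction i with
    | zero =>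
      intro _ m hm
      omega
    | succ i ih =>
      intro hi m hm
      have h1 := hF.lt i (by omega)
      rcases Nat.lt_or_ge m i with h2 | h2
      · exact (ih (by omega) m h2).trans h1
      · have h3 : m = i := by omega
        rw [h3]
        exact h1
  have hJ : urun a (s, []) J = urun ua (s, []) T := by
    rw [hF.run J le_rfl, hF.e]
  have haT : a (urun ua (s, []) T).1 = .stay (urun ua (s, []) T).1 := nt8_pop hS (hst _ hT)
  have hcJ : ∀ i, urun a (s, []) (J + i) = urun ua (s, []) T := by
    intro i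
    induction i with
    | zero => exact hJ
    | succ i ih =>
      rw [← add_assoc, urun, ih, haT]
      rfl
  have hpc : ∀ i < t, (∀ j, σ i ≤ j → j < σ (i + 1) →
        (dact false a (urun (dact false a) ((false, s), []) j).1).kind ≠ some false) ∨
      (∀ j, σ i ≤ j → j < σ (i + 1) →
        (dact false a (urun (dact false a) ((false, s), []) j).1).kind ≠ some true) := by
    intro i hi
    rcases hσ i hi with h1 | h1
    · left
      intro m h2 h3
      rw [nt8_run, nt8_kind]
      exact h1 m h2 h3
    · right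
      intro m h2 h3
      rw [nt8_run, nt8_kind]
      exact h1 m h2 h3
  have hlen : J ≤ t * ((t * Fintype.card (Bool × S) + 2) * Fintype.card (Bool × S)) := by
    refine length_bound2 (dact false a) (false, s) (fun q => Hs q.2) J t ?_ ?_ σ hσ0 hσm hσt hpc
    · rw [nt8_run]
      show Hs (urun a (s, []) J).1
      rw [hJ]
      exact hT
    · intro i hi
      rw [nt8_run]
      show ¬ Hs (urun a (s, []) i).1
      rw [hF.run i hi.le]
      refine hT' _ ?_
      have h1 := hθ J le_rfl i hi
      rw [hF.e] at h1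
      exact h1
  have hJP : J ≤ P₀ := by
    refine hlen.trans (le_trans ?_ hP)
    gcongr <;> omega
  have hsch := sched_blocks hP₀
    (fun j => (dact false a (urun (dact false a) ((false, s), []) j).1).kind) σ t hσ0 hσm
    (fun i hi => by
      have h1 : σ i ≤ σ t := hσm hi
      omega)
    hpc t le_rfl N (by
      refine le_trans ?_ hN
      gcongr
      omega)
  rw [tact_run]
  simp only at hsch ⊢
  rw [hσt] at hsch
  obtain ⟨i, hi⟩ := Nat.exists_eq_add_of_le hsch
  rw [hi, nt8_run, hcJ]
  exact hT

/-- Piece NT-8. -/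
theorem final_sound (hS : SkipM ua a) (s : S) (P₀ N : ℕ) :
    ∃ T, (urun ua (s, []) T).1 =
      (trun (tact (dact false a) P₀) ((none, (false, s)), []) N).1.2.2 := by
  rw [tact_run]
  simp only
  rw [nt8_run]
  generalize (sched P₀ _ N).1 = j
  obtain ⟨T, hT⟩ := skipM_run hS (s, []) j
  exact ⟨T, by rw [hT]⟩

end Pool.Agent.Helper17.TX
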