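import Pool.Agent.Helper17.TU.DigEval

set_option autoImplicit false

/-!
Nested turns: the generic evaluator of recursion schemes, with a start which depends on variables.
-/

namespace Pool.Agent.Helper17.TX

open Pool.Agent.Helper17.SL Pool.Agent.Helper17.UL Pool.Agent.Helper17.TU Pool.Agent.Helper6

open WalkFL in
private theorem nt15_walk {β U : Type} [Finite U] (S : List β → Scheme (U → ℕ))
    (hS : SchemeFL β U S) {f r n : List β → ℕ}
    (hf : FL β Empty (fun w _ => f w)) (hr : FL β Empty (fun w _ => r w))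
    (hn : FL β Empty (fun w _ => n w)) :
    ∃ W : List β → (U → ℕ) → ℕ → TI U → ℕ,
      (∀ i, FL β (U ⊕ Unit) (fun w z => W w (z ∘ Sum.inl) (z (Sum.inr ())) i)) ∧
      ∀ (w : List β) (x : U → ℕ) (G : (U → ℕ) → Prop) (dep : (U → ℕ) → ℕ) (b : ℕ),
        (S w).Ok G dep b (r w) → (∀ a, G a → ∀ u, a u ≤ w.length + 1) → G x →
        dep x + 1 ≤ n w → 7 * f w ≤ r w → 1 < f w → r w ^ n w ≤ w.length →
        ∀ pc < r w ^ n w,
          W w x pc = codeIt (walk (S w) (r w) (f w) (n w) ⟨0, 0, 0, 0, 0, x⟩ pc) := by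
  choose R hR hR' using fun i => (rule_on (n := n) hS hf hr i).total
  -- the step function
  let F : TI U ⊕ Bool → List β → ((TI U ⊕ Bool) ⊕ (U ⊕ Unit) → ℕ) → ℕ := fun v w z =>
    Sum.elim
      (fun i => R i w (Sum.elim (fun v => z (Sum.inl (Sum.inl v)))
        (fun _ => z (Sum.inl (Sum.inr false)) / (z (Sum.inl (Sum.inr true)) / r w))))
      (fun t => if t = true then z (Sum.inl (Sum.inr true)) / r w
        else z (Sum.inl (Sum.inr false)) % (z (Sum.inl (Sum.inr true)) / r w)) v
  have hF : ∀ v, FL β ((TI U ⊕ Bool) ⊕ (U ⊕ Unit)) (F v) := by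
    have h1 : FL β ((TI U ⊕ Bool) ⊕ (U ⊕ Unit)) (fun w z =>
        z (Sum.inl (Sum.inr true)) / r w) :=
      FL.div (FL.proj _) (param hr)
    rintro (i | t)
    · refine FL.comp (f := R i) (hR i) (g := fun v w z => Sum.elim
        (fun v => z (Sum.inl (Sum.inl v)))
        (fun _ => z (Sum.inl (Sum.inr false)) / (z (Sum.inl (Sum.inr true)) / r w)) v) ?_
      rintro (v | v)
      · exact FL.proj _
      · exact FL.div (FL.proj _) h1
    · cases t
      · exact FL.mod (FL.proj _) h1
      · exact h1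
  let ini : TI U ⊕ Bool → List β → (U ⊕ Unit → ℕ) → ℕ := fun v w x =>
    Sum.elim (fun i => codeIt ⟨0, 0, 0, 0, 0, fun u => x (Sum.inl u)⟩ i)
      (fun t => if t = true then min (r w ^ n w) (w.length + 1) else x (Sum.inr ())) v
  have hini : ∀ v, FL β (U ⊕ Unit) (ini v) := by
    have h0 : FL β (U ⊕ Unit) (fun _ _ => 0) := (FL.const 0).congr fun w x _ => by simp
    rintro (i | t)
    · cases i
      case a u => exact FL.proj _
      all_goals exact h0
    · cases t
      · exact FL.proj _
      · exact FL.pow (param hr) (param hn)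
  refine ⟨fun w x pc i => ((fun (y : TI U ⊕ Bool → ℕ) (v : TI U ⊕ Bool) =>
      F v w (Sum.elim y (Sum.elim x (fun _ => pc))))^[n w]
        (fun v => ini v w (Sum.elim x (fun _ => pc)))) (Sum.inl i),
    fun i => ?_, ?_⟩
  · refine (FL.iter hF hini (param hn) (Sum.inl i)).congr fun w x _ => ?_
    have hx : Sum.elim (x ∘ Sum.inl) (fun _ => x (Sum.inr ())) = x := by
      funext v
      rcases v with v | v <;> rfl
    dsimp only
    rw [hx]
  · intro w x G dep b hok hbd hg hdep h7 h1 hrn pc hpc
    have hgood : Good S f r n w G dep b := ⟨hok, hbd, h7, h1, hrn, by omega⟩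
    have hr0 := hgood.r0
    have key : ∀ m (it : Item (U → ℕ)) (q : ℕ), Inv S r n w G dep it → q < r w ^ m →
        ∀ i, ((fun (y : TI U ⊕ Bool → ℕ) (v : TI U ⊕ Bool) =>
          F v w (Sum.elim y (Sum.elim x (fun _ => pc))))^[m]
            (Sum.elim (codeIt it) (fun t => if t = true then r w ^ m else q))) (Sum.inl i) =
          codeIt (walk (S w) (r w) (f w) m it q) i := by
      intro m
      induction m with
      | zero => intro it q _ _ i; rfl
      | succ m ih =>
        intro it q hi hq i
        rw [Function.iterate_succ_apply]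
        have e1 : r w ^ (m + 1) / r w = r w ^ m := by
          rw [pow_succ]
          exact Nat.mul_div_cancel _ (by omega)
        have hc : q / r w ^ m < r w := by
          rw [Nat.div_lt_iff_lt_mul (Nat.pow_pos (by omega)), mul_comm, ← pow_succ]
          exact hq
        have hm : q % r w ^ m < r w ^ m := Nat.mod_lt _ (Nat.pow_pos (by omega))
        have e2 : (fun (v : TI U ⊕ Bool) => F v w (Sum.elim (Sum.elim (codeIt it)
            (fun t => if t = true then r w ^ (m + 1) else q)) (Sum.elim x (fun _ => pc)))) =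
            Sum.elim (codeIt (rule (S w) (r w) (f w) it (q / r w ^ m)))
              (fun t => if t = true then r w ^ m else q % r w ^ m) := by
          funext v
          rcases v with v | t
          · change R v w (Sum.elim (codeIt it) (fun _ => q / (r w ^ (m + 1) / r w))) = _
            rw [e1, hR' v w (Sum.elim (codeIt it) (fun _ => q / r w ^ m)) ⟨G, dep, b, hgood, hi, hc⟩]
            rfl
          · change (if t = true then r w ^ (m + 1) / r w else q % (r w ^ (m + 1) / r w)) = _
            rw [e1]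
            rfl
        rw [e2, ih _ _ (hi.rule hgood hc) hm]
        rfl
    funext i
    have h2 := key (n w) ⟨0, 0, 0, 0, 0, x⟩ pc ⟨hg, by dsimp only; omega, by norm_num,
      by norm_num, by norm_num, by norm_num, by norm_num, by norm_num⟩ hpc i
    rw [← h2]
    have e3 : (fun v => ini v w (Sum.elim x (fun _ => pc))) = Sum.elim (codeIt ⟨0, 0, 0, 0, 0, x⟩)
        (fun t => if t = true then r w ^ n w else pc) := by
      funext v
      rcases v with v | t
      · rfl
      · change (if t = true then min (r w ^ n w) (w.length + 1) else pc) = _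
        rw [min_eq_left (by omega)]
        rfl
    dsimp only
    rw [e3]

private theorem nt15_eval {β U : Type} [Finite U] (S : List β → Scheme (U → ℕ))
    (hS : SchemeFL β U S) {b f q r n : List β → ℕ} (hb : FL β Empty (fun w _ => b w))
    (hq : FL β Empty (fun w _ => q w))
    (hf : FL β Empty (fun w _ => f w)) (hr : FL β Empty (fun w _ => r w))
    (hn : FL β Empty (fun w _ => n w)) :
    ∃ out : List β → (U → ℕ) → ℕ, FL β U (fun w x => out w x) ∧
      ∀ (w : List β) (x : U → ℕ) (G : (U → ℕ) → Prop) (dep : (U → ℕ) → ℕ) (bb : ℕ),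
        2 ^ bb = q w ^ b w → (S w).Ok G dep bb (r w) →
        (∀ a, G a → ∀ u, a u ≤ w.length + 1) → G x →
        dep x + 1 ≤ n w → (f w).Prime → 2 ≤ q w → q w ≤ f w →
        2 * (b w * (q w - 1)) < f w - 1 → 7 * f w ≤ r w →
        r w ^ n w ≤ w.length → f w ^ b w ≤ w.length → f w ^ 2 ≤ w.length →
        q w ^ (2 * b w) ≤ w.length → out w x = (S w).val (n w) x := by
  obtain ⟨W, W1, W2⟩ := nt15_walk S hS hf hr hn
  obtain ⟨X, X1, X2⟩ := execq_FL S hS hf hq hb
  obtain ⟨rd, rd1, rd2⟩ := readq_FL hf hq hb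
  let step : Fin 4 → List β → (Fin 4 ⊕ (U ⊕ Unit) → ℕ) → ℕ := fun k w z =>
    X w (fun l => z (Sum.inl l)) (W w (fun u => z (Sum.inr (Sum.inl u)))
      (z (Sum.inr (Sum.inr ())))) k
  have hstep : ∀ k, FL β (Fin 4 ⊕ (U ⊕ Unit)) (step k) := by
    intro k
    have := FL.comp (V := Fin 4 ⊕ (U ⊕ Unit)) (g := Sum.elim
      (fun l => fun (w : List β) (z : Fin 4 ⊕ (U ⊕ Unit) → ℕ) => z (Sum.inl l))
      (fun i => fun w z => W w (fun u => z (Sum.inr (Sum.inl u)))
        (z (Sum.inr (Sum.inr ()))) i)) (X1 k) (by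
      intro v
      rcases v with l | i
      · exact FL.proj _
      · exact FL.comp (g := fun v w z => z (Sum.inr v)) (W1 i)
          (fun _ => FL.proj _))
    exact this
  have hc : FL β U (fun w _ => min (r w ^ n w) (w.length + 1)) :=
    (WalkFL.param hr).pow (WalkFL.param hn)
  have hit := fun k => FL.iterIdx (init := fun _ _ _ => 0) hstep (fun _ => FL.zero) hc k
  let st : List β → (U → ℕ) → ℕ → Fin 4 → ℕ := fun w x m =>
    Nat.rec (motive := fun _ => Fin 4 → ℕ) (fun _ => 0)
      (fun i y k => X w y (W w x i) k) m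
  refine ⟨fun w x => rd w (st w x (min (r w ^ n w) (w.length + 1)) 0), ?_, ?_⟩
  · exact FL.comp (g := fun _ w x => st w x (min (r w ^ n w) (w.length + 1)) 0) rd1
      (fun _ => hit 0)
  · intro w x G dep bb hbb2 hok hG hG0 hdep hp hq2 hqf hfb h7 hrn hfb' hff hbb
    haveI : Fact (f w).Prime := ⟨hp⟩
    have hlong : LongQ w.length (f w) (q w) (b w) := ⟨hp, hqf, hq2, hfb', hff, hbb⟩
    have hr0 : 0 < r w := by have := hp.two_le; omega
    have hwalk := W2 w x G dep bb hok hG hG0 hdep h7 hp.one_lt hrn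
    set it0 : Item (U → ℕ) := ⟨0, 0, 0, 0, 0, x⟩ with hit0
    have key : ∀ m ≤ r w ^ n w, st w x m = fun k => blkNum ((Nat.rec
        (motive := fun _ => Reg (ZMod (f w)) (b w)) 0
        (fun pc R => execq (S w) (f w) (q w) (b w) (walk (S w) (r w) (f w) (n w) it0 pc) R) m :
          Reg (ZMod (f w)) (b w)) k) := by
      intro m
      induction m with
      | zero =>
        intro _
        funext k
        exact blkNum_zero.symm
      | succ m ih =>
        intro hm
        have h1 := ih (by omega)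
        have hW := hwalk m (by omega)
        have hWb : ∀ i, W w x m i ≤ w.length + 1 := fun i =>
          (W1 i).bd w (Sum.elim x (fun _ => m)) (fun v => by
            rcases v with v | v
            · exact hG x hG0 v
            · change m ≤ w.length + 1
              omega)
        have hs : (walk (S w) (r w) (f w) (n w) it0 m).s ≤ w.length + 1 := by
          have := hWb .s
          rw [hW] at this
          exact this
        have ha : ∀ u, (walk (S w) (r w) (f w) (n w) it0 m).a u ≤ w.length + 1 := by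
          intro u
          have := hWb (.a u)
          rw [hW] at this
          exact this
        have h2 : st w x (m + 1) = fun k => X w (st w x m) (W w x m) k := rfl
        rw [h2, h1, hW, X2 w hlong _ _ hs ha]
    have hmin : min (r w ^ n w) (w.length + 1) = r w ^ n w := min_eq_left (by omega)
    have hfin := key (r w ^ n w) le_rfl
    rw [← runq_eq_rec (S w) (f w) (q w) (b w) (r w) (n w) hr0 it0 0,
      runq_gen (S w) hok (by omega) hqf hbb2 hfb h7 (n w) x hG0 hdep 0 0 0 0 0] at hfin
    have hval := (S w).val_lt hok (n w) x hG0 (by omega)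
    simp only [hmin, hfin]
    have hf0 : (0 : Fin 4) = f4 0 := rfl
    have hsg : (sgn (f w) 0 : ZMod (f w)) = 1 := by simp [sgn]
    rw [hf0, Function.update_self, hsg, one_smul]
    have : (0 : Reg (ZMod (f w)) (b w)) (f4 0) = 0 := rfl
    rw [this, zero_add]
    exact rd2 w hlong _ (hbb2 ▸ hval)

/-- Piece NT-15. This is `Helper17.UL.walk_FL` (in `Helper32/UL/Walk.lean`, proof with the public
`WalkFL.rule_on`) with variables `V` for the start `a0`: only the initial values `ini` of the
iteration change. -/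
theorem walkV_FL {β U V : Type} [Finite U] [Finite V] (S : List β → Scheme (U → ℕ))
    (hS : SchemeFL β U S) {f r n : List β → ℕ}
    (hf : FL β Empty (fun w _ => f w)) (hr : FL β Empty (fun w _ => r w))
    (hn : FL β Empty (fun w _ => n w)) {a0 : List β → (V → ℕ) → U → ℕ}
    (ha0 : ∀ u, FL β V (fun w x => a0 w x u)) :
    ∃ W : List β → (V → ℕ) → ℕ → TI U → ℕ,
      (∀ i, FL β (V ⊕ Unit) (fun w z => W w (z ∘ Sum.inl) (z (Sum.inr ())) i)) ∧
      ∀ (w : List β) (x : V → ℕ) (G : (U → ℕ) → Prop) (dep : (U → ℕ) → ℕ) (b : ℕ),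
        (S w).Ok G dep b (r w) → (∀ a, G a → ∀ u, a u ≤ w.length + 1) → G (a0 w x) →
        dep (a0 w x) + 1 ≤ n w → 7 * f w ≤ r w → 1 < f w → r w ^ n w ≤ w.length →
        ∀ pc < r w ^ n w,
          W w x pc = codeIt (walk (S w) (r w) (f w) (n w) ⟨0, 0, 0, 0, 0, a0 w x⟩ pc) := by
  obtain ⟨W, h1, h2⟩ := nt15_walk S hS hf hr hn
  refine ⟨fun w x pc i => W w (a0 w x) pc i, fun i => ?_, ?_⟩
  · refine FL.comp (f := fun w z => W w (z ∘ Sum.inl) (z (Sum.inr ())) i) (h1 i)
      (g := Sum.elim (fun u w z => a0 w (z ∘ Sum.inl) u) (fun _ _ z => z (Sum.inr ()))) ?_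
    rintro (u | u)
    · exact FL.comp (f := fun w x => a0 w x u) (ha0 u) (g := fun v _ z => z (Sum.inl v))
        fun _ => FL.proj _
    · exact FL.proj _
  · intro w x G dep b hok hbd hg hdep h7 hf1 hrn pc hpc
    exact h2 w (a0 w x) G dep b hok hbd hg hdep h7 hf1 hrn pc hpc

/-- Piece NT-15. This is `Helper17.TU.uniform_evalq` (in `TU/DigEval.lean`) with variables `V`
for the start; `execq_FL`, `readq_FL` are used as they are. -/
theorem uniform_evalV {β U V : Type} [Finite U] [Finite V] (S : List β → Scheme (U → ℕ))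
    (hS : SchemeFL β U S) {b f q r n : List β → ℕ} (hb : FL β Empty (fun w _ => b w))
    (hq : FL β Empty (fun w _ => q w))
    (hf : FL β Empty (fun w _ => f w)) (hr : FL β Empty (fun w _ => r w))
    (hn : FL β Empty (fun w _ => n w)) {a0 : List β → (V → ℕ) → U → ℕ}
    (ha0 : ∀ u, FL β V (fun w x => a0 w x u)) :
    ∃ out : List β → (V → ℕ) → ℕ, FL β V (fun w x => out w x) ∧
      ∀ (w : List β) (x : V → ℕ) (G : (U → ℕ) → Prop) (dep : (U → ℕ) → ℕ) (bb : ℕ),
        2 ^ bb = q w ^ b w → (S w).Ok G dep bb (r w) →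
        (∀ a, G a → ∀ u, a u ≤ w.length + 1) → G (a0 w x) →
        dep (a0 w x) + 1 ≤ n w → (f w).Prime → 2 ≤ q w → q w ≤ f w →
        2 * (b w * (q w - 1)) < f w - 1 → 7 * f w ≤ r w →
        r w ^ n w ≤ w.length → f w ^ b w ≤ w.length → f w ^ 2 ≤ w.length →
        q w ^ (2 * b w) ≤ w.length → out w x = (S w).val (n w) (a0 w x) := by
  obtain ⟨out, h1, h2⟩ := nt15_eval S hS hb hq hf hr hn
  refine ⟨fun w x => out w (a0 w x), FL.comp (f := out) h1 (g := fun u w x => a0 w x u) ha0, ?_⟩
  intro w x G dep bb hbb2 hok hG hG0 hdep hp hq2 hqf hfb h7 hrn hfb' hff hbb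
  exact h2 w (a0 w x) G dep bb hbb2 hok hG hG0 hdep hp hq2 hqf hfb h7 hrn hfb' hff hbb

end Pool.Agent.Helper17.TX
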