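import Pool.Agent.Helper17.TX.NCore
import Pool.Agent.Helper17.TV.Final2

set_option autoImplicit false

/-!
Nested turns: the theorems.
-/

namespace Pool.Agent.Helper17.TX

open Pool.Agent.Helper17.SL Pool.Agent.Helper17.UL Pool.Agent.Helper17.TU Pool.Agent.Helper17.TV
  Pool.Agent.Helper6

theorem AcceptsNested.one {α Q Γ : Type} {k : ℕ} {δ : PDTrans α Q Γ k} {q₀ : Q} {F : Set Q}
    {r h : ℕ} {u : List α} (H : AcceptsNested δ q₀ F r h 0 u) : AcceptsNested δ q₀ F r h 1 u := by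
  obtain ⟨T, h1, h2, L, σ, h3, τ, h4, h5, h6, -⟩ := H
  refine ⟨T, h1, h2, L, σ, h3, fun _ => 0, fun _ _ _ => le_rfl, rfl, ?_, fun i hi => ?_⟩
  · rw [← h6, h5]
  · refine Or.inl fun m h7 h8 => ?_
    dsimp only at h7 h8
    omega

theorem nested_turns {α Q Γ : Type} [Fintype α] [Fintype Q] [Fintype Γ] {k : ℕ}
    (δ : PDTrans α Q Γ k) (q₀ : Q) (F : Set Q) (r : ℕ) :
    ∃ (C : ℝ) (Rr : List (Option α) → Prop), 0 < C ∧
      IsL (Option α) Empty (fun w _ => Rr w) ∧
      (∀ (u : List α) (m : ℕ), Rr (padW u m) → ∃ T, AcceptsIn δ q₀ F T u) ∧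
      ∀ (u : List α) (t h m : ℕ), 1 ≤ t →
        Real.exp (C * ((Real.log (u.length + t + 16) + h) *
          (1 + Real.log t / Real.log (Real.log (u.length + t + 16) + h)))) ≤ m →
        AcceptsNested δ q₀ F r h t u → Rr (padW u m) := by
  obtain ⟨κ, K, hκ, hK, hcore⟩ := nested_core δ q₀ F r
  obtain ⟨C0, hC0, hsz⟩ := prmE_size κ K hκ hK
  obtain ⟨C, hC, hch⟩ := choice2 C0 (κ + K + 40) hC0
  have hGE := goodE_good2 (α := α) C0 (κ + K + 40) κ K hC0 le_rfl hsz
  obtain ⟨R0, hR0, hans⟩ := hcore _ _ _ hGE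
  have hGL := good2_isL (α := α) C0 (κ + K + 40) (by omega)
  refine ⟨C, _, hC, prefix_isL (R := fun w => Good2 C0 (κ + K + 40) w ∧ R0 w)
    (hGL.and hR0), ?_, ?_⟩
  · rintro u m ⟨j, h1, h2, h3, h4⟩
    rw [padW_lead] at h1
    rw [padW_length] at h2
    rw [padW_take u m j h1 h2] at h3 h4
    refine (hans u _ h3 ?_).1 h4
    have h5 := h3.2.2.2.2
    rw [padW_lead] at h5
    exact h5
  · intro u t h m ht hm hacc
    obtain ⟨j, y, c1, c2, c3, c4, c5, c6, c7, c8, c9, c10⟩ := hch u.length t h m ht hm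
    have hlen : (padW u (j - u.length)).length = j := by
      rw [padW_length]
      omega
    have hyj : yP j = y := c4.symm
    have hg : Good2 C0 (κ + K + 40) (padW u (j - u.length)) := by
      refine ⟨by rw [hlen]; exact c1, ?_, ?_, ?_, ?_⟩
      · rw [padW_lead, hlen]
        omega
      · rw [hlen, hyj]
        exact c5
      · rw [hlen, hyj]
        exact c6
      · rw [padW_lead, hlen, hyj]
        exact c7
    refine ⟨j, ?_, ?_, ?_⟩
    · rw [padW_lead]
      omega
    · rw [padW_length]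
      exact c3
    · rw [padW_take u m j (by omega) c3]
      refine ⟨hg, (hans u (j - u.length) hg ?_).2 h t ht ?_ ?_ ?_ hacc⟩
      · rw [hlen, hyj]
        exact c7
      · rw [hlen, hyj]
        exact c8
      · rw [hlen, hyj]
        exact c10
      · rw [hlen, hyj]
        exact c9

/-- At most `t` moves: at most `t` pieces of one move each. -/
theorem acceptsIn_nested {α Q Γ : Type} {k : ℕ} {δ : PDTrans α Q Γ k} {q₀ : Q} {F : Set Q}
    {t : ℕ} {u : List α} (r h : ℕ) (H : AcceptsIn δ q₀ F t u) :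
    AcceptsNested δ q₀ F r h t u := by
  classical
  obtain ⟨m, hm, hF⟩ := H
  have hex : ∃ m, ((pdStep δ u)^[m] (q₀, fun _ => 0, [])).1 ∈ F := ⟨m, hF⟩
  have h1 : Nat.find hex ≤ t := (Nat.find_min' hex hF).trans hm
  refine ⟨Nat.find hex, Nat.find_spec hex, fun i hi => Nat.find_min hex hi,
    height δ q₀ u, id, ⟨monotone_id, rfl, fun _ _ => rfl, fun i _ => ?_⟩,
    fun i => min i (Nat.find hex), fun a b hab => min_le_min_right _ hab, Nat.zero_min _,
    min_eq_right h1, fun i _ => ?_⟩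
  · rcases Nat.le_total (height δ q₀ u i) (height δ q₀ u (i + 1)) with h2 | h2
    · refine Or.inl fun j h3 h4 => ?_
      have : j = i := by simp only [id] at h3 h4; omega
      rw [this]
      exact h2
    · refine Or.inr fun j h3 h4 => ?_
      have : j = i := by simp only [id] at h3 h4; omega
      rw [this]
      exact h2
  · rcases Nat.le_total (height δ q₀ u i) (height δ q₀ u (i + 1)) with h2 | h2
    · refine Or.inl fun j h3 h4 h5 => ?_
      have : j = i := by dsimp only at h3 h4; omega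
      rw [this] at h5
      omega
    · refine Or.inr fun j h3 h4 h5 => ?_
      have : j = i := by dsimp only at h3 h4; omega
      rw [this] at h5
      omega

/-- The theorem in the model of the frozen statements. -/
theorem nested_turns_aut {α Q Γ : Type} [Fintype α] [Fintype Q] [Fintype Γ] {k : ℕ}
    (δ : PDTrans α Q Γ k) (q₀ : Q) (F : Set Q) (r : ℕ) :
    ∃ (C : ℝ) (k' : ℕ) (P : Type) (_ : Fintype P) (η : FDTrans (Option α) P k') (p₀ : P)
      (G : Set P),
      (∀ (u : List α) (m : ℕ), FDAccepts η p₀ G (padW u m) → ∃ T, AcceptsIn δ q₀ F T u) ∧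
      ∀ (u : List α) (t h m : ℕ), 1 ≤ t →
        Real.exp (C * ((Real.log (u.length + t + 16) + h) *
          (1 + Real.log t / Real.log (Real.log (u.length + t + 16) + h)))) ≤ m →
        AcceptsNested δ q₀ F r h t u → FDAccepts η p₀ G (padW u m) := by
  obtain ⟨C, Rr, _, hR, h1, h2⟩ := nested_turns δ q₀ F r
  obtain ⟨k', P, hP, η, p₀, G, hA⟩ := Pool.Agent.Helper6.IsL.toAutomaton hR
  exact ⟨C, k', P, hP, η, p₀, G, fun u m h => h1 u m ((hA _).mpr h),
    fun u t h m ht hm hacc => (hA _).mp (h2 u t h m ht hm hacc)⟩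

/-- The same with the case of at most `T` moves stated. -/
theorem nested_turns_aut' {α Q Γ : Type} [Fintype α] [Fintype Q] [Fintype Γ] {k : ℕ}
    (δ : PDTrans α Q Γ k) (q₀ : Q) (F : Set Q) (r : ℕ) :
    ∃ (C : ℝ) (k' : ℕ) (P : Type) (_ : Fintype P) (η : FDTrans (Option α) P k') (p₀ : P)
      (G : Set P),
      (∀ (u : List α) (m : ℕ), FDAccepts η p₀ G (padW u m) → ∃ T, AcceptsIn δ q₀ F T u) ∧
      (∀ (u : List α) (t h m : ℕ), 1 ≤ t →
        Real.exp (C * ((Real.log (u.length + t + 16) + h) *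
          (1 + Real.log t / Real.log (Real.log (u.length + t + 16) + h)))) ≤ m →
        AcceptsNested δ q₀ F r h t u → FDAccepts η p₀ G (padW u m)) ∧
      ∀ (u : List α) (T m : ℕ), 1 ≤ T →
        Real.exp (C * (Real.log (u.length + T + 16) *
          (1 + Real.log T / Real.log (Real.log (u.length + T + 16))))) ≤ m →
        AcceptsIn δ q₀ F T u → FDAccepts η p₀ G (padW u m) := by
  obtain ⟨C, k', P, hP, η, p₀, G, h1, h2⟩ := nested_turns_aut δ q₀ F r
  refine ⟨C, k', P, hP, η, p₀, G, h1, h2, fun u T m hT hm hacc => ?_⟩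
  refine h2 u T 0 m hT ?_ (acceptsIn_nested r 0 hacc)
  simpa using hm

/-- Polylogarithmically many pieces, nesting of bounded rank: logarithmic space. -/
theorem polylog_nested {α Q Γ : Type} [Fintype α] [Fintype Q] [Fintype Γ] {k : ℕ}
    (δ : PDTrans α Q Γ k) (q₀ : Q) (F : Set Q) (r c : ℕ)
    (H : ∀ u : List α, (∃ T, AcceptsIn δ q₀ F T u) →
      ∃ t h : ℕ, (t : ℝ) ≤ Real.log (u.length + 16) ^ c ∧
        (h : ℝ) ≤ c * Real.log (u.length + 16) ∧ AcceptsNested δ q₀ F r h t u) :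
    ∃ (k' : ℕ) (P : Type) (_ : Fintype P) (η : FDTrans α P k') (p₀ : P) (G : Set P),
      ∀ u : List α, FDAccepts η p₀ G u ↔ ∃ T, AcceptsIn δ q₀ F T u := by
  obtain ⟨C, Rr, hC, hR, h1, h2⟩ := nested_turns δ q₀ F r
  obtain ⟨c', hc', hpad⟩ := polylog_pad2 C hC c
  obtain ⟨k', P, hP, η, p₀, G, hA⟩ := Pool.Agent.Helper6.IsL.toAutomaton (unpad' hR c' hc')
  refine ⟨k', P, hP, η, p₀, G, fun u => ⟨fun hu => h1 u _ ((hA u).mpr hu), fun hu => ?_⟩⟩
  obtain ⟨t, h, ht, hh, hacc⟩ := H u hu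
  refine (hA u).mp ?_
  rcases Nat.eq_zero_or_pos t with h0 | h0
  · subst h0
    refine h2 u 1 h _ le_rfl (hpad u.length 1 h le_rfl ?_ hh) hacc.one
    have hn0 : (0 : ℝ) ≤ (u.length : ℝ) := Nat.cast_nonneg _
    have h3 : (1 : ℝ) ≤ Real.log ((u.length : ℝ) + 16) := by
      rw [Real.le_log_iff_exp_le (by linarith)]
      have := Real.exp_one_lt_d9
      linarith
    push_cast
    exact one_le_pow₀ h3
  · exact h2 u t h _ h0 (hpad u.length t h h0 ht hh) hacc

end Pool.Agent.Helper17.TX
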