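import Pool.Agent.Helper17.TX.Df

set_option autoImplicit false

/-!
Nested turns: combinatorics of excursions.
-/

namespace Pool.Agent.Helper17.TX

theorem nt1_base (H : ℕ → ℕ) (h t r : ℕ) (a b : ℕ) (hE : Exc H h t r a b) :
    H a = H b ∧ ∀ m, a ≤ m → m ≤ b → H a ≤ H m := by
  cases r with
  | zero => exact ⟨hE.1, fun m h1 h2 => (hE.2 m h1 h2).1⟩
  | succ r => exact ⟨hE.1, hE.2.1⟩

theorem nt1_cut (H : ℕ → ℕ) (c d c3 d3 m : ℕ) (he : H c = H d)
    (hm : ∀ m, c ≤ m → m ≤ d → H c ≤ H m) (he3 : H c3 = H d3)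
    (hm3 : ∀ m, c3 ≤ m → m ≤ d3 → H c3 ≤ H m) (h1 : c ≤ m) (h2 : m < d) (h3 : c3 ≤ m)
    (h4 : m < d3) : H (max c3 c) = H (min d3 d) ∧
      ∀ m', max c3 c ≤ m' → m' ≤ min d3 d → H (max c3 c) ≤ H m' := by
  rcases le_total c c3 with hc | hc
  · rw [max_eq_left hc]
    refine ⟨?_, fun m' h5 h6 => hm3 m' h5 (le_trans h6 (min_le_left _ _))⟩
    rcases le_total d3 d with hd | hd
    · rw [min_eq_left hd, he3]
    · rw [min_eq_right hd]
      have h5 := hm c3 hc (by omega)
      have h6 := hm3 d (by omega) hd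
      omega
  · rw [max_eq_right hc]
    refine ⟨?_, fun m' h5 h6 => hm m' h5 (le_trans h6 (min_le_right _ _))⟩
    rcases le_total d3 d with hd | hd
    · rw [min_eq_left hd]
      have h5 := hm d3 (by omega) hd
      have h6 := hm3 c hc (by omega)
      omega
    · rw [min_eq_right hd, he]

/-- Piece NT-1. An interval inside an excursion, with equal heights at its ends and not smaller
heights in between, is an excursion of the same rank. Induction on `r`. For `r + 1` replace `τ i`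
by `max c (min (τ i) d)`, and an excursion `[c3, d3]` of rank `r` in a piece, with
`c3 ≤ m < d3`, `c ≤ m < d`, by `[max c3 c, min d3 d]`: the heights at its ends are equal (if
`c3 < c` then `H c3 ≤ H c`, as `c ∈ [c3, d3]`; if `d3 < d` then `H c ≤ H d3`, as `d3 ∈ [c, d]`;
etc.), so it is an excursion by the induction hypothesis. -/
theorem exc_her (H : ℕ → ℕ) (h t r : ℕ) (a b c d : ℕ) (hE : Exc H h t r a b) (hac : a ≤ c)
    (hcd : c ≤ d) (hdb : d ≤ b) (he : H c = H d) (hm : ∀ m, c ≤ m → m ≤ d → H c ≤ H m) :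
    Exc H h t r c d := by
  induction r generalizing a b c d with
  | zero =>
    refine ⟨he, fun m h1 h2 => ⟨hm m h1 h2, ?_⟩⟩
    have h3 := (hE.2 m (by omega) (by omega)).2
    have h4 := (hE.2 c (by omega) (by omega)).1
    omega
  | succ r ih =>
    obtain ⟨hab, hlow, τ, hτ, h0, ht, hp⟩ := hE
    refine ⟨he, hm, fun i => max c (min (τ i) d), ?_, ?_, ?_, ?_⟩
    · intro i j hij
      have := hτ hij
      show max c (min (τ i) d) ≤ max c (min (τ j) d)
      omega
    · show max c (min (τ 0) d) = c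
      omega
    · show max c (min (τ t) d) = d
      omega
    · intro i hi
      have key : ∀ m, max c (min (τ i) d) ≤ m → m < max c (min (τ (i + 1)) d) →
          (∃ c3 d3, τ i ≤ c3 ∧ c3 ≤ m ∧ m < d3 ∧ d3 ≤ τ (i + 1) ∧ Exc H h t r c3 d3) →
          ∃ c4 d4, max c (min (τ i) d) ≤ c4 ∧ c4 ≤ m ∧ m < d4 ∧
            d4 ≤ max c (min (τ (i + 1)) d) ∧ Exc H h t r c4 d4 := by
        rintro m h1 h2 ⟨c3, d3, h3, h4, h5, h6, hE3⟩
        obtain ⟨he3, hm3⟩ := nt1_base H h t r c3 d3 hE3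
        obtain ⟨h7, h8⟩ := nt1_cut H c d c3 d3 m he hm he3 hm3 (by omega) (by omega) h4 h5
        exact ⟨max c3 c, min d3 d, by omega, by omega, by omega, by omega,
          ih c3 d3 (max c3 c) (min d3 d) hE3 (by omega) (by omega) (by omega) h7 h8⟩
      rcases hp i hi with hq | hq
      · left
        intro m h1 h2 h3
        have h1' : max c (min (τ i) d) ≤ m := h1
        have h2' : m < max c (min (τ (i + 1)) d) := h2
        exact key m h1 h2 (hq m (by omega) (by omega) h3)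
      · right
        intro m h1 h2 h3
        have h1' : max c (min (τ i) d) ≤ m := h1
        have h2' : m < max c (min (τ (i + 1)) d) := h2
        exact key m h1 h2 (hq m (by omega) (by omega) h3)

/-- Piece NT-1. Translation of time and height. Induction on `r`; in the `r + 1` case take
`τ' i = min (τ i) (x + b) - x`. -/
theorem exc_shift (H H' : ℕ → ℕ) (h t x n e : ℕ) (hs : ∀ i ≤ n, H (x + i) = H' i + e) (r a b : ℕ)
    (hab : a ≤ b) (hbn : b ≤ n) (hE : Exc H h t r (x + a) (x + b)) : Exc H' h t r a b := by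
  induction r generalizing a b with
  | zero =>
    obtain ⟨h1, h2⟩ := hE
    have ha := hs a (by omega)
    have hb := hs b (by omega)
    refine ⟨by omega, fun m h3 h4 => ?_⟩
    have h5 := h2 (x + m) (by omega) (by omega)
    have h6 := hs m (by omega)
    omega
  | succ r ih =>
    obtain ⟨h1, h2, τ, hτ, h0, ht, hp⟩ := hE
    have ha := hs a (by omega)
    have hb := hs b (by omega)
    have hge : ∀ i, x + a ≤ τ i := fun i => by
      have := hτ (Nat.zero_le i)
      omega
    refine ⟨by omega, fun m h3 h4 => ?_, fun i => τ i - x, ?_, ?_, ?_, ?_⟩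
    · have h5 := h2 (x + m) (by omega) (by omega)
      have h6 := hs m (by omega)
      omega
    · intro i j hij
      have := hτ hij
      show τ i - x ≤ τ j - x
      omega
    · show τ 0 - x = a
      omega
    · show τ t - x = b
      omega
    · intro i hi
      have hgi := hge i
      have hgi1 := hge (i + 1)
      have hle : τ (i + 1) ≤ x + b := by
        have := hτ (show i + 1 ≤ t by omega)
        omega
      have key : ∀ m, τ i ≤ x + m → x + m < τ (i + 1) →
          (∃ c3 d3, τ i ≤ c3 ∧ c3 ≤ x + m ∧ x + m < d3 ∧ d3 ≤ τ (i + 1) ∧ Exc H h t r c3 d3) →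
          ∃ c4 d4, τ i - x ≤ c4 ∧ c4 ≤ m ∧ m < d4 ∧ d4 ≤ τ (i + 1) - x ∧
            Exc H' h t r c4 d4 := by
        rintro m h3 h4 ⟨c3, d3, h5, h6, h7, h8, hE3⟩
        refine ⟨c3 - x, d3 - x, by omega, by omega, by omega, by omega, ?_⟩
        apply ih (c3 - x) (d3 - x) (by omega) (by omega)
        have e1 : x + (c3 - x) = c3 := by omega
        have e2 : x + (d3 - x) = d3 := by omega
        rw [e1, e2]
        exact hE3
      rcases hp i hi with hq | hq
      · left
        intro m h3 h4 h5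
        have h3' : τ i - x ≤ m := h3
        have h4' : m < τ (i + 1) - x := h4
        have h6 := hs m (by omega)
        have h7 := hs (m + 1) (by omega)
        have h8 : x + (m + 1) = x + m + 1 := by omega
        rw [h8] at h7
        exact key m (by omega) (by omega) (hq (x + m) (by omega) (by omega) (by omega))
      · right
        intro m h3 h4 h5
        have h3' : τ i - x ≤ m := h3
        have h4' : m < τ (i + 1) - x := h4
        have h6 := hs m (by omega)
        have h7 := hs (m + 1) (by omega)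
        have h8 : x + (m + 1) = x + m + 1 := by omega
        rw [h8] at h7
        exact key m (by omega) (by omega) (hq (x + m) (by omega) (by omega) (by omega))

/-- Piece NT-1. A part with constant height can be added to the first piece. -/
theorem few_const (H : ℕ → ℕ) (P : ℕ → ℕ → Prop) (t a a' b : ℕ) (hF : Few H P t a b)
    (ha : a' ≤ a) (hc : ∀ m, a' ≤ m → m < a → H m = H (m + 1)) (ht : 1 ≤ t) :
    Few H P t a' b := by
  obtain ⟨τ, hτ, h0, h1, hp⟩ := hF
  refine ⟨fun i => if i = 0 then a' else τ i, ?_, by simp, ?_, ?_⟩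
  · intro i j hij
    show (if i = 0 then a' else τ i) ≤ (if j = 0 then a' else τ j)
    have h2 := hτ hij
    have h3 := hτ (Nat.zero_le j)
    split_ifs <;> omega
  · show (if t = 0 then a' else τ t) = b
    rw [if_neg (by omega)]
    exact h1
  · intro i hi
    show (∀ m, (if i = 0 then a' else τ i) ≤ m → m < (if i + 1 = 0 then a' else τ (i + 1)) →
        H (m + 1) < H m → ∃ c d, (if i = 0 then a' else τ i) ≤ c ∧ c ≤ m ∧ m < d ∧
          d ≤ (if i + 1 = 0 then a' else τ (i + 1)) ∧ P c d) ∨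
      (∀ m, (if i = 0 then a' else τ i) ≤ m → m < (if i + 1 = 0 then a' else τ (i + 1)) →
        H m < H (m + 1) → ∃ c d, (if i = 0 then a' else τ i) ≤ c ∧ c ≤ m ∧ m < d ∧
          d ≤ (if i + 1 = 0 then a' else τ (i + 1)) ∧ P c d)
    rw [if_neg (show ¬ i + 1 = 0 by omega)]
    by_cases hi0 : i = 0
    · subst hi0
      rw [if_pos rfl]
      rcases hp 0 hi with hq | hq
      · left
        intro m h3 h4 h5
        have h6 : τ 0 ≤ m := by
          by_contra h7
          have := hc m h3 (by omega)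
          omega
        obtain ⟨c, d, e1, e2, e3, e4, e5⟩ := hq m h6 h4 h5
        exact ⟨c, d, by omega, e2, e3, e4, e5⟩
      · right
        intro m h3 h4 h5
        have h6 : τ 0 ≤ m := by
          by_contra h7
          have := hc m h3 (by omega)
          omega
        obtain ⟨c, d, e1, e2, e3, e4, e5⟩ := hq m h6 h4 h5
        exact ⟨c, d, by omega, e2, e3, e4, e5⟩
    · rw [if_neg hi0]
      exact hp i hi

private lemma nt2_mono (L : ℕ → ℕ) (p q : ℕ) (h : ∀ i, p ≤ i → i < q → L i ≤ L (i + 1)) (x y : ℕ)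
    (hx : p ≤ x) (hxy : x ≤ y) (hy : y ≤ q) : L x ≤ L y := by
  induction y, hxy using Nat.le_induction with
  | base => exact le_refl _
  | succ y hxy ih => exact (ih (by omega)).trans (h y (by omega) (by omega))

private lemma nt2_anti (L : ℕ → ℕ) (p q : ℕ) (h : ∀ i, p ≤ i → i < q → L (i + 1) ≤ L i) (x y : ℕ)
    (hx : p ≤ x) (hxy : x ≤ y) (hy : y ≤ q) : L y ≤ L x := by
  induction y, hxy using Nat.le_induction with
  | base => exact le_refl _
  | succ y hxy ih => exact (h y (by omega) (by omega)).trans (ih (by omega))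

private lemma nt2_loc (σ : ℕ → ℕ) (a b j : ℕ) (h1 : σ a ≤ j) (h2 : j < σ b) (hσ : Monotone σ) :
    ∃ m, a ≤ m ∧ m < b ∧ σ m ≤ j ∧ j < σ (m + 1) := by
  classical
  have hex : ∃ m, j < σ m := ⟨b, h2⟩
  have hs := Nat.find_spec hex
  have hle : Nat.find hex ≤ b := Nat.find_min' hex h2
  have hgt : a < Nat.find hex := by
    by_contra hc
    have := hσ (not_lt.1 hc)
    omega
  obtain ⟨k, hk⟩ : ∃ k, Nat.find hex = k + 1 := ⟨Nat.find hex - 1, by omega⟩
  have hmin : ¬ j < σ k := Nat.find_min hex (by omega)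
  rw [hk] at hs
  exact ⟨k, by omega, by omega, by omega, hs⟩

private lemma nt2_bd (H L σ : ℕ → ℕ) (T : ℕ) (hσ : Monotone σ) (hL : ∀ m ≤ T, L (σ m) = H m)
    (hm : ∀ m < T, (∀ i, σ m ≤ i → i < σ (m + 1) → L i ≤ L (i + 1)) ∨
      (∀ i, σ m ≤ i → i < σ (m + 1) → L (i + 1) ≤ L i)) (a b j : ℕ) (hab : a ≤ b)
    (hbT : b ≤ T) (h1 : σ a ≤ j) (h2 : j ≤ σ b) :
    ∃ m m', a ≤ m ∧ m ≤ b ∧ a ≤ m' ∧ m' ≤ b ∧ H m ≤ L j ∧ L j ≤ H m' := by
  rcases h2.eq_or_lt with h2 | h2
  · refine ⟨b, b, hab, le_refl _, hab, le_refl _, ?_, ?_⟩ <;> rw [h2, hL b hbT]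
  · obtain ⟨m, h3, h4, h5, h6⟩ := nt2_loc σ a b j h1 h2 hσ
    rcases hm m (by omega) with h7 | h7
    · refine ⟨m, m + 1, h3, h4.le, by omega, h4, ?_, ?_⟩
      · rw [← hL m (by omega)]
        exact nt2_mono L _ _ h7 _ _ (le_refl _) h5 h6.le
      · rw [← hL (m + 1) (by omega)]
        exact nt2_mono L _ _ h7 _ _ h5 h6.le (le_refl _)
    · refine ⟨m + 1, m, by omega, h4, h3, h4.le, ?_, ?_⟩
      · rw [← hL (m + 1) (by omega)]
        exact nt2_anti L _ _ h7 _ _ h5 h6.le (le_refl _)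
      · rw [← hL m (by omega)]
        exact nt2_anti L _ _ h7 _ _ (le_refl _) h5 h6.le

private lemma nt2_few (H L σ : ℕ → ℕ) (T : ℕ) (P P' : ℕ → ℕ → Prop) (t : ℕ) (hσ : Monotone σ)
    (hL : ∀ m ≤ T, L (σ m) = H m)
    (hm : ∀ m < T, (∀ i, σ m ≤ i → i < σ (m + 1) → L i ≤ L (i + 1)) ∨
      (∀ i, σ m ≤ i → i < σ (m + 1) → L (i + 1) ≤ L i)) (a b : ℕ) (hbT : b ≤ T)
    (hP : ∀ c d, a ≤ c → c ≤ d → d ≤ b → P c d → P' (σ c) (σ d))
    (hF : Few H P t a b) : Few L P' t (σ a) (σ b) := by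
  obtain ⟨τ, h1, h2, h3, h4⟩ := hF
  refine ⟨fun i => σ (τ i), fun i j hij => hσ (h1 hij), by simp only [h2], by simp only [h3],
    fun i hi => ?_⟩
  have hb : τ (i + 1) ≤ b := h3 ▸ h1 hi
  have ha : a ≤ τ i := h2 ▸ h1 (Nat.zero_le i)
  rcases h4 i hi with h5 | h5
  · left
    intro j hj1 hj2 hj3
    obtain ⟨m, k1, k2, k3, k4⟩ := nt2_loc σ (τ i) (τ (i + 1)) j hj1 hj2 hσ
    have hfall : H (m + 1) < H m := by
      rcases hm m (by omega) with h7 | h7
      · exact absurd (h7 j k3 k4) (by omega)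
      · have e1 := nt2_anti L _ _ h7 (j + 1) (σ (m + 1)) (by omega) k4 (le_refl _)
        have e2 := nt2_anti L _ _ h7 (σ m) j (le_refl _) k3 k4.le
        rw [hL (m + 1) (by omega)] at e1
        rw [hL m (by omega)] at e2
        omega
    obtain ⟨c, d, c1, c2, c3, c4, c5⟩ := h5 m k1 k2 hfall
    exact ⟨σ c, σ d, hσ c1, (hσ c2).trans k3, lt_of_lt_of_le k4 (hσ c3), hσ c4,
      hP c d (by omega) (by omega) (by omega) c5⟩
  · right
    intro j hj1 hj2 hj3
    obtain ⟨m, k1, k2, k3, k4⟩ := nt2_loc σ (τ i) (τ (i + 1)) j hj1 hj2 hσ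
    have hrise : H m < H (m + 1) := by
      rcases hm m (by omega) with h7 | h7
      · have e1 := nt2_mono L _ _ h7 (j + 1) (σ (m + 1)) (by omega) k4 (le_refl _)
        have e2 := nt2_mono L _ _ h7 (σ m) j (le_refl _) k3 k4.le
        rw [hL (m + 1) (by omega)] at e1
        rw [hL m (by omega)] at e2
        omega
      · exact absurd (h7 j k3 k4) (by omega)
    obtain ⟨c, d, c1, c2, c3, c4, c5⟩ := h5 m k1 k2 hrise
    exact ⟨σ c, σ d, hσ c1, (hσ c2).trans k3, lt_of_lt_of_le k4 (hσ c3), hσ c4,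
      hP c d (by omega) (by omega) (by omega) c5⟩

/-- Piece NT-2. Change of time: `L` goes monotonically from `H m` to `H (m + 1)` on
`[σ m, σ (m + 1)]`. Induction on `r`. In the `r + 1` case take `σ ∘ τ`; a falling step of `L` at
`i ∈ [σ m, σ (m + 1))` gives `H (m + 1) < H m`. -/
theorem exc_time (H L σ : ℕ → ℕ) (T h t : ℕ) (hσ : Monotone σ) (hL : ∀ m ≤ T, L (σ m) = H m)
    (hm : ∀ m < T, (∀ i, σ m ≤ i → i < σ (m + 1) → L i ≤ L (i + 1)) ∨
      (∀ i, σ m ≤ i → i < σ (m + 1) → L (i + 1) ≤ L i)) (r a b : ℕ) (hab : a ≤ b) (hbT : b ≤ T)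
    (hE : Exc H h t r a b) : Exc L h t r (σ a) (σ b) := by
  induction r generalizing a b with
  | zero =>
    obtain ⟨h1, h2⟩ := hE
    refine ⟨by rw [hL a (by omega), hL b hbT, h1], fun j hj1 hj2 => ?_⟩
    obtain ⟨m, m', k1, k2, k3, k4, k5, k6⟩ := nt2_bd H L σ T hσ hL hm a b j hab hbT hj1 hj2
    have e1 := h2 m k1 k2
    have e2 := h2 m' k3 k4
    rw [hL a (by omega)]
    omega
  | succ r ih =>
    obtain ⟨h1, h2, h3⟩ := hE
    refine ⟨by rw [hL a (by omega), hL b hbT, h1], fun j hj1 hj2 => ?_, ?_⟩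
    · obtain ⟨m, m', k1, k2, k3, k4, k5, k6⟩ := nt2_bd H L σ T hσ hL hm a b j hab hbT hj1 hj2
      have e1 := h2 m k1 k2
      rw [hL a (by omega)]
      omega
    · exact nt2_few H L σ T _ _ t hσ hL hm a b hbT
        (fun c d hc hcd hd hP => ih c d hcd (by omega) hP) h3

/-- Piece NT-2. -/
theorem few_time (H L σ : ℕ → ℕ) (T h t t' : ℕ) (hσ : Monotone σ) (hL : ∀ m ≤ T, L (σ m) = H m)
    (hm : ∀ m < T, (∀ i, σ m ≤ i → i < σ (m + 1) → L i ≤ L (i + 1)) ∨
      (∀ i, σ m ≤ i → i < σ (m + 1) → L (i + 1) ≤ L i)) (r a b : ℕ) (hab : a ≤ b) (hbT : b ≤ T)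
    (hE : Few H (Exc H h t r) t' a b) : Few L (Exc L h t r) t' (σ a) (σ b) := by
  exact nt2_few H L σ T _ _ t' hσ hL hm a b hbT
    (fun c d hc hcd hd hP => exc_time H L σ T h t hσ hL hm r c d hcd (by omega) hP) hE

end Pool.Agent.Helper17.TX
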