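import Pool.Agent.Helper17.TX.NumDef

set_option autoImplicit false

/-!
Nested turns: properties of the numeric forms of `skp a e` and `dact st a`.
-/

namespace Pool.Agent.Helper17.TX

open Pool.Agent.Helper17.SL Pool.Agent.Helper17.UL Pool.Agent.Helper17.TU Pool.Agent.Helper17.TV
  Pool.Agent.Helper6

section ok

variable {S Γ : Type} [Fintype Γ] {c : ℕ} {a : S → TAct S Γ} {e : S → Option S}
  {kS : S → Fin (c + 2) → ℕ} {adv : (Fin (c + 2) → ℕ) → ℕ → Fin (c + 2) → ℕ}
  {psh : (Fin (c + 2) → ℕ) → ℕ} {dpop : (Fin (c + 2) → ℕ) → Prop}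
  {ef : (Fin (c + 2) → ℕ) → ℕ} {ev : (Fin (c + 2) → ℕ) → Fin (c + 2) → ℕ} {B : ℕ}

private theorem nt11_rz {f : Fin (c + 2) → ℕ} {s : S}
    (h0 : ∀ i : Fin (c + 2), (i : ℕ) < 3 → kS s i = 0)
    (h : ∀ i : Fin (c + 2), 3 ≤ (i : ℕ) → f i = kS s i) : rz f = kS s := by
  funext i
  unfold rz
  split_ifs with h1
  · exact h i h1
  · exact (h0 i (by omega)).symm

private theorem nt11_nxt (h : NumOK a kS adv psh dpop) (s : S) (y : Option Γ)
    (i : Fin (c + 2)) (hi : 3 ≤ (i : ℕ)) : adv (kS s) (oc y) i = kS (nxt a s y) i := by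
  unfold nxt
  cases hs : a s with
  | stay s' => exact (h.stay s s' hs).2.2 y i hi
  | push s' z => exact (h.push s s' z hs).2.2 y i hi
  | pop k => exact (h.pop s k hs).2.2 y i hi

private theorem nt11_push (h : NumOK a kS adv psh dpop) {s s' : S} {z : Γ}
    (hs : a s = .push s' z) : rz (adv (kS s) 0) = kS s' := by
  refine nt11_rz (h.k0 s') fun i hi => ?_
  exact (h.push s s' z hs).2.2 none i hi

private theorem nt11_psh (h : NumOK a kS adv psh dpop) {s s' : S} {z : Γ}
    (hs : a s = .push s' z) : psh (kS s) ≠ 0 := by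
  rw [(h.push s s' z hs).1]
  exact Nat.succ_ne_zero _

private theorem nt11_some (h : NumOK a kS adv psh dpop) (hE : EOK e kS ef ev) {s s' s'' : S} {z : Γ}
    (hs : a s = .push s' z) (he : e s' = some s'') :
    spsh adv psh ef (kS s) = 0 ∧ ∀ y : ℕ, ∀ i : Fin (c + 2), 3 ≤ (i : ℕ) →
      sadv adv psh ef ev (kS s) y i = kS (nxt a s'' (some z)) i := by
  obtain ⟨h1, h2⟩ := hE.yes s' s'' he
  have h3 := nt11_push h hs
  have hc : psh (kS s) ≠ 0 ∧ ef (rz (adv (kS s) 0)) = 1 := ⟨nt11_psh h hs, by rw [h3, h1]⟩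
  refine ⟨if_pos hc, fun y i hi => ?_⟩
  unfold sadv
  rw [if_pos hc, h3, (h.push s s' z hs).1, nt11_rz (h.k0 s'') h2]
  exact nt11_nxt h s'' (some z) i hi

private theorem nt11_none (h : NumOK a kS adv psh dpop) (hE : EOK e kS ef ev) {s s' : S} {z : Γ}
    (hs : a s = .push s' z) (he : e s' = none) :
    spsh adv psh ef (kS s) = psh (kS s) ∧ ∀ y : ℕ, ∀ i : Fin (c + 2),
      sadv adv psh ef ev (kS s) y i = adv (kS s) y i := by
  have h1 := hE.no s' he
  have h3 := nt11_push h hs
  have hc : ¬ (psh (kS s) ≠ 0 ∧ ef (rz (adv (kS s) 0)) = 1) := by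
    rw [h3]
    exact fun h4 => h1 h4.2
  exact ⟨if_neg hc, fun y i => if_neg hc⟩

private theorem nt11_zero {s : S} (hs : psh (kS s) = 0) :
    spsh adv psh ef (kS s) = 0 ∧ ∀ y : ℕ, ∀ i : Fin (c + 2),
      sadv adv psh ef ev (kS s) y i = adv (kS s) y i := by
  have hc : ¬ (psh (kS s) ≠ 0 ∧ ef (rz (adv (kS s) 0)) = 1) := fun h4 => h4.1 hs
  refine ⟨?_, fun y i => if_neg hc⟩
  unfold spsh
  rw [if_neg hc, hs]

/-- Piece NT-11. After a push `rz (adv (kS s) 0) = kS s'` (`0 = oc none`, `k0`); in the three cases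
of `a s''` the value `adv (kS s'') (oc (some y))` is the code of `nxt a s'' (some y)`. -/
theorem numOK_skp (h : NumOK a kS adv psh dpop) (hE : EOK e kS ef ev) :
    NumOK (skp a e) kS (sadv adv psh ef ev) (spsh adv psh ef) dpop := by
  refine ⟨h.k0, ?_, ?_, ?_⟩
  · intro s s1 hs1
    unfold skp at hs1
    cases hs : a s with
    | stay s' =>
      rw [hs] at hs1
      simp only [TAct.stay.injEq] at hs1
      subst hs1
      obtain ⟨h1, h2, h3⟩ := h.stay s s' hs
      obtain ⟨h4, h5⟩ := nt11_zero (adv := adv) (ef := ef) (ev := ev) h1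
      exact ⟨h4, h2, fun y i hi => by rw [h5, h3 y i hi]⟩
    | push s' z =>
      rw [hs] at hs1
      simp only at hs1
      obtain ⟨h1, h2, h3⟩ := h.push s s' z hs
      cases he : e s' with
      | none =>
        rw [he] at hs1
        simp at hs1
      | some s'' =>
        rw [he] at hs1
        simp only [TAct.stay.injEq] at hs1
        subst hs1
        obtain ⟨h4, h5⟩ := nt11_some h hE hs he
        exact ⟨h4, h2, fun y i hi => h5 _ i hi⟩
    | pop k =>
      rw [hs] at hs1
      simp at hs1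
  · intro s s1 z1 hs1
    unfold skp at hs1
    cases hs : a s with
    | stay s' =>
      rw [hs] at hs1
      simp at hs1
    | push s' z =>
      rw [hs] at hs1
      simp only at hs1
      obtain ⟨h1, h2, h3⟩ := h.push s s' z hs
      cases he : e s' with
      | none =>
        rw [he] at hs1
        simp only [TAct.push.injEq] at hs1
        obtain ⟨rfl, rfl⟩ := hs1
        obtain ⟨h4, h5⟩ := nt11_none h hE hs he
        exact ⟨h4.trans h1, h2, fun y i hi => by rw [h5, h3 y i hi]⟩
      | some s'' =>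
        rw [he] at hs1
        simp at hs1
    | pop k =>
      rw [hs] at hs1
      simp at hs1
  · intro s f hs1
    unfold skp at hs1
    cases hs : a s with
    | stay s' =>
      rw [hs] at hs1
      simp at hs1
    | push s' z =>
      rw [hs] at hs1
      simp only at hs1
      cases he : e s' with
      | none =>
        rw [he] at hs1
        simp at hs1
      | some s'' =>
        rw [he] at hs1
        simp at hs1
    | pop k =>
      rw [hs] at hs1
      simp only [TAct.pop.injEq] at hs1
      subst hs1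
      obtain ⟨h1, h2, h3⟩ := h.pop s k hs
      obtain ⟨h4, h5⟩ := nt11_zero (adv := adv) (ef := ef) (ev := ev) h1
      exact ⟨h4, h2, fun y i hi => by rw [h5, h3 y i hi]⟩

/-- Piece NT-11. -/
theorem numBd_skp (h : NumBd B adv psh) (hv : ∀ x, (∀ i, x i < B) → ∀ i, ev x i < B)
    (hB : 0 < B) : NumBd B (sadv adv psh ef ev) (spsh adv psh ef) := by
  have hrz : ∀ f : Fin (c + 2) → ℕ, (∀ i, f i < B) → ∀ i, rz f i < B := by
    intro f hf i
    unfold rz
    split_ifs
    · exact hf i
    · exact hB
  refine ⟨fun x y hx hy i => ?_, fun x hx => ?_⟩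
  · unfold sadv
    split_ifs
    · exact h.a _ _ (hrz _ (hv _ (hrz _ (h.a x 0 hx hB)))) (h.p x hx) i
    · exact h.a x y hx hy i
  · unfold spsh
    split_ifs
    · exact hB
    · exact h.p x hx

private theorem nt12_rs (hk : ∀ s (i : Fin (c + 2)), (i : ℕ) < 3 → kS s i = 0) (s : Bool × S) :
    rs (kD kS s) = kS s.2 := by
  funext i
  have hi := i.isLt
  by_cases h1 : 3 ≤ (i : ℕ)
  · show (if 3 ≤ (i : ℕ) then kD kS s ⟨i, by omega⟩ else 0) = kS s.2 i
    rw [if_pos h1]
    have h2 : ¬ ((⟨i, by omega⟩ : Fin (c + 1 + 2)) : ℕ) = c + 2 := by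
      show ¬ (i : ℕ) = c + 2
      omega
    exact dif_neg h2
  · show (if 3 ≤ (i : ℕ) then kD kS s ⟨i, by omega⟩ else 0) = kS s.2 i
    rw [if_neg h1]
    exact (hk s.2 i (by omega)).symm

private theorem nt12_bx (s : Bool × S) : kD kS s bx = if s.1 = true then 1 else 0 :=
  dif_pos rfl

private theorem nt12_oc (y : Option Γ) : oc y = 0 ↔ y = none := by
  cases y with
  | none => exact ⟨fun _ => rfl, fun _ => rfl⟩
  | some z => exact ⟨fun h => absurd h (Nat.succ_ne_zero _), fun h => by cases h⟩

/-- The new value if the flag is not set and `a` does not pop. -/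
private theorem nt12_adv {st : Bool} {x : Fin (c + 1 + 2) → ℕ} {s' : S} {y : Option Γ}
    (h0 : x bx = 0) (h1 : ¬ (st = true ∧ dpop (rs x) ∧ oc y = 0))
    (h2 : ∀ i : Fin (c + 2), 3 ≤ (i : ℕ) → adv (rs x) (oc y) i = kS s' i)
    (i : Fin (c + 1 + 2)) (hi : 3 ≤ (i : ℕ)) :
    dadv adv dpop st x (oc y) i = kD kS (false, s') i := by
  unfold dadv kD
  rw [if_neg (by rw [h0]; exact fun h => h rfl)]
  by_cases h3 : (i : ℕ) = c + 2
  · rw [dif_pos h3, dif_pos h3, if_neg h1]
    rfl
  · rw [dif_neg h3, dif_neg h3, if_neg h1]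
    exact h2 ⟨i, by omega⟩ hi

/-- Piece NT-12. -/
theorem numOK_dact (hc : 1 ≤ c) (st : Bool) (h : NumOK a kS adv psh dpop) :
    NumOK (dact st a) (kD kS) (dadv adv dpop st) (dpsh psh) (ddpop dpop) := by
  have hr := nt12_rs h.k0
  have hact : ∀ s : S, dact st a (false, s) = match a s with
      | .stay s' => .stay (false, s')
      | .push s' y => .push (false, s') y
      | .pop k => .pop (fun z => if (st && z.isNone) = true then (true, s) else (false, k z)) :=
    fun s => rfl
  have hstop : ∀ s : S, dact st a (true, s) = .stay (true, s) := fun s => rfl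
  have hx0 : ∀ s : S, kD kS (false, s) bx = 0 := fun s => nt12_bx _
  have hx1 : ∀ s : S, kD kS (true, s) bx ≠ 0 := fun s => by
    rw [nt12_bx]
    exact one_ne_zero
  have hrs : ∀ s : S, rs (kD kS (false, s)) = kS s := fun s => hr (false, s)
  have hpsh : ∀ s : S, dpsh psh (kD kS (false, s)) = psh (kS s) := by
    intro s
    unfold dpsh
    rw [if_neg (by rw [hx0]; exact fun h => h rfl), hrs]
  have hpop : ∀ s : S, ddpop dpop (kD kS (false, s)) ↔ dpop (kS s) := by
    intro s
    unfold ddpop
    rw [hrs]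
    exact ⟨fun h => h.2, fun h => ⟨hx0 s, h⟩⟩
  refine ⟨?_, ?_, ?_, ?_⟩
  · intro s i hi
    unfold kD
    rw [dif_neg (by omega)]
    exact h.k0 _ _ hi
  · rintro ⟨b, s⟩ ⟨b', s'⟩ hs
    cases b with
    | true =>
      rw [hstop, TAct.stay.injEq] at hs
      rw [← hs]
      refine ⟨if_pos (hx1 s), fun h' => hx1 s h'.1, ?_⟩
      intro y i _
      unfold dadv
      rw [if_pos (hx1 s)]
    | false =>
      rw [hact] at hs
      cases hu : a s with
      | stay s1 =>
        rw [hu] at hs
        simp only [TAct.stay.injEq] at hs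
        obtain ⟨h1, h2, h3⟩ := h.stay s s1 hu
        rw [← hs]
        refine ⟨(hpsh s).trans h1, fun h' => h2 ((hpop s).1 h'), ?_⟩
        intro y i hi
        refine nt12_adv (hx0 s) (fun h' => h2 (by rw [← hrs s]; exact h'.2.1)) ?_ i hi
        rw [hrs]
        exact h3 y
      | push s1 z =>
        rw [hu] at hs
        cases hs
      | pop k =>
        rw [hu] at hs
        cases hs
  · rintro ⟨b, s⟩ ⟨b', s'⟩ z hs
    cases b with
    | true =>
      rw [hstop] at hs
      cases hs
    | false =>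
      rw [hact] at hs
      cases hu : a s with
      | stay s1 =>
        rw [hu] at hs
        cases hs
      | push s1 z1 =>
        rw [hu] at hs
        simp only [TAct.push.injEq] at hs
        obtain ⟨h1, h2, h3⟩ := h.push s s1 z1 hu
        rw [← hs.1, ← hs.2]
        refine ⟨(hpsh s).trans h1, fun h' => h2 ((hpop s).1 h'), ?_⟩
        intro y i hi
        refine nt12_adv (hx0 s) (fun h' => h2 (by rw [← hrs s]; exact h'.2.1)) ?_ i hi
        rw [hrs]
        exact h3 y
      | pop k =>
        rw [hu] at hs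
        cases hs
  · rintro ⟨b, s⟩ f hs
    cases b with
    | true =>
      rw [hstop] at hs
      cases hs
    | false =>
      rw [hact] at hs
      cases hu : a s with
      | stay s1 =>
        rw [hu] at hs
        cases hs
      | push s1 z1 =>
        rw [hu] at hs
        cases hs
      | pop k =>
        rw [hu] at hs
        simp only [TAct.pop.injEq] at hs
        obtain ⟨h1, h2, h3⟩ := h.pop s k hu
        rw [← hs]
        refine ⟨(hpsh s).trans h1, (hpop s).2 h2, ?_⟩
        intro y i hi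
        by_cases hy : st = true ∧ y = none
        · obtain ⟨rfl, rfl⟩ := hy
          have hcond : true = true ∧ dpop (rs (kD kS (false, s))) ∧ oc (none : Option Γ) = 0 :=
            ⟨rfl, by rw [hrs]; exact h2, rfl⟩
          unfold dadv
          rw [if_neg (by rw [hx0]; exact fun h => h rfl)]
          simp only [hcond, and_self, if_true]
          simp only [kD, Option.isNone_none, Bool.and_self, if_true]
          split_ifs <;> rfl
        · have e1 : (if (st && y.isNone) = true then (true, s) else (false, k y)) =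
              (false, k y) := by
            rw [if_neg]
            rw [Bool.and_eq_true, Option.isNone_iff_eq_none]
            exact hy
          simp only [e1]
          refine nt12_adv (hx0 s) (fun h' => hy ⟨h'.1, (nt12_oc y).1 h'.2.2⟩) ?_ i hi
          rw [hrs]
          exact h3 y

/-- Piece NT-12. -/
theorem numBd_dact (st : Bool) (h : NumBd B adv psh) (hB : 1 < B) :
    NumBd B (dadv adv dpop st) (dpsh psh) := by
  have hr : ∀ x : Fin (c + 1 + 2) → ℕ, (∀ i, x i < B) → ∀ i, rs x i < B := by
    intro x hx i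
    unfold rs
    split_ifs
    · exact hx _
    · omega
  refine ⟨?_, ?_⟩
  · intro x y hx hy i
    unfold dadv
    split_ifs
    · exact hx _
    · exact hB
    · omega
    · exact hx _
    · exact h.a _ _ (hr x hx) hy _
  · intro x hx
    unfold dpsh
    split_ifs
    · omega
    · exact h.p _ (hr x hx)

end ok

section fl

variable {β : Type} {c : ℕ} {adv : List β → (Fin (c + 2) → ℕ) → ℕ → Fin (c + 2) → ℕ}
  {psh : List β → (Fin (c + 2) → ℕ) → ℕ} {dpop : List β → (Fin (c + 2) → ℕ) → Prop}
  {ef : List β → (Fin (c + 2) → ℕ) → ℕ} {ev : List β → (Fin (c + 2) → ℕ) → Fin (c + 2) → ℕ}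

/-- Piece NT-11. Compare `TV/BNumFL.lean` (`dt7_rs`, `FL.comp`, `FL.ite`). -/
theorem numFL_skp (h : NumFL β adv psh dpop) (hf : FL β (Fin (c + 2)) (fun w x => ef w x))
    (hv : ∀ i, FL β (Fin (c + 2)) (fun w x => ev w x i)) :
    NumFL β (fun w => sadv (adv w) (psh w) (ef w) (ev w)) (fun w => spsh (adv w) (psh w) (ef w))
      dpop := by
  classical
  have hrz : ∀ {f : List β → (Fin (c + 2) → ℕ) → Fin (c + 2) → ℕ},
      (∀ i, FL β (Fin (c + 2)) (fun w x => f w x i)) →
      ∀ i, FL β (Fin (c + 2)) (fun w x => rz (f w x) i) := by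
    intro f hf' i
    by_cases h3 : 3 ≤ (i : ℕ)
    · exact FL.congr (hf' i) (fun w x _ => if_pos h3)
    · exact FL.congr FL.zero (fun w x _ => if_neg h3)
  have h1 : ∀ i, FL β (Fin (c + 2)) (fun w x => rz (adv w x 0) i) := by
    refine hrz fun i => ?_
    refine FL.congr (FL.comp (h.a i) (g := fun s _ x => match s with
      | Sum.inl j => x j
      | Sum.inr _ => 0) ?_) ?_
    · rintro (j | j)
      · exact FL.proj j
      · exact FL.zero
    · intro w x _
      rfl
  have hef : FL β (Fin (c + 2)) (fun w x => ef w (rz (adv w x 0))) :=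
    FL.comp hf (g := fun i w x => rz (adv w x 0) i) h1
  have hcond : IsL β (Fin (c + 2)) (fun w x => psh w x ≠ 0 ∧ ef w (rz (adv w x 0)) = 1) :=
    IsL.and (IsL.not (isL_eq h.p FL.zero))
      (isL_comp (U := Unit) (isL_const 1 ()) (fun _ => hef))
  have hev : ∀ i, FL β (Fin (c + 2)) (fun w x => rz (ev w (rz (adv w x 0))) i) :=
    hrz fun i => FL.comp (hv i) (g := fun i w x => rz (adv w x 0) i) h1
  have hA : ∀ i, FL β (Fin (c + 2))
      (fun w x => adv w (rz (ev w (rz (adv w x 0)))) (psh w x) i) := by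
    intro i
    refine FL.congr (FL.comp (h.a i) (g := fun s w x => match s with
      | Sum.inl j => rz (ev w (rz (adv w x 0))) j
      | Sum.inr _ => psh w x) ?_) ?_
    · rintro (j | j)
      · exact hev j
      · exact h.p
    · intro w x _
      rfl
  refine ⟨fun i => ?_, ?_, h.d⟩
  · refine FL.congr (FL.ite (IsL.lift hcond
      (Sum.inl : Fin (c + 2) → Fin (c + 2) ⊕ Unit) Sum.inl_injective)
      (FL.inl (U := Unit) (hA i)) (h.a i)) ?_
    intro w z _
    show sadv (adv w) (psh w) (ef w) (ev w) (z ∘ Sum.inl) (z (Sum.inr ())) i = _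
    unfold sadv
    split_ifs <;> rfl
  · refine FL.congr (FL.ite hcond FL.zero h.p) ?_
    intro w x _
    show spsh (adv w) (psh w) (ef w) x = _
    unfold spsh
    split_ifs <;> rfl

/-- Piece NT-12. -/
theorem numFL_dact (st : Bool) (h : NumFL β adv psh dpop) :
    NumFL β (fun w => dadv (adv w) (dpop w) st) (fun w => dpsh (psh w))
      (fun w => ddpop (dpop w)) := by
  classical
  have hps := dt7_psh h.p
  have hpo := dt7_pop h.d
  have hb : IsL β (Fin (c + 1 + 2)) (fun _ x => x bx ≠ 0) := IsL.not (IsL.isZero bx)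
  have lft : ∀ {T : List β → (Fin (c + 1 + 2) → ℕ) → Prop},
      IsL β (Fin (c + 1 + 2)) T →
      IsL β (Fin (c + 1 + 2) ⊕ Unit) (fun w z => T w (z ∘ Sum.inl)) := fun h =>
    IsL.lift h (Sum.inl : Fin (c + 1 + 2) → Fin (c + 1 + 2) ⊕ Unit) Sum.inl_injective
  refine ⟨?_, ?_, ?_⟩
  · intro i
    have hx : FL β (Fin (c + 1 + 2) ⊕ Unit) (fun _ z => z (Sum.inl i)) := FL.proj _
    have hb' := lft hb
    have hy0 : IsL β (Fin (c + 1 + 2) ⊕ Unit) (fun _ z => z (Sum.inr ()) = 0) :=
      IsL.isZero _
    have hc' : IsL β (Fin (c + 1 + 2) ⊕ Unit) (fun w z =>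
        dpop w (rs (z ∘ Sum.inl)) ∧ z (Sum.inr ()) = 0) := IsL.and (lft hpo) hy0
    have hrs : ∀ j : Fin (c + 2), FL β (Fin (c + 1 + 2) ⊕ Unit) (fun _ z =>
        rs (z ∘ Sum.inl) j) := fun j => FL.inl (U := Unit) (dt7_rs j)
    have hA : ∀ j : Fin (c + 2), FL β (Fin (c + 1 + 2) ⊕ Unit) (fun w z =>
        adv w (rs (z ∘ Sum.inl)) (z (Sum.inr ())) j) := by
      intro j
      refine FL.congr (FL.comp (h.a j) (g := fun s _ z => match s with
        | Sum.inl j => rs (z ∘ Sum.inl) j
        | Sum.inr _ => z (Sum.inr ())) ?_) ?_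
      · rintro (j' | j')
        · exact hrs j'
        · exact FL.proj _
      · intro w z _
        rfl
    by_cases hi : (i : ℕ) = c + 2
    · cases st with
      | false =>
        refine FL.congr (FL.ite hb' hx FL.zero) ?_
        intro w z _
        simp only [dadv, hi, dif_pos, Function.comp_apply, Bool.false_eq_true, false_and,
          if_false]
      | true =>
        refine FL.congr (FL.ite hb' hx (FL.ite hc' FL.one FL.zero)) ?_
        intro w z _
        simp only [dadv, hi, dif_pos, Function.comp_apply, true_and]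
    · cases st with
      | false =>
        refine FL.congr (FL.ite hb' hx (hA ⟨i, by omega⟩)) ?_
        intro w z _
        simp only [dadv, hi, dif_neg, Function.comp_apply, Bool.false_eq_true, false_and,
          if_false, not_false_eq_true]
      | true =>
        refine FL.congr (FL.ite hb' hx (FL.ite hc' hx (hA ⟨i, by omega⟩))) ?_
        intro w z _
        simp only [dadv, hi, dif_neg, Function.comp_apply, true_and, not_false_eq_true]
  · refine FL.congr (FL.ite hb FL.zero hps) ?_
    intro w x _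
    unfold dpsh
    split_ifs <;> rfl
  · exact IsL.and (IsL.isZero bx) hpo

end fl

end Pool.Agent.Helper17.TX
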