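import Pool.Agent.Helper17.TX.Core3
import Pool.Agent.Helper17.TX.Num
import Pool.Agent.Helper17.TX.E0N

set_option autoImplicit false

/-!
Nested turns: numeric form of the machines which skip excursions.
-/

namespace Pool.Agent.Helper17.TX

open Pool.Agent.Helper17.SL Pool.Agent.Helper17.UL Pool.Agent.Helper17.TU Pool.Agent.Helper17.TV
  Pool.Agent.Helper6

theorem nt17_step {S Γ : Type} (a : S → TAct S Γ) (P₀ t : ℕ) (p : Option Bool) (s : S)
    (l : List Γ) :
    (tact (bact a 0) P₀ t (p, (s, ⟨[], Nat.zero_le _⟩))).app l =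
      ((((tact a P₀ t (p, s)).app l).1.1, (((tact a P₀ t (p, s)).app l).1.2,
        ⟨[], Nat.zero_le _⟩)), ((tact a P₀ t (p, s)).app l).2) := by
  unfold tact bact
  generalize (if t % P₀ = 0 then none else p) = d
  cases a s with
  | stay s' => rfl
  | push s' y =>
    have h : ¬ (y :: ([] : List Γ)).length ≤ 0 := by simp
    simp only [dif_neg h]
    by_cases hd : d = some false
    · simp only [if_pos hd]
      rfl
    · simp only [if_neg hd]
      rfl
  | pop k =>
    simp only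
    by_cases hd : d = some true
    · simp only [if_pos hd]
      rfl
    · simp only [if_neg hd]
      rfl

/-- Piece NT-17. The buffered machine with the buffer length `0` is the machine itself (induction
on `N`; all buffers are empty). -/
theorem bact_zero_run {S Γ : Type} (a : S → TAct S Γ) (P₀ : ℕ) (s : S) (N : ℕ) :
    trun (tact (bact a 0) P₀) ((none, (s, ⟨[], Nat.zero_le _⟩)), []) N =
      (((trun (tact a P₀) ((none, s), []) N).1.1,
        ((trun (tact a P₀) ((none, s), []) N).1.2, ⟨[], Nat.zero_le _⟩)),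
        (trun (tact a P₀) ((none, s), []) N).2) := by
  induction N with
  | zero => rfl
  | succ N ih =>
    show (tact (bact a 0) P₀ N (trun (tact (bact a 0) P₀)
        ((none, (s, ⟨[], Nat.zero_le _⟩)), []) N).1).app
      (trun (tact (bact a 0) P₀) ((none, (s, ⟨[], Nat.zero_le _⟩)), []) N).2 = _
    rw [ih]
    exact nt17_step a P₀ N _ _ _

/-- The start of the numeric form of the timed machine. -/
private def nt18_st {c : ℕ} (x : Fin (c + 2) → ℕ) (i : Fin (c + 1 + 1 + 2)) : ℕ :=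
  if h : (i : ℕ) < c + 2 ∧ 3 ≤ (i : ℕ) then x ⟨i, h.1⟩ else 0

private theorem nt18_st_FL {β : Type} {c : ℕ} (i : Fin (c + 1 + 1 + 2)) :
    FL β (Fin (c + 2)) (fun _ x => nt18_st x i) := by
  by_cases h : (i : ℕ) < c + 2 ∧ 3 ≤ (i : ℕ)
  · refine FL.congr (FL.proj (⟨i, h.1⟩ : Fin (c + 2))) ?_
    intro w x _
    exact dif_pos h
  · refine FL.congr FL.zero ?_
    intro w x _
    exact dif_neg h

private theorem nt18_kD_lt {S : Type} {c B : ℕ} {kS : S → Fin (c + 2) → ℕ}
    (h : ∀ s i, kS s i < B) (hB : 1 < B) (s : Bool × S) (i : Fin (c + 1 + 2)) :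
    kD kS s i < B := by
  unfold kD
  split_ifs
  · exact hB
  · omega
  · exact h _ _

private theorem nt18_kB_lt {S Γ : Type} [Fintype Γ] {c N B : ℕ} {kS : S → Fin (c + 2) → ℕ}
    (h : ∀ s i, kS s i < B) (hN : N < B) (hB : 2 < B)
    (v : TV N (Option Bool × BCtl S Γ 0)) (i : Fin (c + 1 + 2)) : kB kS v i < B := by
  unfold kB
  split_ifs
  · have h1 := bufc_lt v.2.2.2.2.1
    have h2 : (v.2.2.2.2.1 : List Γ).length = 0 := Nat.le_zero.1 v.2.2.2.2.2
    rw [h2, pow_zero] at h1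
    omega
  · have := v.1.isLt
    omega
  · have := v.2.1.isLt
    omega
  · rcases v.2.2.1 with _ | _ | _ <;> simp only [dirc] <;> omega
  · exact h _ _

private theorem nt18_start {S Γ : Type} [Fintype Γ] {c N : ℕ} {kS : S → Fin (c + 2) → ℕ}
    (s : S) : kB (Γ := Γ) (kD kS) (tval N 0 (((none, ((false, s), ⟨[], Nat.zero_le _⟩)), []) :
      (Option Bool × BCtl (Bool × S) Γ 0) × List Γ)) = nt18_st (kS s) := by
  funext i
  unfold kB nt18_st
  by_cases h1 : (i : ℕ) = c + 1 + 2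
  · rw [dif_pos h1, dif_neg (by omega)]
    rfl
  · rw [dif_neg h1]
    by_cases h2 : (i : ℕ) = 0
    · rw [if_pos h2, dif_neg (by omega)]
      exact Nat.zero_min _
    · rw [if_neg h2]
      by_cases h3 : (i : ℕ) = 1
      · rw [if_pos h3, dif_neg (by omega)]
        exact Nat.zero_min _
      · rw [if_neg h3]
        by_cases h4 : (i : ℕ) = 2
        · rw [if_pos h4, dif_neg (by omega)]
          rfl
        · rw [if_neg h4]
          unfold kD
          by_cases h5 : (i : ℕ) = c + 2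
          · rw [dif_pos h5, dif_neg (by omega)]
            rfl
          · have := i.isLt
            rw [dif_neg h5, dif_pos (by omega)]
            rfl

/-- Piece NT-18. Apply `core3` (with `c + 1 + 1`) to the numeric form of the timed machine
`tact (bact (dact st a) 0) P₀`, `P₀ = 2 ^ (κ y)`: `badv`, `bpsh`, `bDoPop` of `TV/BNum.lean` for
`dadv (adv w) (dpop w) st`, `dpsh (psh w)`, `ddpop (dpop w)` with `Θ = 1` (capped by
`w.length + 1` as `advW` in `TV.core2`; `badv_FL`, `bpsh_FL`, `bpop_isL`, `badv_lt`, `bpsh_lt`,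
`badv_eq`, `bpsh_eq`, `bpop_eq` with `W = 0`), code `kv = kB (kD kS)`, start
`kB (kD kS) (tval N 0 (..)) = fun i => if h : (i : ℕ) < c + 2 ∧ 3 ≤ (i : ℕ) then kS s ⟨i, _⟩
else 0`; then `bact_zero_run`, `tact_uni`. -/
theorem eT_num {β : Type} {c κ K : ℕ} (hc : 1 ≤ c) (hκ0 : 0 < κ)
    (hK : K = Fintype.card (CI (c + 1 + 1)))
    {yF eF : List β → ℕ} {Good : List β → Prop} (hGE : GoodE κ K yF eF Good) (st : Bool) (G : ℕ)
    (hG : G ≤ κ) {adv : List β → (Fin (c + 2) → ℕ) → ℕ → Fin (c + 2) → ℕ}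
    {psh : List β → (Fin (c + 2) → ℕ) → ℕ} {dpop : List β → (Fin (c + 2) → ℕ) → Prop}
    (h : NumFL β adv psh dpop) :
    ∃ out : List β → (Fin (c + 2) → ℕ) → Fin (c + 1 + 2) → ℕ,
      (∀ i, FL β (Fin (c + 2)) (fun w x => out w x i)) ∧
      (∀ w, Good w → ∀ x i, out w x i < qB κ (yF w)) ∧
      ∀ w, Good w → ∀ (S Γ : Type) [Fintype Γ], Fintype.card Γ = G → ∀ (a : S → TAct S Γ)
        (kS : S → Fin (c + 2) → ℕ), NumOK a kS (adv w) (psh w) (dpop w) →
        NumBd (qB κ (yF w)) (adv w) (psh w) → (∀ s i, kS s i < qB κ (yF w)) →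
        ∀ (s : S) (i : Fin (c + 1 + 2)), 3 ≤ (i : ℕ) →
          out w (kS s) i = kD kS (trun (tact (dact st a) (2 ^ (κ * yF w)))
            ((none, (false, s)), []) (2 ^ (κ * yF w) * qM (yF w) ^ eF w)).1.2 i := by
  classical
  have hK0 : 0 < K := by
    rw [hK]
    have : Nonempty (CI (c + 1 + 1)) := ⟨CI.ph⟩
    exact Fintype.card_pos
  obtain ⟨-, -, -, -, -, -, -, -, -, -, ⟨gP, fP, eP⟩, -, ⟨gN, fN, eN⟩⟩ :=
    flg_params' hκ0 hK0 hGE
  have hD := numFL_dact (β := β) st h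
  let advW : List β → (Fin (c + 1 + 1 + 2) → ℕ) → ℕ → Fin (c + 1 + 1 + 2) → ℕ :=
    fun w x y i => min (badv (dadv (adv w) (dpop w) st) (dpsh (psh w)) (ddpop (dpop w))
      (gN w) (gP w) 1 G (w.length + 1) x y i) (w.length + 1)
  let pshW : List β → (Fin (c + 1 + 1 + 2) → ℕ) → ℕ :=
    fun w => bpsh (dpsh (psh w)) (gP w) 1 G (w.length + 1)
  let popW : List β → (Fin (c + 1 + 1 + 2) → ℕ) → Prop :=
    fun w => bDoPop (ddpop (dpop w)) (gP w)
  have hFL : NumFL β advW pshW popW :=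
    ⟨fun i => badv_FL hD.a hD.p hD.d fN fP FL.one G i, bpsh_FL hD.p fP FL.one G,
      bpop_isL hD.d fP⟩
  obtain ⟨out, hout, hlt, heq⟩ := core3 hκ0 hK hGE hFL
  refine ⟨fun w x i => out w (nt18_st x) ⟨i, by omega⟩, fun i => ?_, fun w hw x i => ?_,
    fun w hw S Γ _ hΓ a kS hOK hBd hkS s i hi => ?_⟩
  · exact FL.comp (hout ⟨i, by omega⟩) (g := fun j _ x => nt18_st x j) nt18_st_FL
  · exact hlt w hw _ _
  have hy4 := hGE.y4 w hw
  have hcap := hGE.cap w hw
  have hlenK := hGE.len w hw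
  obtain ⟨x1, x2, x3, x4, x5, x6, -⟩ := prmE_exact κ K (yF w) (eF w) hκ0 hK0 hy4 hcap
  have s5 : qB κ (yF w) + 2 ^ (κ * yF w) * qM (yF w) ^ (eF w + 1) ≤ w.length :=
    hGE.sz w hw _ (by simp [sizesE])
  have hBlen : qB κ (yF w) ≤ w.length := (Nat.le_add_right _ _).trans s5
  have hnum := numOK_dact hc st hOK
  have hnbd := numBd_dact (dpop := dpop w) st hBd (by omega)
  have EP := eP w hw
  have EN := eN w hw
  have hkD : ∀ (s : Bool × S) (i : Fin (c + 1 + 2)), kD kS s i < qB κ (yF w) :=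
    nt18_kD_lt hkS (by omega)
  have hkB : ∀ (v : TV (2 ^ (κ * yF w) * qM (yF w) ^ eF w)
      (Option Bool × BCtl (Bool × S) Γ 0)) (i : Fin (c + 1 + 1 + 2)),
      kB (kD kS) v i < qB κ (yF w) := nt18_kB_lt hkD x3 (by omega)
  have hW : (Fintype.card Γ + 1) ^ (0 + 1) ≤ w.length + 1 := by
    rw [zero_add, pow_one, hΓ]
    omega
  have key := heq w hw (Option Bool × BCtl (Bool × S) Γ 0) Γ
    (tact (bact (dact st a) 0) (2 ^ (κ * yF w))) (kB (kD kS))
    (fun v => by simp [kB]) (fun v => by simp [kB])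
    (fun v y => by
      have h1 := badv_eq (N := 2 ^ (κ * yF w) * qM (yF w) ^ eF w) (W := 0) (by omega) hnum
        (2 ^ (κ * yF w)) (w.length + 1) hW v y
      funext i
      have h2 := hkB (vadv (tact (bact (dact st a) 0) (2 ^ (κ * yF w))) v y) i
      rw [h1] at h2 ⊢
      simp only [advW, EN, EP, ← hΓ]
      rw [pow_zero] at h2 ⊢
      rw [min_eq_left (by omega)])
    (fun v => by
      have h1 := bpsh_eq (N := 2 ^ (κ * yF w) * qM (yF w) ^ eF w) (W := 0) (by omega) hnum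
        (2 ^ (κ * yF w)) (w.length + 1) hW v
      rw [← h1]
      simp only [pshW, EP, ← hΓ, pow_zero])
    (fun v => by
      have h1 := bpop_eq (N := 2 ^ (κ * yF w) * qM (yF w) ^ eF w) (W := 0) (by omega) hnum
        (2 ^ (κ * yF w)) v
      rw [← h1]
      simp only [popW, EP])
    ⟨fun x y hx hy i => lt_of_le_of_lt (min_le_left _ _)
        (badv_lt hnbd.a (by rw [EN]; exact x3) (by omega) Nat.one_pos (by omega) x y hx hy i),
      fun x _ => bpsh_lt (by omega) x⟩
    hkB (fun s => tact_uni _ _ _) (none, ((false, s), ⟨[], Nat.zero_le _⟩)) ⟨i, by omega⟩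
  rw [nt18_start] at key
  refine key.trans ?_
  have hi2 := i.isLt
  unfold kB
  rw [dif_neg (by simp only; omega), if_neg (by simp only; omega), if_neg (by simp only; omega),
    if_neg (by simp only; omega)]
  simp only [tval]
  rw [bact_zero_run]

/-- The numeric form of `eT` from the numeric form of the timed machine. -/
private theorem nt19_eok {S Γ : Type} {c : ℕ} (hc : 1 ≤ c) (a : S → TAct S Γ) (P₀ N : ℕ)
    (kS : S → Fin (c + 2) → ℕ) (o : (Fin (c + 2) → ℕ) → Fin (c + 1 + 2) → ℕ)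
    (h : ∀ (s : S) (i : Fin (c + 1 + 2)), 3 ≤ (i : ℕ) → o (kS s) i =
      kD kS (trun (tact (dact true a) P₀) ((none, (false, s)), []) N).1.2 i) :
    EOK (eT a P₀ N) kS (fun x => o x ⟨c + 2, by omega⟩)
      (fun x i => o x ⟨(i : ℕ), by omega⟩) := by
  refine ⟨fun s hs => ?_, fun s s'' hs => ?_⟩
  · have h1 := h s ⟨c + 2, by omega⟩ (by change 3 ≤ c + 2; omega)
    change o (kS s) ⟨c + 2, by omega⟩ ≠ 1
    rw [h1]
    unfold eT at hs
    split_ifs at hs with h2
    unfold kD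
    rw [dif_pos rfl, if_neg h2]
    exact zero_ne_one
  · unfold eT at hs
    split_ifs at hs with h2
    rw [Option.some.injEq] at hs
    refine ⟨?_, fun i hi => ?_⟩
    · have h1 := h s ⟨c + 2, by omega⟩ (by change 3 ≤ c + 2; omega)
      change o (kS s) ⟨c + 2, by omega⟩ = 1
      rw [h1]
      unfold kD
      rw [dif_pos rfl, if_pos h2]
    · have h1 := h s ⟨(i : ℕ), by omega⟩ hi
      change o (kS s) ⟨(i : ℕ), by omega⟩ = kS s'' i
      rw [h1]
      have h3 : ¬ ((i : ℕ) = c + 2) := by have := i.isLt; omega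
      unfold kD
      rw [dif_neg h3, hs]

/-- Piece NT-19. Induction on `j`: level `0` is `skp` of `uact` with `e0` (`numOK`, `nadv_FL`,
`npush_FL`, `nDoPop_isL`, `nadv_lt`, `npush_lt` as in `TV.core2`; `numOK_skp`, `numFL_skp`,
`numBd_skp`, `eOK0`, `ev0_lt`, `nrn_FL`, `theta_le`), level `j + 1` is `skp` of level `j` with
`eT` (`eT_num` with `st = true`: `ef w x = out w x (flag)`, `ev w x i = out w x i`). -/
theorem lev_num {α Q Γ : Type} [Fintype α] [Fintype Q] [Fintype Γ] {k R : ℕ}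
    [Fintype (Pend Γ R)] (δ : PDTrans α Q Γ k) (F : Q → Bool) {κ K : ℕ}
    (hκ : 2 * (Fintype.card Q * (Fintype.card (Pend Γ R) * (Fintype.card Γ + 1)) + k +
      Fintype.card Γ + 2) + 8 + Fintype.card Q + Fintype.card (Pend Γ R) + 12 ≤ κ)
    (hK : K = Fintype.card (CI (k + 4 + 1 + 1))) {yF eF : List (Option α) → ℕ}
    {Good : List (Option α) → Prop} (hGE : GoodE κ K yF eF Good) (j : ℕ) :
    ∃ (adv : List (Option α) → (Fin (k + 4 + 2) → ℕ) → ℕ → Fin (k + 4 + 2) → ℕ)
      (psh : List (Option α) → (Fin (k + 4 + 2) → ℕ) → ℕ)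
      (dpop : List (Option α) → (Fin (k + 4 + 2) → ℕ) → Prop),
      NumFL (Option α) adv psh dpop ∧
      ∀ (u : List α) (m : ℕ), Good (padW u m) → u.length + 2 ≤ 2 ^ yF (padW u m) →
        NumOK (lev (uact (n := u.length) (R := R) δ F u) (yF (padW u m))
          (2 ^ (κ * yF (padW u m))) (2 ^ (κ * yF (padW u m)))
          (2 ^ (κ * yF (padW u m)) * qM (yF (padW u m)) ^ eF (padW u m)) j) kU
          (adv (padW u m)) (psh (padW u m)) (dpop (padW u m)) ∧
        NumBd (qB κ (yF (padW u m))) (adv (padW u m)) (psh (padW u m)) := by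
  classical
  have hκ0 : 0 < κ := by omega
  have hK0 : 0 < K := by
    rw [hK]
    haveI : Nonempty (CI (k + 4 + 1 + 1)) := ⟨CI.ph⟩
    exact Fintype.card_pos
  -- the parameters
  have hNOK : ∀ (u : List α) (m : ℕ), Good (padW u m) → u.length + 2 ≤ 2 ^ yF (padW u m) →
      NOK Q Γ u.length R (2 ^ (κ * yF (padW u m)) * qM (yF (padW u m)) ^ eF (padW u m))
        (qB κ (yF (padW u m))) := by
    intro u m hgood hn2
    obtain ⟨x1, x2, x3, x4, x5, x6, -⟩ := prmE_exact κ K (yF (padW u m)) (eF (padW u m)) hκ0 hK0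
      (hGE.y4 _ hgood) (hGE.cap _ hgood)
    refine ⟨x3, ?_, ?_, ?_, ?_, ?_⟩ <;> omega
  have hB1 : ∀ (u : List α) (m : ℕ), Good (padW u m) → u.length + 2 ≤ 2 ^ yF (padW u m) →
      0 < qB κ (yF (padW u m)) ∧ Fintype.card Γ < qB κ (yF (padW u m)) := by
    intro u m hgood hn2
    have h1 := hNOK u m hgood hn2
    have h2 := h1.h2
    have h3 := h1.hG
    exact ⟨by omega, by omega⟩
  induction j with
  | zero =>
    let nW : List (Option α) → ℕ := fun w => (w.takeWhile Option.isSome).length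
    have hnW : FL (Option α) Empty (fun w _ => nW w) := lead_FL
    obtain ⟨-, -, -, -, -, -, -, -, -, -, ⟨gP, fP, eP⟩, -, ⟨gN, fN, eN⟩⟩ :=
      flg_params' hκ0 hK0 hGE
    have hThG : FLG Good (fun w => (Fintype.card Γ + 1) ^ yF w) := by
      refine (FLG.const (Fintype.card Γ + 1) fun w hw => ?_).pow hGE.yF fun w hw => ?_
      · have := hGE.len w hw
        omega
      · have h1 := (trn19_pow_le hκ0 hGE hw).2.1
        have h2 := theta_le (Fintype.card Γ) κ (yF w) (by have := hGE.y4 w hw; omega) (by omega)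
        have h3 : (Fintype.card Γ + 1) ^ yF w ≤ (Fintype.card Γ + 1) ^ (yF w + 1) :=
          Nat.pow_le_pow_right (by omega) (by omega)
        omega
    obtain ⟨gT, fT, eT'⟩ := hThG
    obtain ⟨adv, hadv⟩ : ∃ adv : List (Option α) → (Fin (k + 4 + 2) → ℕ) → ℕ →
        Fin (k + 4 + 2) → ℕ, adv = fun w => nadv δ F R (npW gN gP nW w) := ⟨_, rfl⟩
    obtain ⟨psh, hpsh⟩ : ∃ psh : List (Option α) → (Fin (k + 4 + 2) → ℕ) → ℕ,
        psh = fun w => npush (Γ := Γ) R (npW gN gP nW w) := ⟨_, rfl⟩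
    obtain ⟨dpop, hdpop⟩ : ∃ dpop : List (Option α) → (Fin (k + 4 + 2) → ℕ) → Prop,
        dpop = fun w => nDoPop δ F R (npW gN gP nW w) := ⟨_, rfl⟩
    have hFL0 : NumFL (Option α) adv psh dpop := by
      rw [hadv, hpsh, hdpop]
      exact ⟨fun i => nadv_FL δ F R fN fP hnW i, npush_FL R fP, nDoPop_isL δ F R fP⟩
    refine ⟨_, _, _, numFL_skp hFL0
      (nrn_FL hFL0 fT fP (Fintype.card Γ) (Sum.inr 1))
      (fun i => nrn_FL hFL0 fT fP (Fintype.card Γ) (Sum.inl i)), fun u m hgood hn2 => ?_⟩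
    obtain ⟨w, hw⟩ : ∃ w, w = padW u m := ⟨_, rfl⟩
    have hN1 := hNOK u m hgood hn2
    obtain ⟨hB0, hGB⟩ := hB1 u m hgood hn2
    rw [← hw] at hgood hn2 hN1 hB0 hGB ⊢
    have hnw : nW w = u.length := by rw [hw]; exact padW_lead u m
    have hBlen := (trn19_pow_le hκ0 hGE hgood).2.2.2.2.2
    have hNP : NPOK u u.length (2 ^ (κ * yF w) * qM (yF w) ^ eF w) (2 ^ (κ * yF w))
        (qB κ (yF w)) (npW gN gP nW w) := by
      refine ⟨eN w hgood, eP w hgood, hnw, fun z => ?_, ?_⟩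
      · show oc ((w[z - 1]?).join) = oc (u[z - 1]?)
        rw [hw, padW_get]
      · show qB κ (yF w) ≤ w.length + 1
        omega
    have hOK0 : NumOK (uact (n := u.length) (R := R) δ F u) kU (adv w) (psh w) (dpop w) := by
      rw [hadv, hpsh, hdpop]
      exact numOK δ F hN1 hNP
    have hBd0 : NumBd (qB κ (yF w)) (adv w) (psh w) := by
      rw [hadv, hpsh]
      exact ⟨fun x y hx hy i => nadv_lt hN1 δ F (npW gN gP nW w) (eN w hgood) hnw x y hx hy i,
        fun x _ => npush_lt hN1 (npW gN gP nW w) x⟩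
    have hWc : (Fintype.card Γ + 1) ^ (yF w + 1) ≤ w.length + 1 := by
      have h1 := (trn19_pow_le hκ0 hGE hgood).2.1
      have h2 := theta_le (Fintype.card Γ) κ (yF w) (by have := hGE.y4 w hgood; omega) (by omega)
      omega
    have hE := eOK0 hOK0 (yF w) (2 ^ (κ * yF w)) (w.length + 1) hWc
    have eP1 : gP w = 2 ^ (κ * yF w) := eP w hgood
    have eT1 : gT w = (Fintype.card Γ + 1) ^ yF w := eT' w hgood
    refine ⟨?_, ?_⟩
    · show NumOK (skp (uact (n := u.length) (R := R) δ F u)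
        (e0 (uact (n := u.length) (R := R) δ F u) (yF w) (2 ^ (κ * yF w)))) kU _ _ _
      rw [eT1, eP1]
      exact numOK_skp hOK0 hE
    · exact numBd_skp hBd0 (fun x hx i => ev0_lt hBd0 _ _ _ _ hGB x hx i) hB0
  | succ j ih =>
    obtain ⟨adv, psh, dpop, hFL0, hOK⟩ := ih
    obtain ⟨out, h1, h2, h3⟩ := eT_num (c := k + 4) (by omega) hκ0 hK hGE true (Fintype.card Γ)
      (by omega) hFL0
    refine ⟨_, _, _, numFL_skp hFL0 (h1 ⟨k + 4 + 2, by omega⟩)
      (fun i : Fin (k + 4 + 2) => h1 ⟨(i : ℕ), by omega⟩), fun u m hgood hn2 => ?_⟩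
    obtain ⟨hOK0, hBd0⟩ := hOK u m hgood hn2
    have hN1 := hNOK u m hgood hn2
    obtain ⟨hB0, hGB⟩ := hB1 u m hgood hn2
    have hE := nt19_eok (c := k + 4) (by omega) _ (2 ^ (κ * yF (padW u m)))
      (2 ^ (κ * yF (padW u m)) * qM (yF (padW u m)) ^ eF (padW u m)) kU (out (padW u m))
      (fun s i hi => h3 _ hgood _ _ rfl _ kU hOK0 hBd0 (fun s i => kU_lt hN1 s i) s i hi)
    refine ⟨?_, ?_⟩
    · exact numOK_skp hOK0 hE
    · exact numBd_skp hBd0 (fun x _ i => h2 _ hgood x _) hB0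

end Pool.Agent.Helper17.TX
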