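import Pool.Agent.Helper17.TX.Lev
import Pool.Agent.Helper17.TX.ET
import Pool.Agent.Helper17.TX.Bot

set_option autoImplicit false

/-!
Nested turns: the core theorem for general parameter functions.
-/

namespace Pool.Agent.Helper17.TX

open Pool.Agent.Helper17.SL Pool.Agent.Helper17.UL Pool.Agent.Helper17.TU Pool.Agent.Helper17.TV
  Pool.Agent.Helper6

/-- Piece NT-20. Compare `TV.block_bound2` (`card_pend_le`). -/
theorem block_bound3 {Q Γ : Type} [Fintype Q] [Fintype Γ] (k n R y t : ℕ) [Fintype (Pend Γ R)]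
    [Fintype (Pend Γ y)] (hy : 1 ≤ y) (hn : n + 2 ≤ 2 ^ y) (ht : 2 * t ≤ 2 ^ y) (κ : ℕ)
    (hκ : 2 * (Fintype.card Q * (Fintype.card (Pend Γ R) * (Fintype.card Γ + 1)) + k +
      Fintype.card Γ + 2) + 8 ≤ κ) :
    2 * t * ((2 * t * Fintype.card (Bool × UCtl Q Γ k n R) + 2) *
      Fintype.card (Bool × UCtl Q Γ k n R)) ≤ 2 ^ (κ * y) ∧
    Fintype.card (UCtl Q Γ k n R) * Fintype.card (Pend Γ y) ≤ 2 ^ (κ * y) := by
  obtain ⟨c1, hc1⟩ : ∃ c1, c1 = Fintype.card Q * (Fintype.card (Pend Γ R) *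
    (Fintype.card Γ + 1)) := ⟨_, rfl⟩
  obtain ⟨G, hG⟩ : ∃ G, G = Fintype.card Γ := ⟨_, rfl⟩
  rw [← hc1, ← hG] at hκ
  have hU : Fintype.card (UCtl Q Γ k n R) = c1 * (n + 2) ^ k := by
    simp only [Fintype.card_prod, Fintype.card_fun, Fintype.card_fin, Fintype.card_option]
    rw [hc1]
    ring
  obtain ⟨U, hUd⟩ : ∃ U, U = Fintype.card (UCtl Q Γ k n R) := ⟨_, rfl⟩
  have hM : Fintype.card (Bool × UCtl Q Γ k n R) = 2 * U := by
    rw [Fintype.card_prod, Fintype.card_bool, hUd]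
  rw [hM, ← hUd]
  rw [← hUd] at hU
  have hp : Fintype.card (Pend Γ y) ≤ 2 ^ (G * y) := by
    refine (card_pend_le Γ y).trans ?_
    rw [← hG, pow_mul]
    exact Nat.pow_le_pow_left (Nat.lt_two_pow_self (n := G)) y
  obtain ⟨E, hE⟩ : ∃ E, E = (c1 + k) * y := ⟨_, rfl⟩
  have hUE : U ≤ 2 ^ E := by
    have e1 : c1 ≤ 2 ^ (c1 * y) :=
      (Nat.lt_two_pow_self (n := c1)).le.trans
        (Nat.pow_le_pow_right (by norm_num) (Nat.le_mul_of_pos_right _ hy))
    have e2 : (n + 2) ^ k ≤ 2 ^ (k * y) := by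
      rw [mul_comm k y, pow_mul]
      exact Nat.pow_le_pow_left hn k
    rw [hU, hE, add_mul, pow_add]
    exact Nat.mul_le_mul e1 e2
  have hME : 2 * U ≤ 2 ^ (E + 1) := by
    rw [pow_succ]
    omega
  constructor
  · have h2 : 2 * t * (2 * U) + 2 ≤ 2 ^ (y + (E + 1) + 1) := by
      have e1 : 2 * t * (2 * U) ≤ 2 ^ (y + (E + 1)) := by
        rw [pow_add]
        exact Nat.mul_le_mul ht hME
      have e2 : 2 ^ 1 ≤ 2 ^ (y + (E + 1)) := Nat.pow_le_pow_right (by norm_num) (by omega)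
      rw [pow_succ]
      omega
    calc 2 * t * ((2 * t * (2 * U) + 2) * (2 * U)) ≤
          2 ^ y * (2 ^ (y + (E + 1) + 1) * 2 ^ (E + 1)) :=
          Nat.mul_le_mul ht (Nat.mul_le_mul h2 hME)
      _ = 2 ^ (2 * y + 2 * E + 3) := by
          rw [← pow_add, ← pow_add]
          congr 1
          ring
      _ ≤ 2 ^ (κ * y) := by
          refine Nat.pow_le_pow_right (by norm_num) ?_
          calc 2 * y + 2 * E + 3 ≤ 2 * y + 2 * ((c1 + k) * y) + 3 * y := by rw [hE]; omega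
            _ = (2 * (c1 + k) + 5) * y := by ring
            _ ≤ κ * y := Nat.mul_le_mul_right _ (by omega)
  · calc U * Fintype.card (Pend Γ y) ≤ 2 ^ E * 2 ^ (G * y) := Nat.mul_le_mul hUE hp
      _ = 2 ^ ((c1 + k + G) * y) := by
          rw [← pow_add, hE]
          congr 1
          ring
      _ ≤ 2 ^ (κ * y) :=
          Nat.pow_le_pow_right (by norm_num) (Nat.mul_le_mul_right _ (by omega))

/-- Piece NT-21. Choose `R` and `κ` as in `TV.core2` (for `Option Q`, `Option Γ`, `R + 1`), take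
`lev_num` for `botT δ q₀`, `botF Fb` and `j = r`, then `eT_num` with `st = false`; the start is
`kU (uinit ..) = a0 k none (Option Γ) (R + 1)` (see `TU.kV_init`, `TU.a0_ltT`; as a function of the
word it is `min (a0 ..) (w.length + 1)`), the answer is `tabF` of the component `3`, which is the
code of the state (see the end of `TV.core2` and `TV.answerB`). Soundness: `lev_skipM`,
`final_sound`, `bot_sound`. Completeness: `lev_skipM`, `lev_skC`, `final_complete` with
`Hs s = (botF Fb s.1 = true ∧ s.2.2.1.1 = [])` (`trn9_stay`), `bot_few`, `bot_nope`,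
`block_bound3`. -/
theorem nested_core {α Q Γ : Type} [Fintype α] [Fintype Q] [Fintype Γ] {k : ℕ}
    (δ : PDTrans α Q Γ k) (q₀ : Q) (F : Set Q) (r : ℕ) :
    ∃ κ K : ℕ, 0 < κ ∧ 0 < K ∧ ∀ (yF eF : List (Option α) → ℕ) (Good : List (Option α) → Prop),
      GoodE κ K yF eF Good →
      ∃ Rr : List (Option α) → Prop, IsL (Option α) Empty (fun w _ => Rr w) ∧
      ∀ (u : List α) (m : ℕ), Good (padW u m) → u.length + 2 ≤ 2 ^ yF (padW u m) →
        (Rr (padW u m) → ∃ T, AcceptsIn δ q₀ F T u) ∧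
        ∀ h t, 1 ≤ t → 2 * t ≤ 2 ^ yF (padW u m) →
          2 * t ≤ qM (yF (padW u m)) ^ eF (padW u m) → h < yF (padW u m) →
          AcceptsNested δ q₀ F r h t u → Rr (padW u m) := by
  classical
  -- the longest word pushed
  obtain ⟨R, hR⟩ : ∃ R, ∀ q v X, (δ q v X).2.2.length ≤ R := by
    refine ⟨Finset.univ.sup (fun x : Q × (Fin k → Bool × Option α) × Option Γ =>
      (δ x.1 x.2.1 x.2.2).2.2.length), fun q v X => ?_⟩
    exact Finset.le_sup (f := fun x : Q × (Fin k → Bool × Option α) × Option Γ =>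
      (δ x.1 x.2.1 x.2.2).2.2.length) (Finset.mem_univ (q, v, X))
  haveI : Finite (Pend (Option Γ) (R + 1)) := (List.finite_length_le (Option Γ) (R + 1)).to_subtype
  letI : Fintype (Pend (Option Γ) (R + 1)) := Fintype.ofFinite _
  let Fb : Q → Bool := fun q => decide (q ∈ F)
  have hF : {q | Fb q = true} = F := by ext q; simp [Fb]
  obtain ⟨κ, hκ⟩ : ∃ κ, κ = 2 * (Fintype.card (Option Q) *
      (Fintype.card (Pend (Option Γ) (R + 1)) * (Fintype.card (Option Γ) + 1)) + k +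
      Fintype.card (Option Γ) + 2) + 8 + Fintype.card (Option Q) +
    Fintype.card (Pend (Option Γ) (R + 1)) + 12 := ⟨_, rfl⟩
  obtain ⟨K, hK⟩ : ∃ K, K = Fintype.card (CI (k + 4 + 1 + 1)) := ⟨_, rfl⟩
  have hκ0 : 0 < κ := by omega
  have hK0 : 0 < K := by
    rw [hK]
    haveI : Nonempty (CI (k + 4 + 1 + 1)) := ⟨CI.ph⟩
    exact Fintype.card_pos
  refine ⟨κ, K, hκ0, hK0, fun yF eF Good hGE => ?_⟩
  obtain ⟨adv, psh, dpop, hFL, hnum⟩ := lev_num (R := R + 1) (botT δ q₀) (botF Fb) (κ := κ) (K := K)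
    hκ.ge hK hGE r
  obtain ⟨out, hout, -, hval⟩ := eT_num (c := k + 4) (by omega) hκ0 hK hGE false
    (Fintype.card (Option Γ)) (by omega) hFL
  refine ⟨fun w => tabF (botF Fb) (out w (fun i => min (a0 k (none : Option Q) (Option Γ) (R + 1) i)
    (w.length + 1)) ⟨3, by omega⟩) = 1, tabF_isL (botF Fb) ?_, ?_⟩
  · exact FL.comp (hout ⟨3, by omega⟩)
      (g := fun i w _ => min (a0 k (none : Option Q) (Option Γ) (R + 1) i) (w.length + 1))
      (fun i => FL.const _)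
  intro u m hgood hn2
  obtain ⟨hok, hbd⟩ := hnum u m hgood hn2
  obtain ⟨w, hw⟩ : ∃ w, w = padW u m := ⟨_, rfl⟩
  rw [← hw] at hgood hn2 hok hbd ⊢
  obtain ⟨y, hy⟩ : ∃ y, y = yF w := ⟨_, rfl⟩
  obtain ⟨E, hE⟩ : ∃ E, E = eF w := ⟨_, rfl⟩
  have hy4 : 4 ≤ y := by rw [hy]; exact hGE.y4 w hgood
  have hcap : E ≤ qCap y := by rw [hy, hE]; exact hGE.cap w hgood
  have hsz : ∀ s ∈ sizesE κ K y E, s ≤ w.length := by rw [hy, hE]; exact hGE.sz w hgood
  obtain ⟨x1, x2, x3, x4, x5, x6, -⟩ := prmE_exact κ K y E hκ0 hK0 hy4 hcap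
  have s5 : qB κ y + 2 ^ (κ * y) * qM y ^ (E + 1) ≤ w.length := hsz _ (by simp [sizesE])
  have hval' := hval w hgood
  rw [← hy, ← hE] at hok hval'
  rw [← hy] at hn2 hbd
  rw [← hy, ← hE]
  have hNOK : NOK (Option Q) (Option Γ) u.length (R + 1) (2 ^ (κ * y) * qM y ^ E) (qB κ y) := by
    refine ⟨x3, ?_, ?_, ?_, ?_, ?_⟩ <;> omega
  -- the start
  have ha0 : (fun i => min (a0 k (none : Option Q) (Option Γ) (R + 1) i) (w.length + 1)) =
      kU (uinit (Option Γ) k u.length (R + 1) (none : Option Q)) := by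
    have h1 : kU (uinit (Option Γ) k u.length (R + 1) (none : Option Q)) =
        a0 k (none : Option Q) (Option Γ) (R + 1) := by
      rw [← kV_init (n := u.length) (N := 0) (k := k) (R := R + 1) (Γ := Option Γ)
        (none : Option Q)]
      rfl
    rw [h1]
    funext i
    have h2 := a0_ltT hNOK (k := k) (none : Option Q) i
    apply min_eq_left
    omega
  have hv := hval' (UCtl (Option Q) (Option Γ) k u.length (R + 1)) (Option Γ) rfl _ kU hok hbd
    (fun s i => kU_lt hNOK s i) (uinit (Option Γ) k u.length (R + 1) (none : Option Q))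
    ⟨3, by omega⟩ le_rfl
  beta_reduce
  rw [ha0, hv]
  have hP0 : 0 < 2 ^ (κ * y) := by positivity
  -- the answer
  have hkey : ∀ s : Bool × UCtl (Option Q) (Option Γ) k u.length (R + 1),
      tabF (botF Fb) (kD kU s ⟨3, by omega⟩) = 1 ↔ botF Fb s.2.1 = true := by
    intro s
    have h3 : kD kU s ⟨3, by omega⟩ = fc s.2.1 := by
      unfold kD
      rw [dif_neg (by simp only; omega)]
      rfl
    rw [h3, tabF, ptab_code fc_injective]
    cases botF Fb s.2.1 <;> simp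
  rw [hkey]
  have hS := lev_skipM (uact (n := u.length) (R := R + 1) (botT δ q₀) (botF Fb) u) y
    (2 ^ (κ * y)) (2 ^ (κ * y)) (2 ^ (κ * y) * qM y ^ E) r
  refine ⟨fun h => ?_, fun h t ht0 ht1 ht2 hh hacc => ?_⟩
  · obtain ⟨T, hT⟩ := final_sound hS (uinit (Option Γ) k u.length (R + 1) (none : Option Q))
      (2 ^ (κ * y)) (2 ^ (κ * y) * qM y ^ E)
    rw [← hT] at h
    have h1 := bot_sound δ q₀ Fb u rfl hR T h
    rw [hF] at h1
    exact h1
  · rw [← hF] at hacc
    haveI : Finite (Pend (Option Γ) y) := (List.finite_length_le (Option Γ) y).to_subtype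
    letI : Fintype (Pend (Option Γ) y) := Fintype.ofFinite _
    obtain ⟨T, hT1, hT2, hT3⟩ := bot_few δ q₀ Fb u rfl hR ht0 hacc
    obtain ⟨hb1, hb2⟩ := block_bound3 (Q := Option Q) (Γ := Option Γ) k u.length (R + 1) y t
      (by omega) hn2 ht1 κ (by omega)
    have hN : 2 * t * 2 ^ (κ * y) ≤ 2 ^ (κ * y) * qM y ^ E := by
      rw [mul_comm (2 * t)]
      exact Nat.mul_le_mul_left _ ht2
    have hC := lev_skC (uact (n := u.length) (R := R + 1) (botT δ q₀) (botF Fb) u)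
      (K := 2 ^ (κ * y)) (h := h) (t := t) (P₀ := 2 ^ (κ * y)) (N := 2 ^ (κ * y) * qM y ^ E)
      (W := y) hh.le hb2 ht0 hP0 hb1 hN r
    have h1 := final_complete hS hC
      (fun s => botF Fb s.1 = true ∧ s.2.2.1.1 = []) hT1 hT2
      (fun s hs => trn9_stay (botT δ q₀) (botF Fb) u s hs.1 hs.2)
      (bot_nope δ q₀ Fb u rfl hR T) hT3 ht0 hP0 hb1 hN
    exact h1.1

end Pool.Agent.Helper17.TX
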