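import Pool.Agent.Helper17.TX.Sem

set_option autoImplicit false

/-!
Nested turns: machines which skip excursions follow the machine `ua`.
-/

namespace Pool.Agent.Helper17.TX

open Pool.Agent.Helper17.SL Pool.Agent.Helper17.TU

variable {S Γ : Type} {ua a : S → TAct S Γ} {e : S → Option S}

/-- Piece NT-3. -/
theorem urun_add (a : S → TAct S Γ) (c0 : S × List Γ) (i j : ℕ) :
    urun a c0 (i + j) = urun a (urun a c0 i) j := by
  induction j with
  | zero => rfl
  | succ j ih =>
    show (a (urun a c0 (i + j)).1).app (urun a c0 (i + j)).2 = _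
    rw [ih]
    rfl

/-- Piece NT-3. As long as there is no pop with the empty stack the run does not depend on the
symbols below. -/
theorem urun_off (a : S → TAct S Γ) (s : S) (n : ℕ) (h : NoPE a s n) (st : List Γ) (i : ℕ)
    (hi : i ≤ n) :
    urun a (s, st) i = ((urun a (s, []) i).1, (urun a (s, []) i).2 ++ st) := by
  induction i with
  | zero => rfl
  | succ i ih =>
    have h1 := ih (by omega)
    have h2 := h i (by omega)
    show (a (urun a (s, st) i).1).app (urun a (s, st) i).2 = _
    rw [h1]
    show (a (urun a (s, []) i).1).app ((urun a (s, []) i).2 ++ st) =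
      (((a (urun a (s, []) i).1).app (urun a (s, []) i).2).1,
        ((a (urun a (s, []) i).1).app (urun a (s, []) i).2).2 ++ st)
    obtain ⟨c, hc⟩ : ∃ c, c = urun a (s, []) i := ⟨_, rfl⟩
    rw [← hc] at h2 ⊢
    unfold IsPop at h2
    cases hac : a c.1 with
    | stay s' => rfl
    | push s' y => rfl
    | pop k =>
      rw [hac] at h2
      cases hl : c.2 with
      | nil => exact absurd ⟨hl, rfl⟩ h2
      | cons y l => rfl

/-- Piece NT-3. -/
theorem compl_unique {s : S} {T T' : ℕ} (h : Compl a s T) (h' : Compl a s T') : T = T' := by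
  rcases lt_trichotomy T T' with h1 | h1 | h1
  · exact absurd h.2 (h'.1 T h1)
  · exact h1
  · exact absurd h'.2 (h.1 T' h1)

/-- Piece NT-3. -/
theorem skipM_refl (ua : S → TAct S Γ) : SkipM ua ua := fun _ => Or.inl rfl

/-- Piece NT-3. One step of `a` is a run of `ua` (an excursion: push, the run from `s'` with the
symbol `y` below by `urun_off`, pop). During such a run, after its first step and before its end,
the stack is longer. -/
theorem skipM_steps (h : SkipM ua a) (s : S) (st : List Γ) :
    ∃ T, 1 ≤ T ∧ urun ua (s, st) T = (a s).app st ∧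
      ((T = 1 ∧ a s = ua s) ∨ ((∃ s₁, a s = .stay s₁) ∧ (ua s).kind = some true ∧
        ∀ i, 1 ≤ i → i < T → st.length < (urun ua (s, st) i).2.length)) := by
  rcases h s with h1 | ⟨s', y, T, h1, h2, h3⟩
  · refine ⟨1, le_rfl, ?_, Or.inl ⟨rfl, h1⟩⟩
    show (ua s).app st = _
    rw [h1]
  · have e1 : urun ua (s, st) 1 = (s', y :: st) := by
      show (ua s).app st = _
      rw [h1]
      rfl
    have e2 : ∀ j, j ≤ T → urun ua (s, st) (1 + j) =
        ((urun ua (s', []) j).1, (urun ua (s', []) j).2 ++ (y :: st)) := by
      intro j hj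
      rw [urun_add, e1]
      exact urun_off ua s' T h2.1 (y :: st) j hj
    refine ⟨1 + T + 1, by omega, ?_, Or.inr ⟨⟨_, h3⟩, by rw [h1]; rfl, ?_⟩⟩
    · have e3 := e2 T le_rfl
      show (ua (urun ua (s, st) (1 + T)).1).app (urun ua (s, st) (1 + T)).2 = _
      rw [e3, h2.2.1, h3]
      have h4 := h2.2.2
      unfold IsPop at h4
      show (ua (urun ua (s', []) T).1).app ([] ++ y :: st) =
        (nxt ua (urun ua (s', []) T).1 (some y), st)
      unfold nxt
      cases hc : ua (urun ua (s', []) T).1 with
      | stay z => rw [hc] at h4; exact absurd h4 (by simp [TAct.kind])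
      | push z w => rw [hc] at h4; exact absurd h4 (by simp [TAct.kind])
      | pop k => rfl
    · intro i hi1 hi2
      obtain ⟨j, rfl⟩ := Nat.exists_eq_add_of_le hi1
      rw [e2 j (by omega)]
      show st.length < ((urun ua (s', []) j).2 ++ (y :: st)).length
      rw [List.length_append, List.length_cons]
      omega

/-- Piece NT-3. -/
theorem skipM_run (h : SkipM ua a) (c0 : S × List Γ) (i : ℕ) :
    ∃ T, urun ua c0 T = urun a c0 i := by
  induction i with
  | zero => exact ⟨0, rfl⟩
  | succ i ih =>
    obtain ⟨T, hT⟩ := ih
    obtain ⟨T1, _, h2, _⟩ := skipM_steps h (urun a c0 i).1 (urun a c0 i).2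
    refine ⟨T + T1, ?_⟩
    rw [urun_add, hT]
    exact h2

private theorem ntN3_pop (h : SkipM ua a) {s : S} (hp : IsPop a s) : a s = ua s := by
  rcases h s with h1 | ⟨s', y, T, h1, h2, h3⟩
  · exact h1
  · unfold IsPop at hp
    rw [h3] at hp
    exact absurd hp (by simp [TAct.kind])

/-- Piece NT-3. -/
theorem compl_of_skipM (h : SkipM ua a) {s : S} {T : ℕ} (hc : Compl a s T) :
    ∃ T', Compl ua s T' ∧ (urun ua (s, []) T').1 = (urun a (s, []) T).1 := by
  have key : ∀ i, i ≤ T → ∃ T', urun ua (s, []) T' = urun a (s, []) i ∧ NoPE ua s T' := by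
    intro i
    induction i with
    | zero =>
      intro _
      exact ⟨0, rfl, fun j hj => absurd hj (by omega)⟩
    | succ i ih =>
      intro hi
      obtain ⟨T', h1, h2⟩ := ih (by omega)
      have h3 := hc.1 i (by omega)
      obtain ⟨T1, h4, h5, h6⟩ := skipM_steps h (urun a (s, []) i).1 (urun a (s, []) i).2
      refine ⟨T' + T1, ?_, ?_⟩
      · rw [urun_add, h1]
        exact h5
      · intro j hj
        rcases lt_or_ge j T' with h7 | h7
        · exact h2 j h7
        · obtain ⟨l, rfl⟩ := Nat.exists_eq_add_of_le h7
          rw [urun_add, h1]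
          rcases h6 with ⟨h8, h9⟩ | ⟨_, h9, h10⟩
          · have hl : l = 0 := by omega
            subst hl
            intro h11
            apply h3
            refine ⟨h11.1, ?_⟩
            have h12 := h11.2
            unfold IsPop at h12 ⊢
            rw [h9]
            exact h12
          · rcases Nat.eq_zero_or_pos l with h11 | h11
            · subst h11
              intro h12
              have h13 := h12.2
              unfold IsPop at h13
              have h14 : (ua (urun a (s, []) i).1).kind = some false := h13
              rw [h9] at h14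
              exact absurd h14 (by simp)
            · have h12 := h10 l h11 (by omega)
              intro h13
              have h14 : (urun ua ((urun a (s, []) i).1, (urun a (s, []) i).2) l).2 = [] := h13.1
              rw [h14] at h12
              simp at h12
  obtain ⟨T', h1, h2⟩ := key T le_rfl
  refine ⟨T', ⟨h2, ?_, ?_⟩, by rw [h1]⟩
  · rw [h1]
    exact hc.2.1
  · rw [h1]
    have h3 := ntN3_pop h hc.2.2
    have h4 := hc.2.2
    unfold IsPop at h4 ⊢
    rw [← h3]
    exact h4

/-- Piece NT-3. -/
theorem skipM_skp (h : SkipM ua a) (hE : SndE a e) : SkipM ua (skp a e) := by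
  intro s
  have hgen : skp a e s = a s → (skp a e s = ua s ∨ ∃ s' y T, ua s = .push s' y ∧ Compl ua s' T ∧
    skp a e s = .stay (nxt ua (urun ua (s', []) T).1 (some y))) := by
    intro h1
    rw [h1]
    exact h s
  cases has : a s with
  | stay z => exact hgen (by unfold skp; rw [has])
  | pop k => exact hgen (by unfold skp; rw [has])
  | push s' y =>
    cases hes : e s' with
    | none =>
      refine hgen ?_
      unfold skp
      rw [has]
      simp only [hes]
    | some s'' =>
      right
      have hua : ua s = .push s' y := by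
        rcases h s with h1 | ⟨s1, y1, T, h1, h2, h3⟩
        · rw [← h1, has]
        · rw [has] at h3
          exact absurd h3 (by simp)
      obtain ⟨T, hT1, hT2⟩ := hE s' s'' hes
      obtain ⟨T', hT3, hT4⟩ := compl_of_skipM h hT1
      refine ⟨s', y, T', hua, hT3, ?_⟩
      have hpop : a s'' = ua s'' := by
        have h1 := hT1.2.2
        rw [hT2] at h1
        exact ntN3_pop h h1
      rw [hT4, hT2]
      unfold skp nxt
      rw [has]
      simp only [hes, hpop]

end Pool.Agent.Helper17.TX
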