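import Pool.Agent.Helper17.TX.Her

set_option autoImplicit false

/-!
Nested turns: comparison of two refinements of the heights.
-/

namespace Pool.Agent.Helper17.TX

/-- one block, with increasing heights -/
private theorem ntN9_block (L LL : ℕ → ℤ) (A B C D : ℕ) (hAB : A < B) (hCD : C ≤ D)
    (hL : ∀ i, A ≤ i → i < B → L i ≤ L (i + 1))
    (hLL : ∀ i, C ≤ i → i < D → LL i ≤ LL (i + 1) ∧ LL (i + 1) ≤ LL i + 1)
    (hA : LL C = L A) (hB : LL D = L B) :
    ∃ φ : ℕ → ℕ, φ A = C ∧ φ B = D ∧ (∀ i j, A ≤ i → i ≤ j → j ≤ B → φ i ≤ φ j) ∧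
      ∀ i, A ≤ i → i ≤ B → LL (φ i) = L i := by
  have hmono : ∀ i j, A ≤ i → i ≤ j → j ≤ B → L i ≤ L j := by
    intro i j hi hij
    induction j, hij using Nat.le_induction with
    | base => intro _; exact le_refl _
    | succ j hij ih =>
      intro hj
      exact (ih (by omega)).trans (hL j (by omega) (by omega))
  let S : ℕ → Set ℕ := fun i => {j | C ≤ j ∧ L i ≤ LL j}
  have hD : ∀ i, A ≤ i → i ≤ B → D ∈ S i := by
    intro i h1 h2
    refine ⟨hCD, ?_⟩
    rw [hB]
    exact hmono i B h1 h2 le_rfl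
  have hle : ∀ i, A ≤ i → i ≤ B → sInf (S i) ≤ D := fun i h1 h2 => Nat.sInf_le (hD i h1 h2)
  have hval : ∀ i, A ≤ i → i ≤ B → LL (sInf (S i)) = L i := by
    intro i h1 h2
    obtain ⟨h3, h4⟩ := Nat.sInf_mem (⟨D, hD i h1 h2⟩ : (S i).Nonempty)
    refine le_antisymm ?_ h4
    rcases h3.eq_or_lt with h5 | h5
    · rw [← h5, hA]
      exact hmono A i le_rfl h1 h2
    · obtain ⟨j, hj⟩ : ∃ j, sInf (S i) = j + 1 := ⟨sInf (S i) - 1, by omega⟩
      have h6 : j ∉ S i := fun h => by
        have := Nat.sInf_le h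
        omega
      have h7 : ¬ (C ≤ j ∧ L i ≤ LL j) := h6
      have h8 : LL j < L i := by
        by_contra h
        exact h7 ⟨by omega, not_lt.1 h⟩
      have h9 := (hLL j (by omega) (by have := hle i h1 h2; omega)).2
      rw [hj]
      omega
  refine ⟨fun i => if i < B then sInf (S i) else D, ?_, ?_, ?_, ?_⟩
  · simp only [if_pos hAB]
    apply le_antisymm
    · exact Nat.sInf_le ⟨le_rfl, hA.ge⟩
    · exact (Nat.sInf_mem (⟨D, hD A le_rfl hAB.le⟩ : (S A).Nonempty)).1
  · simp only [if_neg (lt_irrefl B)]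
  · intro i j h1 h2 h3
    by_cases hj : j < B
    · simp only [if_pos hj, if_pos (lt_of_le_of_lt h2 hj)]
      have h4 := Nat.sInf_mem (⟨D, hD j (by omega) h3⟩ : (S j).Nonempty)
      exact Nat.sInf_le ⟨h4.1, (hmono i j h1 h2 h3).trans h4.2⟩
    · simp only [if_neg hj]
      split_ifs with hi
      · exact hle i h1 (by omega)
      · exact le_rfl
  · intro i h1 h2
    by_cases hi : i < B
    · simp only [if_pos hi]
      exact hval i h1 h2
    · simp only [if_neg hi]
      rw [hB]
      congr 1
      omega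

/-- one block of natural heights -/
private theorem ntN9_blockN (L LL : ℕ → ℕ) (A B C D : ℕ) (hAB : A < B) (hCD : C ≤ D)
    (hL : (∀ i, A ≤ i → i < B → L i ≤ L (i + 1)) ∨ (∀ i, A ≤ i → i < B → L (i + 1) ≤ L i))
    (hLL : (∀ i, C ≤ i → i < D → LL i ≤ LL (i + 1) ∧ LL (i + 1) ≤ LL i + 1) ∨
      (∀ i, C ≤ i → i < D → LL (i + 1) ≤ LL i ∧ LL i ≤ LL (i + 1) + 1))
    (hA : LL C = L A) (hB : LL D = L B) :
    ∃ φ : ℕ → ℕ, φ A = C ∧ φ B = D ∧ (∀ i j, A ≤ i → i ≤ j → j ≤ B → φ i ≤ φ j) ∧
      ∀ i, A ≤ i → i ≤ B → LL (φ i) = L i := by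
  have up : ∀ (f : ℕ → ℕ) (a b : ℕ), (∀ i, a ≤ i → i < b → f i ≤ f (i + 1)) →
      ∀ i j, a ≤ i → i ≤ j → j ≤ b → f i ≤ f j := by
    intro f a b h i j hi hij
    induction j, hij using Nat.le_induction with
    | base => intro _; exact le_refl _
    | succ j hij ih =>
      intro hj
      exact (ih (by omega)).trans (h j (by omega) (by omega))
  have down : ∀ (f : ℕ → ℕ) (a b : ℕ), (∀ i, a ≤ i → i < b → f (i + 1) ≤ f i) →
      ∀ i j, a ≤ i → i ≤ j → j ≤ b → f j ≤ f i := by
    intro f a b h i j hi hij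
    induction j, hij using Nat.le_induction with
    | base => intro _; exact le_refl _
    | succ j hij ih =>
      intro hj
      exact (h j (by omega) (by omega)).trans (ih (by omega))
  have inc : (∀ i, A ≤ i → i < B → L i ≤ L (i + 1)) →
      (∀ i, C ≤ i → i < D → LL i ≤ LL (i + 1) ∧ LL (i + 1) ≤ LL i + 1) →
      ∃ φ : ℕ → ℕ, φ A = C ∧ φ B = D ∧ (∀ i j, A ≤ i → i ≤ j → j ≤ B → φ i ≤ φ j) ∧
        ∀ i, A ≤ i → i ≤ B → LL (φ i) = L i := by
    intro h1 h2
    obtain ⟨φ, p1, p2, p3, p4⟩ := ntN9_block (fun i => (L i : ℤ)) (fun i => (LL i : ℤ)) A B C D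
      hAB hCD (fun i hi hj => by exact_mod_cast h1 i hi hj)
      (fun i hi hj => by
        have := h2 i hi hj
        constructor
        · exact_mod_cast this.1
        · exact_mod_cast this.2) (by exact_mod_cast hA) (by exact_mod_cast hB)
    exact ⟨φ, p1, p2, p3, fun i hi hj => by exact_mod_cast p4 i hi hj⟩
  have dec : (∀ i, A ≤ i → i < B → L (i + 1) ≤ L i) →
      (∀ i, C ≤ i → i < D → LL (i + 1) ≤ LL i ∧ LL i ≤ LL (i + 1) + 1) →
      ∃ φ : ℕ → ℕ, φ A = C ∧ φ B = D ∧ (∀ i j, A ≤ i → i ≤ j → j ≤ B → φ i ≤ φ j) ∧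
        ∀ i, A ≤ i → i ≤ B → LL (φ i) = L i := by
    intro h1 h2
    obtain ⟨φ, p1, p2, p3, p4⟩ := ntN9_block (fun i => -(L i : ℤ)) (fun i => -(LL i : ℤ)) A B C D
      hAB hCD (fun i hi hj => by
        have := h1 i hi hj
        have h3 : (L (i + 1) : ℤ) ≤ L i := by exact_mod_cast this
        exact neg_le_neg h3)
      (fun i hi hj => by
        have := h2 i hi hj
        have h3 : (LL (i + 1) : ℤ) ≤ LL i := by exact_mod_cast this.1
        have h4 : (LL i : ℤ) ≤ LL (i + 1) + 1 := by exact_mod_cast this.2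
        constructor
        · exact neg_le_neg h3
        · change -(LL (i + 1) : ℤ) ≤ -(LL i : ℤ) + 1
          omega)
      (by
        change -(LL C : ℤ) = -(L A : ℤ)
        rw [hA])
      (by
        change -(LL D : ℤ) = -(L B : ℤ)
        rw [hB])
    refine ⟨φ, p1, p2, p3, fun i hi hj => ?_⟩
    have h5 : -(LL (φ i) : ℤ) = -(L i : ℤ) := p4 i hi hj
    omega
  rcases hL with h1 | h1 <;> rcases hLL with h2 | h2
  · exact inc h1 h2
  · -- everything is constant
    have h3 := up L A B h1
    have h4 := down LL C D fun i hi hj => (h2 i hi hj).1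
    have h5 := h3 A B le_rfl hAB.le le_rfl
    have h6 := h4 C D le_rfl hCD le_rfl
    refine dec (fun i hi hj => ?_) h2
    have h7 := h3 A i le_rfl hi hj.le
    have h8 := h3 (i + 1) B (by omega) hj le_rfl
    omega
  · have h3 := down L A B h1
    have h4 := up LL C D fun i hi hj => (h2 i hi hj).1
    have h5 := h3 A B le_rfl hAB.le le_rfl
    have h6 := h4 C D le_rfl hCD le_rfl
    refine inc (fun i hi hj => ?_) h2
    have h7 := h3 A i le_rfl hi hj.le
    have h8 := h3 (i + 1) B (by omega) hj le_rfl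
    omega
  · exact dec h1 h2

/-- the change of time -/
private theorem ntN9_build (H L LL σ ρ : ℕ → ℕ) (T : ℕ) (hL : Refines L H σ T)
    (hρ : Monotone ρ) (hLL : ∀ m ≤ T, LL (ρ m) = H m)
    (hm : ∀ m < T,
      (∀ i, ρ m ≤ i → i < ρ (m + 1) → LL i ≤ LL (i + 1) ∧ LL (i + 1) ≤ LL i + 1) ∨
      (∀ i, ρ m ≤ i → i < ρ (m + 1) → LL (i + 1) ≤ LL i ∧ LL i ≤ LL (i + 1) + 1))
    (m : ℕ) (hmT : m ≤ T) :
    ∃ ψ : ℕ → ℕ, Monotone ψ ∧ ρ 0 ≤ ψ 0 ∧ (∀ j, ρ 0 ≤ j → j < ψ 0 → LL j = LL (j + 1)) ∧
      ψ (σ m) = ρ m ∧ (∀ i ≤ σ m, LL (ψ i) = L i) ∧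
      ∀ i < σ m, (∀ j, ψ i ≤ j → j < ψ (i + 1) → LL j ≤ LL (j + 1)) ∨
        (∀ j, ψ i ≤ j → j < ψ (i + 1) → LL (j + 1) ≤ LL j) := by
  obtain ⟨hσ, hσ0, hLσ, hLm⟩ := hL
  induction m with
  | zero =>
    refine ⟨fun _ => ρ 0, monotone_const, le_rfl, fun j h1 h2 => absurd h2 (not_lt.2 h1), rfl, ?_,
      ?_⟩
    · intro i hi
      rw [hσ0] at hi
      have h1 : i = 0 := by omega
      subst h1
      have h2 := hLσ 0 (Nat.zero_le _)
      rw [hσ0] at h2
      rw [hLL 0 (Nat.zero_le _), h2]
    · intro i hi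
      rw [hσ0] at hi
      exact absurd hi (Nat.not_lt_zero _)
  | succ m ih =>
    obtain ⟨ψ, q1, q2, q3, q4, q5, q6⟩ := ih (by omega)
    have hσm : σ m ≤ σ (m + 1) := hσ (Nat.le_succ m)
    have hρm : ρ m ≤ ρ (m + 1) := hρ (Nat.le_succ m)
    have e1 := hLσ m (by omega)
    have e2 := hLσ (m + 1) hmT
    have e3 := hLL m (by omega)
    have e4 := hLL (m + 1) hmT
    rcases hσm.eq_or_lt with hs | hs
    · -- a degenerate block
      have hH : H m = H (m + 1) := by rw [← e1, ← e2, hs]
      have hconst : ∀ j, ρ m ≤ j → j < ρ (m + 1) → LL j = LL (j + 1) := by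
        intro j h1 h2
        rcases hm m (by omega) with h3 | h3
        · have up : ∀ i j, ρ m ≤ i → i ≤ j → j ≤ ρ (m + 1) → LL i ≤ LL j := by
            intro i j hi hij
            induction j, hij using Nat.le_induction with
            | base => intro _; exact le_refl _
            | succ j hij ih =>
              intro hj
              exact (ih (by omega)).trans (h3 j (by omega) (by omega)).1
          have h4 := up (ρ m) j le_rfl h1 h2.le
          have h5 := up (j + 1) (ρ (m + 1)) (by omega) h2 le_rfl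
          have h6 := (h3 j h1 h2).1
          omega
        · have down : ∀ i j, ρ m ≤ i → i ≤ j → j ≤ ρ (m + 1) → LL j ≤ LL i := by
            intro i j hi hij
            induction j, hij using Nat.le_induction with
            | base => intro _; exact le_refl _
            | succ j hij ih =>
              intro hj
              exact (h3 j (by omega) (by omega)).1.trans (ih (by omega))
          have h4 := down (ρ m) j le_rfl h1 h2.le
          have h5 := down (j + 1) (ρ (m + 1)) (by omega) h2 le_rfl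
          have h6 := (h3 j h1 h2).1
          omega
      refine ⟨fun i => if i < σ m then ψ i else ρ (m + 1), ?_, ?_, ?_, ?_, ?_, ?_⟩
      · intro i j hij
        by_cases h1 : j < σ m
        · simp only [if_pos h1, if_pos (lt_of_le_of_lt hij h1)]
          exact q1 hij
        · simp only [if_neg h1]
          split_ifs with h2
          · exact ((q1 h2.le).trans q4.le).trans hρm
          · exact le_rfl
      · by_cases h1 : 0 < σ m
        · simp only [if_pos h1]
          exact q2
        · simp only [if_neg h1]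
          exact hρ (Nat.zero_le _)
      · intro j h1 h2
        by_cases h3 : 0 < σ m
        · simp only [if_pos h3] at h2
          exact q3 j h1 h2
        · simp only [if_neg h3] at h2
          have h4 : σ m = 0 := by omega
          rw [h4] at q4
          by_cases h5 : j < ρ m
          · exact q3 j h1 (by rw [q4]; exact h5)
          · exact hconst j (not_lt.1 h5) h2
      · rw [← hs]
        simp only [if_neg (lt_irrefl _)]
      · intro i hi
        rw [← hs] at hi
        by_cases h1 : i < σ m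
        · simp only [if_pos h1]
          exact q5 i hi
        · simp only [if_neg h1]
          have h2 : i = σ m := by omega
          rw [h2, e4, e1, hH]
      · intro i hi
        rw [← hs] at hi
        simp only [if_pos hi]
        by_cases h1 : i + 1 < σ m
        · simp only [if_pos h1]
          exact q6 i hi
        · simp only [if_neg h1]
          have h2 : i + 1 = σ m := by omega
          have h3 := q6 i hi
          rw [h2, q4] at h3
          rcases h3 with h3 | h3
          · left
            intro j h4 h5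
            by_cases h6 : j < ρ m
            · exact h3 j h4 h6
            · exact (hconst j (not_lt.1 h6) h5).le
          · right
            intro j h4 h5
            by_cases h6 : j < ρ m
            · exact h3 j h4 h6
            · exact (hconst j (not_lt.1 h6) h5).ge
    · obtain ⟨φ, p1, p2, p3, p4⟩ := ntN9_blockN L LL (σ m) (σ (m + 1)) (ρ m) (ρ (m + 1)) hs hρm
        (hLm m (by omega)) (hm m (by omega)) (e3.trans e1.symm) (e4.trans e2.symm)
      have hmonLL : (∀ j, ρ m ≤ j → j < ρ (m + 1) → LL j ≤ LL (j + 1)) ∨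
          (∀ j, ρ m ≤ j → j < ρ (m + 1) → LL (j + 1) ≤ LL j) := by
        rcases hm m (by omega) with h | h
        · exact Or.inl fun j h1 h2 => (h j h1 h2).1
        · exact Or.inr fun j h1 h2 => (h j h1 h2).1
      have hψφ : ψ (σ m) = φ (σ m) := q4.trans p1.symm
      refine ⟨fun i => if i < σ m then ψ i else φ (min i (σ (m + 1))), ?_, ?_, ?_, ?_, ?_, ?_⟩
      · intro i j hij
        by_cases h1 : j < σ m
        · simp only [if_pos h1, if_pos (lt_of_le_of_lt hij h1)]
          exact q1 hij
        · simp only [if_neg h1]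
          by_cases h2 : i < σ m
          · simp only [if_pos h2]
            refine (q1 h2.le).trans ?_
            rw [hψφ]
            exact p3 _ _ le_rfl (by omega) (min_le_right _ _)
          · simp only [if_neg h2]
            exact p3 _ _ (by omega) (by omega) (min_le_right _ _)
      · by_cases h1 : 0 < σ m
        · simp only [if_pos h1]
          exact q2
        · simp only [if_neg h1]
          have h4 : σ m = 0 := by omega
          rw [h4] at p1
          rw [Nat.zero_min, p1]
          exact hρ (Nat.zero_le _)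
      · intro j h1 h2
        by_cases h3 : 0 < σ m
        · simp only [if_pos h3] at h2
          exact q3 j h1 h2
        · simp only [if_neg h3] at h2
          have h4 : σ m = 0 := by omega
          rw [h4] at p1 q4
          rw [Nat.zero_min, p1] at h2
          exact q3 j h1 (by rw [q4]; exact h2)
      · show (if σ (m + 1) < σ m then ψ (σ (m + 1)) else φ (min (σ (m + 1)) (σ (m + 1)))) =
          ρ (m + 1)
        rw [if_neg (not_lt.2 hs.le), min_self, p2]
      · intro i hi
        by_cases h1 : i < σ m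
        · simp only [if_pos h1]
          exact q5 i h1.le
        · simp only [if_neg h1]
          rw [min_eq_left hi]
          exact p4 i (not_lt.1 h1) hi
      · intro i hi
        by_cases h1 : i + 1 < σ m
        · simp only [if_pos h1, if_pos (show i < σ m by omega)]
          exact q6 i (by omega)
        · by_cases h2 : i < σ m
          · have h3 : i + 1 = σ m := by omega
            simp only [if_pos h2, if_neg h1]
            rw [h3, min_eq_left hs.le, ← hψφ, ← h3]
            exact q6 i h2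
          · simp only [if_neg h1, if_neg h2]
            rw [min_eq_left hi.le, min_eq_left (show i + 1 ≤ σ (m + 1) by omega)]
            have h3 : ρ m ≤ φ i := by
              rw [← p1]
              exact p3 _ _ le_rfl (not_lt.1 h2) hi.le
            have h4 : φ (i + 1) ≤ ρ (m + 1) := by
              rw [← p2]
              exact p3 _ _ (by omega) hi le_rfl
            rcases hmonLL with h | h
            · exact Or.inl fun j h5 h6 => h j (h3.trans h5) (h6.trans_le h4)
            · exact Or.inr fun j h5 h6 => h j (h3.trans h5) (h6.trans_le h4)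

/-- Piece NT-9. `LL` is a refinement in unit steps. There is a monotone `ψ` with `ψ 0 = ρ 0`,
`ψ (σ m) = ρ m` for `m ≤ T`, `LL (ψ i) = L i` for `i ≤ σ T`, such that `LL` is monotone on
`[ψ i, ψ (i + 1)]` (for `i` in `[σ m, σ (m + 1)]` take for `ψ i` the least time in
`[ρ m, ρ (m + 1)]` with `LL (ψ i) = L i`; it exists because of the unit steps; construct `ψ` on
`[0, σ m]` by induction on `m`). Then `few_time` with `H := L`, `L := LL`, `σ := ψ`,
`T := σ T`. -/
theorem few_refine (H L LL σ ρ : ℕ → ℕ) (T h t t' r : ℕ) (hL : Refines L H σ T)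
    (hρ : Monotone ρ) (hLL : ∀ m ≤ T, LL (ρ m) = H m)
    (hm : ∀ m < T,
      (∀ i, ρ m ≤ i → i < ρ (m + 1) → LL i ≤ LL (i + 1) ∧ LL (i + 1) ≤ LL i + 1) ∨
      (∀ i, ρ m ≤ i → i < ρ (m + 1) → LL (i + 1) ≤ LL i ∧ LL i ≤ LL (i + 1) + 1))
    (hF : Few L (Exc L h t r) t' 0 (σ T)) (ht : 1 ≤ t') :
    Few LL (Exc LL h t r) t' (ρ 0) (ρ T) := by
  obtain ⟨ψ, q1, q2, q3, q4, q5, q6⟩ := ntN9_build H L LL σ ρ T hL hρ hLL hm T le_rfl
  have h1 := few_time L LL ψ (σ T) h t t' q1 q5 q6 r 0 (σ T) (Nat.zero_le _) le_rfl hF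
  rw [q4] at h1
  exact few_const LL (Exc LL h t r) t' (ψ 0) (ρ 0) (ρ T) h1 q2 q3 ht

end Pool.Agent.Helper17.TX
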