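import Pool.Agent.Helper17.TX.Off
import Pool.Agent.Helper17.TX.Her

set_option autoImplicit false

/-!
Nested turns: the run of a machine which skips excursions, and its pieces.
-/

namespace Pool.Agent.Helper17.TX

open Pool.Agent.Helper17.SL Pool.Agent.Helper17.TU

variable {S Γ : Type}

/-- The run of `a` of length `J` follows the run of `ua` up to the time `T`; `θ i` is the time of
`ua` at the step `i` of `a`. -/
structure Fol (ua a : S → TAct S Γ) (s : S) (T J : ℕ) (θ : ℕ → ℕ) : Prop where
  z : θ 0 = 0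
  e : θ J = T
  lt : ∀ i < J, θ i < θ (i + 1)
  run : ∀ i ≤ J, urun a (s, []) i = urun ua (s, []) (θ i)
  st : ∀ i < J, (a (urun ua (s, []) (θ i)).1 = ua (urun ua (s, []) (θ i)).1 ∧
      θ (i + 1) = θ i + 1) ∨
    ((∃ s₁, a (urun ua (s, []) (θ i)).1 = .stay s₁) ∧
      (ua (urun ua (s, []) (θ i)).1).kind = some true ∧
      len ua s (θ (i + 1)) = len ua s (θ i) ∧
      ∀ z, θ i < z → z < θ (i + 1) → len ua s (θ i) < len ua s z)

/-- Piece NT-5. The time `T` is not strictly inside a finished excursion, so the run of `a` does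
not skip it. Induction, with `skipM_steps`. -/
theorem exists_fol {ua a : S → TAct S Γ} (hS : SkipM ua a) (s : S) (T : ℕ)
    (hT : ∀ x y, x < T → T < y → len ua s y = len ua s x →
      ∃ z, x < z ∧ z < y ∧ len ua s z ≤ len ua s x) :
    ∃ (J : ℕ) (θ : ℕ → ℕ), Fol ua a s T J θ := by
  classical
  -- the next time
  have hex : ∀ t : ℕ, ∃ t' : ℕ, t < t' ∧
      urun ua (s, []) t' = (a (urun ua (s, []) t).1).app (urun ua (s, []) t).2 ∧
      ((a (urun ua (s, []) t).1 = ua (urun ua (s, []) t).1 ∧ t' = t + 1) ∨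
        ((∃ s₁, a (urun ua (s, []) t).1 = .stay s₁) ∧
          (ua (urun ua (s, []) t).1).kind = some true ∧ len ua s t' = len ua s t ∧
          ∀ z, t < z → z < t' → len ua s t < len ua s z)) := by
    intro t
    obtain ⟨n, hn, h1, h2⟩ := skipM_steps hS (urun ua (s, []) t).1 (urun ua (s, []) t).2
    have h3 : urun ua (s, []) (t + n) =
        (a (urun ua (s, []) t).1).app (urun ua (s, []) t).2 := by
      rw [urun_add]
      exact h1
    refine ⟨t + n, by omega, h3, ?_⟩
    rcases h2 with ⟨h2, h4⟩ | ⟨h2, h4, h5⟩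
    · exact Or.inl ⟨h4, by rw [h2]⟩
    · refine Or.inr ⟨h2, h4, ?_, fun z hz hz' => ?_⟩
      · obtain ⟨s₁, hs₁⟩ := h2
        unfold len
        rw [h3, hs₁]
        rfl
      · have h6 := h5 (z - t) (by omega) (by omega)
        have h7 : urun ua (s, []) z = urun ua (urun ua (s, []) t) (z - t) := by
          rw [← urun_add]
          congr 1
          omega
        unfold len
        rw [h7]
        exact h6
  choose nt h1 h2 h3 using hex
  have hθ : ∃ θ : ℕ → ℕ, θ 0 = 0 ∧ ∀ i, θ (i + 1) = nt (θ i) :=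
    ⟨fun i => nt^[i] 0, rfl, fun i => Function.iterate_succ_apply' nt i 0⟩
  obtain ⟨θ, hθ0, hθs⟩ := hθ
  have hlt : ∀ i, θ i < θ (i + 1) := fun i => by
    rw [hθs]
    exact h1 _
  have hge : ∀ i, i ≤ θ i := by
    intro i
    induction i with
    | zero => exact Nat.zero_le _
    | succ i ih =>
      have := hlt i
      omega
  have hjump : ∀ i, θ i < T → θ (i + 1) ≤ T := by
    intro i hi
    by_contra hcon
    have hT' : T < nt (θ i) := by
      rw [← hθs]
      omega
    rcases h3 (θ i) with ⟨-, h4⟩ | ⟨-, -, h4, h5⟩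
    · omega
    · obtain ⟨z, hz1, hz2, hz3⟩ := hT (θ i) (nt (θ i)) hi hT' h4
      have := h5 z hz1 hz2
      omega
  have hfin : ∃ i, T ≤ θ i := ⟨T, hge T⟩
  have hJ1 : T ≤ θ (Nat.find hfin) := Nat.find_spec hfin
  have hJ2 : ∀ i, i < Nat.find hfin → θ i < T := fun i hi => not_le.1 (Nat.find_min hfin hi)
  refine ⟨Nat.find hfin, θ, hθ0, ?_, fun i _ => hlt i, ?_, ?_⟩
  · refine le_antisymm ?_ hJ1
    rcases Nat.eq_zero_or_pos (Nat.find hfin) with h0 | h0
    · rw [h0, hθ0]
      exact Nat.zero_le _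
    · obtain ⟨k, hk⟩ : ∃ k, Nat.find hfin = k + 1 := ⟨Nat.find hfin - 1, by omega⟩
      rw [hk]
      exact hjump k (hJ2 k (by omega))
  · intro i _
    induction i with
    | zero =>
      rw [hθ0]
      rfl
    | succ i ih =>
      have ih' := ih (by omega)
      change (a (urun a (s, []) i).1).app (urun a (s, []) i).2 = _
      rw [ih', hθs, h2]
  · intro i _
    rw [hθs]
    exact h3 (θ i)

private theorem nt6_exc {H : ℕ → ℕ} {h t r a b : ℕ} (hE : Exc H h t r a b) :
    H a = H b ∧ ∀ m, a ≤ m → m ≤ b → H a ≤ H m := by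
  cases r with
  | zero => exact ⟨hE.1, fun m h1 h2 => (hE.2 m h1 h2).1⟩
  | succ r => exact ⟨hE.1, hE.2.1⟩

/-- the last time with the height `v` -/
private theorem nt6_last (H : ℕ → ℕ) (v c x : ℕ) (hcx : c ≤ x) (hc : H c ≤ v) (hx : v < H x)
    (hs : ∀ z, H (z + 1) ≤ H z + 1) :
    ∃ c', c ≤ c' ∧ c' < x ∧ H c' = v ∧ ∀ z, c' < z → z ≤ x → v < H z := by
  induction x with
  | zero =>
    have h1 : c = 0 := by omega
    subst h1
    omega
  | succ x ih =>
    have h1 := hs x
    have h2 : c ≠ x + 1 := by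
      rintro rfl
      omega
    by_cases h3 : v < H x
    · obtain ⟨c', h4, h5, h6, h7⟩ := ih (by omega) h3
      refine ⟨c', h4, by omega, h6, fun z hz1 hz2 => ?_⟩
      rcases Nat.lt_or_ge x z with h8 | h8
      · have h9 : z = x + 1 := by omega
        rw [h9]
        exact hx
      · exact h7 z hz1 h8
    · refine ⟨x, by omega, by omega, by omega, fun z hz1 hz2 => ?_⟩
      have h9 : z = x + 1 := by omega
      rw [h9]
      exact hx

/-- the first return to the height `v` -/
private theorem nt6_first (H : ℕ → ℕ) (v x d : ℕ) (hxd : x < d) (hd : H d ≤ v)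
    (hx : v < H (x + 1)) (hs : ∀ z, H z ≤ H (z + 1) + 1) :
    ∃ y, x < y ∧ y + 1 ≤ d ∧ H (y + 1) = v ∧ ∀ z, x < z → z ≤ y → v < H z := by
  classical
  have hex : ∃ z, x < z ∧ H z ≤ v := ⟨d, hxd, hd⟩
  obtain ⟨z₀, hz₀⟩ : ∃ z₀, z₀ = Nat.find hex := ⟨_, rfl⟩
  have h1 : x < z₀ ∧ H z₀ ≤ v := by
    rw [hz₀]
    exact Nat.find_spec hex
  have h2 : z₀ ≤ d := by
    rw [hz₀]
    exact Nat.find_min' hex ⟨hxd, hd⟩
  have h3 : ∀ z, x < z → z < z₀ → v < H z := by
    intro z hz1 hz2
    rw [hz₀] at hz2
    have := Nat.find_min hex hz2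
    by_contra h4
    exact this ⟨hz1, not_lt.1 h4⟩
  obtain ⟨y, rfl⟩ : ∃ y, z₀ = y + 1 := ⟨z₀ - 1, by omega⟩
  have h4 : x ≠ y := by
    rintro rfl
    omega
  have h5 := h3 y (by omega) (by omega)
  have h6 := hs y
  exact ⟨y, by omega, h2, by omega, fun z hz1 hz2 => h3 z hz1 (by omega)⟩

private theorem nt6_cross (θ : ℕ → ℕ) (h0 : θ 0 = 0) (i c : ℕ) (h : c < θ i) :
    ∃ i' < i, θ i' ≤ c ∧ c < θ (i' + 1) := by
  induction i with
  | zero => omega
  | succ i ih =>
    by_cases h1 : c < θ i
    · obtain ⟨i', h2, h3⟩ := ih h1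
      exact ⟨i', by omega, h3⟩
    · exact ⟨i, by omega, by omega, h⟩

private theorem nt6_up (ua : S → TAct S Γ) (s : S) (z : ℕ) :
    len ua s (z + 1) ≤ len ua s z + 1 := app_length_le _ _

private theorem nt6_down (ua : S → TAct S Γ) (s : S) (z : ℕ) :
    len ua s z ≤ len ua s (z + 1) + 1 := le_app_length _ _

private theorem nt6_len (ua : S → TAct S Γ) (s : S) (z : ℕ) : len ua s (z + 1) =
    ((ua (urun ua (s, []) z).1).app (urun ua (s, []) z).2).2.length := rfl

private theorem nt6_push {ua : S → TAct S Γ} {s : S} {z : ℕ}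
    (h : len ua s z < len ua s (z + 1)) : ∃ s' y, ua (urun ua (s, []) z).1 = .push s' y := by
  rw [nt6_len] at h
  have h1 : len ua s z = (urun ua (s, []) z).2.length := rfl
  cases hc : ua (urun ua (s, []) z).1 with
  | stay s' =>
    rw [hc, h1] at h
    exact absurd h (lt_irrefl _)
  | push s' y => exact ⟨s', y, rfl⟩
  | pop k =>
    rw [hc, h1] at h
    have h2 : (urun ua (s, []) z).2.length < (urun ua (s, []) z).2.tail.length := h
    rw [List.length_tail] at h2
    omega

private theorem nt6_pop {ua : S → TAct S Γ} {s : S} {z : ℕ}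
    (h : len ua s (z + 1) < len ua s z) : IsPop ua (urun ua (s, []) z).1 := by
  rw [nt6_len] at h
  have h1 : len ua s z = (urun ua (s, []) z).2.length := rfl
  unfold IsPop
  cases hc : ua (urun ua (s, []) z).1 with
  | stay s' =>
    rw [hc, h1] at h
    exact absurd h (lt_irrefl _)
  | push s' y =>
    rw [hc, h1] at h
    have h2 : (y :: (urun ua (s, []) z).2).length < (urun ua (s, []) z).2.length := h
    rw [List.length_cons] at h2
    omega
  | pop k => rfl

private theorem nt6_lt_push {ua : S → TAct S Γ} {s : S} {z : ℕ}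
    (h : (ua (urun ua (s, []) z).1).kind = some true) : len ua s (z + 1) = len ua s z + 1 := by
  rw [nt6_len]
  have h1 : len ua s z = (urun ua (s, []) z).2.length := rfl
  cases hc : ua (urun ua (s, []) z).1 with
  | stay s' =>
    rw [hc] at h
    exact absurd h (by simp [TAct.kind])
  | push s' y =>
    rw [h1]
    exact List.length_cons
  | pop k =>
    rw [hc] at h
    exact absurd h (by simp [TAct.kind])

private theorem nt6_lt_pop {ua : S → TAct S Γ} {s : S} {z : ℕ}
    (h : (ua (urun ua (s, []) z).1).kind = some false) (h0 : (urun ua (s, []) z).2 ≠ []) :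
    len ua s (z + 1) + 1 = len ua s z := by
  rw [nt6_len]
  have h1 : len ua s z = (urun ua (s, []) z).2.length := rfl
  cases hc : ua (urun ua (s, []) z).1 with
  | stay s' =>
    rw [hc] at h
    exact absurd h (by simp [TAct.kind])
  | push s' y =>
    rw [hc] at h
    exact absurd h (by simp [TAct.kind])
  | pop k =>
    rw [h1]
    change (urun ua (s, []) z).2.tail.length + 1 = _
    rw [List.length_tail]
    have h2 := List.length_pos_iff.2 h0
    omega

/-- the excursion `[c, x + 1]` inside an excursion of rank `j` is known to `a` -/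
private theorem nt6_core {ua a : S → TAct S Γ} {s : S} {h t j c₀ d₀ c x v : ℕ}
    (hC : SkC ua a h t j) (hE : Exc (len ua s) h t j c₀ d₀) (hc : c₀ ≤ c) (hcx : c < x)
    (hd : x + 1 ≤ d₀) (h1 : len ua s c = v) (h2 : len ua s (x + 1) = v)
    (h3 : ∀ z, c < z → z ≤ x → v < len ua s z) :
    (∃ s₁, a (urun ua (s, []) c).1 = .stay s₁) ∧
      (ua (urun ua (s, []) c).1).kind = some true := by
  have h4 := h3 (c + 1) (by omega) (by omega)
  obtain ⟨s', y, hpu⟩ := nt6_push (ua := ua) (s := s) (z := c) (by omega)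
  obtain ⟨L, hL⟩ : ∃ L, L = (urun ua (s, []) c).2 := ⟨_, rfl⟩
  have hLv : L.length = v := by
    rw [hL]
    exact h1
  have hc1 : urun ua (s, []) (c + 1) = (s', y :: L) := by
    change (ua (urun ua (s, []) c).1).app (urun ua (s, []) c).2 = _
    rw [hpu, hL]
    rfl
  have hrun : ∀ i, urun ua (s, []) (c + 1 + i) = urun ua (s', y :: L) i := by
    intro i
    rw [urun_add, hc1]
  have hx1 : len ua s x = v + 1 := by
    have h5 := nt6_down ua s x
    have h6 := h3 x hcx le_rfl
    omega
  have hno : ∀ n, c + 1 + n ≤ x → NoPE ua s' n := by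
    intro n
    induction n with
    | zero =>
      intro _ i hi
      omega
    | succ n ih =>
      intro hn i hi
      have hN := ih (by omega)
      rcases Nat.lt_or_ge i n with h5 | h5
      · exact hN i h5
      · have h6 : i = n := by omega
        subst h6
        rintro ⟨h7, h8⟩
        have h9 := urun_off ua s' i hN (y :: L) i le_rfl
        rw [h7, List.nil_append] at h9
        have h10 : urun ua (s, []) (c + 1 + i + 1) =
            (ua (urun ua (s', []) i).1).app (y :: L) := by
          change (ua (urun ua (s, []) (c + 1 + i)).1).app (urun ua (s, []) (c + 1 + i)).2 = _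
          rw [hrun, h9]
        have h11 := h3 (c + 1 + i + 1) (by omega) (by omega)
        have h12 : len ua s (c + 1 + i + 1) = v := by
          change (urun ua (s, []) (c + 1 + i + 1)).2.length = v
          rw [h10]
          unfold IsPop at h8
          cases hk : ua (urun ua (s', []) i).1 with
          | stay s₂ =>
            rw [hk] at h8
            exact absurd h8 (by simp [TAct.kind])
          | push s₂ y₂ =>
            rw [hk] at h8
            exact absurd h8 (by simp [TAct.kind])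
          | pop k => exact hLv
        omega
  obtain ⟨T₀, hT₀⟩ : ∃ T₀, x = c + 1 + T₀ := ⟨x - (c + 1), by omega⟩
  have hN := hno T₀ (by omega)
  have hoff : ∀ i ≤ T₀, urun ua (s, []) (c + 1 + i) =
      ((urun ua (s', []) i).1, (urun ua (s', []) i).2 ++ (y :: L)) := by
    intro i hi
    rw [hrun]
    exact urun_off ua s' T₀ hN (y :: L) i hi
  have hlen : ∀ i ≤ T₀, len ua s (c + 1 + i) = len ua s' i + (v + 1) := by
    intro i hi
    change (urun ua (s, []) (c + 1 + i)).2.length = _
    rw [hoff i hi]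
    change ((urun ua (s', []) i).2 ++ (y :: L)).length = _
    rw [List.length_append, List.length_cons, hLv]
    rfl
  have hcompl : Compl ua s' T₀ := by
    refine ⟨hN, ?_, ?_⟩
    · have h5 := hlen T₀ le_rfl
      rw [← hT₀, hx1] at h5
      exact List.length_eq_zero_iff.1 (by
        change len ua s' T₀ = 0
        omega)
    · have h5 : IsPop ua (urun ua (s, []) x).1 := nt6_pop (by omega)
      rw [hT₀, hoff T₀ le_rfl] at h5
      exact h5
  have hexc : Exc (len ua s') h t j 0 T₀ := by
    refine exc_shift (len ua s) (len ua s') h t (c + 1) T₀ (v + 1) hlen j 0 T₀ (Nat.zero_le _)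
      le_rfl ?_
    rw [← hT₀]
    refine exc_her (len ua s) h t j c₀ d₀ (c + 1 + 0) x hE (by omega) (by omega) (by omega) ?_ ?_
    · have h5 := hlen 0 (Nat.zero_le _)
      have h6 : len ua s' 0 = 0 := rfl
      omega
    · intro m hm1 hm2
      have h5 := hlen 0 (Nat.zero_le _)
      have h6 : len ua s' 0 = 0 := rfl
      have h7 := h3 m (by omega) hm2
      omega
  refine ⟨hC _ s' y T₀ hpu hcompl hexc, ?_⟩
  rw [hpu]
  rfl

/-- Piece NT-6. The steps of `a` in the pieces: take `σ q` = the least `i` with `τ q ≤ θ i`.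
In a piece in which the rising steps lie in excursions of rank `j`: if `a` pushes at the step `i`,
`x = θ i`, then `x ∈ [c, d)` for an excursion `[c, d]` of rank `j`, the first return `x' ≤ d` to the
height `len x` exists, `[x + 1, x' - 1]` is an excursion of rank `j` (`exc_her`), the run from the
control at the time `x + 1` has a pop with the empty stack at the time `x' - 1 - (x + 1)`
(`Compl`), `exc_shift` and `hC` say that `a` does not push at `x`. In a piece in which the falling
steps lie in excursions of rank `j`: if `a` pops at the step `i`, `x = θ i`, let `c'` be the last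
time `≤ x` with `len c' = len (x + 1)`; then `[c', x + 1]` is a finished excursion inside
`[c, d]`, so `a` skips it if it comes to `c'`. It comes to `c'`: let `i'` be the last step with
`θ i' ≤ c'`; if `θ i' < c'` then `a` skips from `θ i'` to `θ (i' + 1) ≤ x`, and
`len (θ (i' + 1)) = len (θ i') < len c'`, but the length is `> len c'` on `(c', x]`. If `θ i' = c'`
then `θ (i' + 1) = x + 1` (the first return), a contradiction. -/
theorem fol_pieces {ua a : S → TAct S Γ} {s : S} {T J : ℕ} {θ : ℕ → ℕ} {h t j t' : ℕ}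
    (hS : SkipM ua a) (hF : Fol ua a s T J θ) (hno : NoPE ua s T) (hC : SkC ua a h t j)
    (hP : Few (len ua s) (Exc (len ua s) h t j) t' 0 T) :
    ∃ σ : ℕ → ℕ, Monotone σ ∧ σ 0 = 0 ∧ σ t' = J ∧ ∀ q < t',
      (∀ i, σ q ≤ i → i < σ (q + 1) → (a (urun a (s, []) i).1).kind ≠ some false) ∨
      (∀ i, σ q ≤ i → i < σ (q + 1) → (a (urun a (s, []) i).1).kind ≠ some true) := by
  obtain ⟨τ, hτm, hτ0, hτt, hpc⟩ := hP
  have hθ : ∀ i' i, i < i' → i' ≤ J → θ i < θ i' := by
    intro i'
    induction i' with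
    | zero =>
      intro i hi
      omega
    | succ i' ih =>
      intro i hi hJ
      have h1 := hF.lt i' (by omega)
      rcases Nat.lt_or_ge i i' with h2 | h2
      · exact (ih i h2 (by omega)).trans h1
      · have h3 : i = i' := by omega
        rw [h3]
        exact h1
  obtain ⟨σ, hσ⟩ : ∃ σ : ℕ → ℕ, ∀ q, σ q = sInf {i | τ q ≤ θ i ∨ J ≤ i} := ⟨_, fun _ => rfl⟩
  have hmem : ∀ q, τ q ≤ θ (σ q) ∨ J ≤ σ q := by
    intro q
    have h1 : sInf {i | τ q ≤ θ i ∨ J ≤ i} ∈ {i | τ q ≤ θ i ∨ J ≤ i} :=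
      Nat.sInf_mem ⟨J, Or.inr le_rfl⟩
    rw [hσ]
    exact h1
  have hle : ∀ q i, (τ q ≤ θ i ∨ J ≤ i) → σ q ≤ i := by
    intro q i hi
    rw [hσ]
    exact Nat.sInf_le hi
  have hσJ : ∀ q, σ q ≤ J := fun q => hle q J (Or.inr le_rfl)
  refine ⟨σ, ?_, ?_, ?_, ?_⟩
  · intro q q' hq
    refine hle q _ ?_
    rcases hmem q' with h1 | h1
    · exact Or.inl ((hτm hq).trans h1)
    · exact Or.inr h1
  · exact Nat.le_zero.1 (hle 0 0 (Or.inl (by rw [hτ0]; exact Nat.zero_le _)))
  · refine le_antisymm (hσJ t') ?_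
    rcases hmem t' with h1 | h1
    · by_contra h2
      have h3 := hθ J (σ t') (not_le.1 h2) le_rfl
      rw [hτt] at h1
      have h4 := hF.e
      omega
    · exact h1
  intro q hq
  -- the times of the steps in the piece
  have hx : ∀ i, σ q ≤ i → i < σ (q + 1) → i < J ∧ τ q ≤ θ i ∧ θ i < τ (q + 1) := by
    intro i hi1 hi2
    have h1 := hσJ (q + 1)
    have hiJ : i < J := by omega
    refine ⟨hiJ, ?_, ?_⟩
    · rcases hmem q with h2 | h2
      · rcases Nat.lt_or_ge (σ q) i with h3 | h3
        · exact h2.trans (hθ i _ h3 hiJ.le).le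
        · have h4 : i = σ q := by omega
          rw [h4]
          exact h2
      · omega
    · by_contra h2
      have h3 := hle (q + 1) i (Or.inl (not_lt.1 h2))
      omega
  have hτT : τ (q + 1) ≤ T := by
    rw [← hτt]
    exact hτm hq
  rcases hpc q hq with hfall | hrise
  · left
    intro i hi1 hi2 hk
    obtain ⟨hiJ, hx1, hx2⟩ := hx i hi1 hi2
    rw [hF.run i hiJ.le] at hk
    rcases hF.st i hiJ with ⟨hst1, hst2⟩ | ⟨⟨s₁, hst⟩, -⟩
    · rw [hst1] at hk
      have hne : (urun ua (s, []) (θ i)).2 ≠ [] := fun h0 =>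
        hno (θ i) (by omega) ⟨h0, hk⟩
      have hdrop := nt6_lt_pop hk hne
      obtain ⟨c, d, hc1, hc2, hd1, hd2, hE⟩ := hfall (θ i) hx1 hx2 (by omega)
      obtain ⟨hE1, hE2⟩ := nt6_exc hE
      obtain ⟨v, hv⟩ : ∃ v, v = len ua s (θ i + 1) := ⟨_, rfl⟩
      have hcv : len ua s c ≤ v := by
        rw [hv]
        exact hE2 _ (by omega) (by omega)
      obtain ⟨c', hc'1, hc'2, hc'3, hc'4⟩ := nt6_last (len ua s) v c (θ i) hc2 hcv (by omega)
        (nt6_up ua s)
      obtain ⟨⟨s₁, hs₁⟩, hpush⟩ := nt6_core hC hE hc'1 hc'2 (by omega) hc'3 hv.symm hc'4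
      -- `a` comes to `c'`
      obtain ⟨i', hi'1, hi'2, hi'3⟩ := nt6_cross θ hF.z i c' hc'2
      have hi'J : i' < J := by omega
      have hmono : θ (i' + 1) ≤ θ i := by
        rcases Nat.lt_or_ge (i' + 1) i with h5 | h5
        · exact (hθ i _ h5 hiJ.le).le
        · have h6 : i' + 1 = i := by omega
          rw [h6]
      rcases hF.st i' hi'J with ⟨hst3, hst4⟩ | ⟨hst3, hst4, hst5, hst6⟩
      · -- `θ i' = c'`, but `a` skips
        have h5 : θ i' = c' := by omega
        rw [h5, hs₁] at hst3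
        rw [← hst3] at hpush
        exact absurd hpush (by simp [TAct.kind])
      · rcases Nat.lt_or_ge (θ i') c' with h5 | h5
        · have h6 := hst6 c' h5 hi'3
          have h7 := hc'4 (θ (i' + 1)) hi'3 hmono
          omega
        · have h6 : θ i' = c' := by omega
          rw [h6] at hst5
          have h7 := hc'4 (θ (i' + 1)) hi'3 hmono
          omega
    · rw [hst] at hk
      exact absurd hk (by simp [TAct.kind])
  · right
    intro i hi1 hi2 hk
    obtain ⟨hiJ, hx1, hx2⟩ := hx i hi1 hi2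
    rw [hF.run i hiJ.le] at hk
    rcases hF.st i hiJ with ⟨hst1, hst2⟩ | ⟨⟨s₁, hst⟩, -⟩
    · have hk' := hk
      rw [hst1] at hk
      have hup := nt6_lt_push hk
      obtain ⟨c, d, hc1, hc2, hd1, hd2, hE⟩ := hrise (θ i) hx1 hx2 (by omega)
      obtain ⟨hE1, hE2⟩ := nt6_exc hE
      have hcv : len ua s c ≤ len ua s (θ i) := hE2 _ hc2 hd1.le
      obtain ⟨y, hy1, hy2, hy3, hy4⟩ := nt6_first (len ua s) (len ua s (θ i)) (θ i) d hd1
        (by omega) (by omega) (nt6_down ua s)
      obtain ⟨⟨s₁, hs₁⟩, -⟩ := nt6_core hC hE hc2 hy1 hy2 rfl hy3 hy4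
      rw [hs₁] at hk'
      exact absurd hk' (by simp [TAct.kind])
    · rw [hst] at hk
      exact absurd hk (by simp [TAct.kind])

end Pool.Agent.Helper17.TX
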